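import Pool.Agent.MP_86e332_an.Defs

set_option autoImplicit false

/-!
# Working definitions (not used by the final statement)
-/

open Complex Set Matrix

namespace Pool.Agent.MP_86e332_an

/-- `S ⊆ ℂ` is such that `s - σ` has a continuous logarithm on `S` for each `σ ∉ S`. -/
def LogProp (S : Set ℂ) : Prop :=
  ∀ σ : ℂ, σ ∉ S → ∃ g : ℂ → ℂ, ContinuousOn g S ∧ ∀ s ∈ S, exp (g s) = s - σ

/-- The polar (dual complement) of a set. -/
def pol {n : ℕ} (U : Set (Fin n → ℂ)) : Set (Fin n → ℂ) := {ζ | ∀ x ∈ U, x ⬝ᵥ ζ ≠ 1}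

/-- Polynomial functions of degree at most `d`, as the span of the products of `d` affine
functions. -/
def Pol (n d : ℕ) : Submodule ℂ ((Fin n → ℂ) → ℂ) :=
  Submodule.span ℂ {f | ∃ (β : Fin d → ℂ) (α : Fin d → Fin n → ℂ),
    f = fun z => ∏ i, (β i + α i ⬝ᵥ z)}

/-- Sublevel sets of the extremal function of `E`. -/
def Kset {n : ℕ} (E : Set (Fin n → ℂ)) (c : ℝ) : Set (Fin n → ℂ) :=
  {z | ∀ d : ℕ, ∀ p ∈ Pol n d, ∀ M : ℝ, (∀ w ∈ E, ‖p w‖ ≤ M) → ‖p z‖ ≤ Real.exp (c * d) * M}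

/-- Open sublevel sets of the extremal function. -/
def Uset {n : ℕ} (E : Set (Fin n → ℂ)) (c : ℝ) : Set (Fin n → ℂ) :=
  {z | ∃ c' : ℝ, 0 ≤ c' ∧ c' < c ∧ z ∈ Kset E c'}

/-- The functional `q ↦ ∫₀¹ q`. -/
noncomputable def Lam (q : Polynomial ℂ) : ℂ := ∫ s in (0:ℝ)..1, q.eval (s : ℂ)

/-- Polynomial functions of total degree at most `N` in two groups of variables. -/
def Pol2 (n N : ℕ) : Submodule ℂ ((Fin n → ℂ) → (Fin n → ℂ) → ℂ) :=
  Submodule.span ℂ {P | ∃ (a b : ℕ) (f g : (Fin n → ℂ) → ℂ), a + b ≤ N ∧ f ∈ Pol n a ∧ g ∈ Pol n b ∧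
    P = fun x y => f x * g y}

end Pool.Agent.MP_86e332_an
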