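import Pool.Agent.MP_86e332_an.Basic

set_option autoImplicit false

/-!
# Module M9: the Cauchy transform of `Lam`
-/

open Complex Set Matrix Metric Polynomial Filter Topology

namespace Pool.Agent.MP_86e332_an

namespace CauchyTr

/-! ## `Lam` is linear -/

lemma cont_evalr (q : ℂ[X]) : Continuous (fun s : ℝ => q.eval (s : ℂ)) :=
  q.continuous.comp Complex.continuous_ofReal

/-- `Lam` as a linear map. -/
noncomputable def LamL : ℂ[X] →ₗ[ℂ] ℂ where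
  toFun := Lam
  map_add' p q := by
    simp only [Lam, eval_add]
    exact intervalIntegral.integral_add ((cont_evalr p).intervalIntegrable _ _)
      ((cont_evalr q).intervalIntegrable _ _)
  map_smul' c p := by
    simp only [Lam, eval_smul, smul_eq_mul, RingHom.id_apply]
    exact intervalIntegral.integral_const_mul _ _

lemma LamL_apply (p : ℂ[X]) : LamL p = Lam p := rfl

/-! ## the difference quotient polynomial -/

/-- The polynomial `s ↦ (w(t) - w(s)) / (t - s)`. -/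
noncomputable def qp (w : ℂ[X]) (t : ℂ) : ℂ[X] :=
  ∑ k ∈ Finset.range (w.natDegree + 1), ∑ j ∈ Finset.range k,
    (w.coeff k * t ^ j) • (X ^ (k - 1 - j) : ℂ[X])

lemma qp_mul (w : ℂ[X]) (t : ℂ) : (C t - X) * qp w t = C (w.eval t) - w := by
  conv_rhs => rw [w.as_sum_range_C_mul_X_pow]
  rw [qp, Finset.mul_sum, eval_finsetSum, map_sum, ← Finset.sum_sub_distrib]
  refine Finset.sum_congr rfl fun k _ => ?_
  have h := geom_sum₂_mul (C t : ℂ[X]) X k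
  have h2 : ∑ j ∈ Finset.range k, (w.coeff k * t ^ j) • (X ^ (k - 1 - j) : ℂ[X])
      = C (w.coeff k) * ∑ j ∈ Finset.range k, (C t) ^ j * X ^ (k - 1 - j) := by
    rw [Finset.mul_sum]
    refine Finset.sum_congr rfl fun j _ => ?_
    rw [smul_eq_C_mul, C_mul, C_pow]; ring
  rw [h2]
  have h3 : (C t - X) * (C (w.coeff k) * ∑ j ∈ Finset.range k, (C t : ℂ[X]) ^ j * X ^ (k - 1 - j))
      = C (w.coeff k) * ((∑ j ∈ Finset.range k, (C t : ℂ[X]) ^ j * X ^ (k - 1 - j)) * (C t - X)) := by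
    ring
  rw [h3, h]
  simp only [eval_mul, eval_C, eval_pow, eval_X, C_mul, C_pow]
  ring

/-- The terms of the series. -/
noncomputable def term (w : ℂ[X]) (m : ℕ) (t : ℂ) : ℂ :=
  ((w.eval t) ^ (m + 1))⁻¹ * Lam (w ^ m * qp w t)

/-- The Cauchy transform. -/
noncomputable def Th (w : ℂ[X]) (t : ℂ) : ℂ := ∑' m, term w m t

lemma Lam_qp (w p : ℂ[X]) (t : ℂ) : Lam (p * qp w t) =
    ∑ k ∈ Finset.range (w.natDegree + 1), ∑ j ∈ Finset.range k,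
      (w.coeff k * t ^ j) * Lam (p * X ^ (k - 1 - j)) := by
  rw [← LamL_apply, qp, Finset.mul_sum, map_sum]
  refine Finset.sum_congr rfl fun k _ => ?_
  rw [Finset.mul_sum, map_sum]
  refine Finset.sum_congr rfl fun j _ => ?_
  rw [mul_smul_comm, map_smul, smul_eq_mul, LamL_apply]

section One

variable {w : ℂ[X]} {ρ : ℝ}

lemma bound_unif (hρ : 0 < ρ) (hL : ∀ q : ℂ[X], ∃ C : ℝ, ∀ m : ℕ, ‖Lam (w ^ m * q)‖ ≤ C * ρ ^ m)
    (R : ℝ) : ∃ B : ℝ, 0 ≤ B ∧ ∀ t : ℂ, ‖t‖ ≤ R → ∀ m : ℕ,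
    ‖Lam (w ^ m * qp w t)‖ ≤ B * ρ ^ m := by
  choose c hc using hL
  refine ⟨∑ k ∈ Finset.range (w.natDegree + 1), ∑ j ∈ Finset.range k,
      (‖w.coeff k‖ * |R| ^ j) * |c (X ^ (k - 1 - j))|, by positivity, ?_⟩
  intro t ht m
  have hR : ‖t‖ ≤ |R| := ht.trans (le_abs_self R)
  rw [Lam_qp, Finset.sum_mul]
  refine (norm_sum_le _ _).trans (Finset.sum_le_sum fun k _ => ?_)
  rw [Finset.sum_mul]
  refine (norm_sum_le _ _).trans (Finset.sum_le_sum fun j _ => ?_)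
  rw [norm_mul, norm_mul, norm_pow]
  have h1 := hc (X ^ (k - 1 - j)) m
  have hm : ‖Lam (w ^ m * X ^ (k - 1 - j))‖ ≤ |c (X ^ (k - 1 - j))| * ρ ^ m :=
    h1.trans (mul_le_mul_of_nonneg_right (le_abs_self _) (pow_pos hρ m).le)
  calc ‖w.coeff k‖ * ‖t‖ ^ j * ‖Lam (w ^ m * X ^ (k - 1 - j))‖
      ≤ ‖w.coeff k‖ * |R| ^ j * (|c (X ^ (k - 1 - j))| * ρ ^ m) := by gcongr
    _ = _ := by ring

lemma term_bound {ρ' B : ℝ} (hρ : 0 < ρ) (hρ' : ρ < ρ') {t : ℂ} (ht : ρ' < ‖w.eval t‖) {m : ℕ}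
    (hB : ‖Lam (w ^ m * qp w t)‖ ≤ B * ρ ^ m) :
    ‖term w m t‖ ≤ (B / ρ') * (ρ / ρ') ^ m := by
  have h0 : 0 < ρ' := hρ.trans hρ'
  rw [term, norm_mul, norm_inv, norm_pow]
  have h1 : (‖w.eval t‖ ^ (m + 1))⁻¹ ≤ (ρ' ^ (m + 1))⁻¹ := by
    gcongr
  calc (‖w.eval t‖ ^ (m + 1))⁻¹ * ‖Lam (w ^ m * qp w t)‖
      ≤ (ρ' ^ (m + 1))⁻¹ * (B * ρ ^ m) := by
        gcongr
    _ = (B / ρ') * (ρ / ρ') ^ m := by
        rw [div_pow, pow_succ]; field_simp

lemma geo_summable {ρ' B : ℝ} (hρ : 0 < ρ) (hρ' : ρ < ρ') :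
    Summable (fun m : ℕ => (B / ρ') * (ρ / ρ') ^ m) := by
  have h0 : 0 < ρ' := hρ.trans hρ'
  exact (summable_geometric_of_lt_one (by positivity) ((div_lt_one h0).2 hρ')).mul_left _

lemma summable_term (hρ : 0 < ρ)
    (hL : ∀ q : ℂ[X], ∃ C : ℝ, ∀ m : ℕ, ‖Lam (w ^ m * q)‖ ≤ C * ρ ^ m) {t : ℂ}
    (ht : ρ < ‖w.eval t‖) : Summable (fun m => term w m t) := by
  obtain ⟨B, hB0, hB⟩ := bound_unif hρ hL ‖t‖
  obtain ⟨ρ', h1, h2⟩ := exists_between ht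
  exact Summable.of_norm_bounded (geo_summable hρ h1)
    (fun m => term_bound hρ h1 h2 (hB t le_rfl m))

lemma differentiableOn_term {U : Set ℂ} (hU : ∀ t ∈ U, w.eval t ≠ 0) (m : ℕ) :
    DifferentiableOn ℂ (term w m) U := by
  have h1 : (term w m) = fun t => ((w.eval t) ^ (m + 1))⁻¹ *
      ∑ k ∈ Finset.range (w.natDegree + 1), ∑ j ∈ Finset.range k,
      (w.coeff k * t ^ j) * Lam (w ^ m * X ^ (k - 1 - j)) := by
    funext t; rw [term, Lam_qp]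
  rw [h1]
  apply DifferentiableOn.mul
  · apply DifferentiableOn.inv
    · exact (w.differentiable.differentiableOn).pow _
    · intro t ht; exact pow_ne_zero _ (hU t ht)
  · apply Differentiable.differentiableOn
    fun_prop

lemma isOpen_set (w : ℂ[X]) (ρ : ℝ) : IsOpen {t : ℂ | ρ < ‖w.eval t‖} :=
  isOpen_lt continuous_const w.continuous.norm

lemma Th_differentiableOn (hρ : 0 < ρ)
    (hL : ∀ q : ℂ[X], ∃ C : ℝ, ∀ m : ℕ, ‖Lam (w ^ m * q)‖ ≤ C * ρ ^ m) :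
    DifferentiableOn ℂ (Th w) {t : ℂ | ρ < ‖w.eval t‖} := by
  intro t ht
  apply DifferentiableAt.differentiableWithinAt
  obtain ⟨ρ', h1, h2⟩ := exists_between (show ρ < ‖w.eval t‖ from ht)
  obtain ⟨B, hB0, hB⟩ := bound_unif hρ hL (‖t‖ + 1)
  set U : Set ℂ := {s : ℂ | ‖s‖ < ‖t‖ + 1} ∩ {s : ℂ | ρ' < ‖w.eval s‖} with hU
  have hUo : IsOpen U := (isOpen_lt continuous_norm continuous_const).inter (isOpen_set w ρ')
  have htU : t ∈ U := ⟨by simp, h2⟩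
  have hne : ∀ s ∈ U, w.eval s ≠ 0 := by
    intro s hs h0
    have := hs.2
    simp only [mem_ofPred_eq, h0, norm_zero] at this
    linarith
  have := differentiableOn_tsum_of_summable_norm (geo_summable (B := B) hρ h1)
    (fun m => differentiableOn_term hne m) hUo
    (fun m s hs => term_bound hρ h1 hs.2 (hB s (le_of_lt hs.1) m))
  exact (this t htU).differentiableAt (hUo.mem_nhds htU)

/-! ## large `t` -/

lemma integral_one_div {t : ℂ} (ht : 1 < ‖t‖) :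
    exp (∫ s in (0:ℝ)..1, (t - s)⁻¹) * (t - 1) = t := by
  have ht0 : t ≠ 0 := by
    rintro rfl; simp at ht; linarith
  have hs : ∀ s ∈ uIcc (0:ℝ) 1, ‖(s:ℂ) / t‖ < 1 := by
    intro s hs
    rw [uIcc_of_le zero_le_one] at hs
    rw [norm_div, Complex.norm_real, Real.norm_eq_abs, abs_of_nonneg hs.1]
    rw [div_lt_one (by linarith)]
    exact hs.2.trans_lt ht
  have hmem : ∀ s ∈ uIcc (0:ℝ) 1, (1 - (s:ℂ) / t) ∈ slitPlane := by
    intro s h
    exact Complex.mem_slitPlane_of_norm_lt_one (z := -((s:ℂ)/t)) (by simpa using hs s h)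
      |> fun h => by simpa [sub_eq_add_neg] using h
  have hne : ∀ s ∈ uIcc (0:ℝ) 1, t - s ≠ 0 := by
    intro s h h0
    have h1 := hs s h
    rw [← sub_eq_zero.1 h0, div_self ht0] at h1
    simp at h1
  have hder : ∀ s ∈ uIcc (0:ℝ) 1, HasDerivAt (fun s : ℝ => -Complex.log (1 - (s:ℂ) / t))
      ((t - s)⁻¹) s := by
    intro s h
    have h1 : HasDerivAt (fun s : ℝ => (1 - (s:ℂ) / t)) (-(1 / t)) s := by
      have := (Complex.ofRealCLM.hasDerivAt (x := s)).div_const t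
      simpa using this.const_sub 1
    have h2 : HasDerivAt (fun s : ℝ => -Complex.log (1 - (s:ℂ) / t))
        (-(-(1 / t) / (1 - (s:ℂ) / t))) s := (h1.clog_real (hmem s h)).neg
    refine h2.congr_deriv ?_
    have h4 := hne s h
    have h3 : (1 - (s:ℂ) / t) = (t - s) / t := by
      field_simp
    rw [h3]
    field_simp
  have hint : IntervalIntegrable (fun s : ℝ => (t - s)⁻¹) MeasureTheory.volume 0 1 := by
    apply ContinuousOn.intervalIntegrable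
    apply ContinuousOn.inv₀
    · fun_prop
    · exact hne
  rw [intervalIntegral.integral_eq_sub_of_hasDerivAt hder hint]
  have h1 : (1 - ((1:ℝ):ℂ) / t) ≠ 0 := slitPlane_ne_zero (hmem 1 right_mem_uIcc)
  have h2 : t - 1 ≠ 0 := by
    have := hne 1 right_mem_uIcc
    simpa using this
  simp only [ofReal_zero, zero_div, sub_zero, Complex.log_one, neg_zero]
  rw [Complex.exp_neg, Complex.exp_log h1]
  simp only [ofReal_one]
  field_simp

lemma exists_bound_unit (q : ℂ[X]) : ∃ K : ℝ, 0 ≤ K ∧ ∀ s ∈ Icc (0:ℝ) 1, ‖q.eval (s : ℂ)‖ ≤ K := by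
  obtain ⟨K, hK⟩ := (isCompact_Icc (a := (0:ℝ)) (b := 1)).exists_bound_of_continuousOn
    (cont_evalr q).continuousOn
  exact ⟨K, (norm_nonneg _).trans (hK 0 ⟨le_rfl, zero_le_one⟩), hK⟩

lemma Th_eq_integral {W : ℝ} (hW0 : 0 ≤ W) (hW : ∀ s ∈ Icc (0:ℝ) 1, ‖w.eval (s : ℂ)‖ ≤ W) {t : ℂ}
    (ht : W < ‖w.eval t‖) : Th w t = ∫ s in (0:ℝ)..1, (t - s)⁻¹ := by
  obtain ⟨K, hK0, hK⟩ := exists_bound_unit (qp w t)
  have hwt : 0 < ‖w.eval t‖ := lt_of_le_of_lt hW0 ht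
  have hwt0 : w.eval t ≠ 0 := norm_pos_iff.1 hwt
  have hterm : ∀ m, term w m t = ∫ s in (0:ℝ)..1,
      ((w.eval t) ^ (m + 1))⁻¹ * ((w.eval (s:ℂ)) ^ m * (qp w t).eval (s:ℂ)) := by
    intro m
    rw [intervalIntegral.integral_const_mul, term, Lam]
    simp only [eval_mul, eval_pow]
  have hr : W / ‖w.eval t‖ < 1 := (div_lt_one hwt).2 ht
  have hsumm : Summable (fun m : ℕ => (K / ‖w.eval t‖) * (W / ‖w.eval t‖) ^ m) :=
    (summable_geometric_of_lt_one (by positivity) hr).mul_left _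
  have key := intervalIntegral.hasSum_integral_of_dominated_convergence
    (μ := MeasureTheory.volume) (a := 0) (b := 1)
    (F := fun (m : ℕ) (s : ℝ) =>
      ((w.eval t) ^ (m + 1))⁻¹ * ((w.eval (s:ℂ)) ^ m * (qp w t).eval (s:ℂ)))
    (f := fun s : ℝ => (t - s)⁻¹)
    (fun m _ => (K / ‖w.eval t‖) * (W / ‖w.eval t‖) ^ m)
    (fun m => by
      apply Continuous.aestronglyMeasurable
      exact continuous_const.mul (((cont_evalr w).pow m).mul (cont_evalr _)))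
    (fun m => by
      refine Filter.Eventually.of_forall fun s hs => ?_
      have hs' : s ∈ Icc (0:ℝ) 1 := by
        rw [uIoc_of_le zero_le_one] at hs
        exact ⟨hs.1.le, hs.2⟩
      rw [norm_mul, norm_mul, norm_inv, norm_pow, norm_pow]
      calc (‖w.eval t‖ ^ (m + 1))⁻¹ * (‖w.eval (s:ℂ)‖ ^ m * ‖(qp w t).eval (s:ℂ)‖)
          ≤ (‖w.eval t‖ ^ (m + 1))⁻¹ * (W ^ m * K) := by
            gcongr
            · exact hW s hs'
            · exact hK s hs'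
        _ = (K / ‖w.eval t‖) * (W / ‖w.eval t‖) ^ m := by
            rw [div_pow, pow_succ]; field_simp)
    (Filter.Eventually.of_forall fun s _ => hsumm)
    (by simp)
    (Filter.Eventually.of_forall fun s hs => by
      have hs' : s ∈ Icc (0:ℝ) 1 := by
        rw [uIoc_of_le zero_le_one] at hs
        exact ⟨hs.1.le, hs.2⟩
      have hlt : ‖w.eval (s:ℂ) / w.eval t‖ < 1 := by
        rw [norm_div, div_lt_one hwt]
        exact (hW s hs').trans_lt ht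
      have hgeo := (hasSum_geometric_of_norm_lt_one hlt).mul_left
        ((qp w t).eval (s:ℂ) / w.eval t)
      have hne : w.eval t - w.eval (s:ℂ) ≠ 0 := by
        intro h
        have := hW s hs'
        rw [← sub_eq_zero.1 h] at this
        linarith
      have hq : (t - s) * (qp w t).eval (s:ℂ) = w.eval t - w.eval (s:ℂ) := by
        have := congrArg (Polynomial.eval (s:ℂ)) (qp_mul w t)
        simpa using this
      have hts : t - s ≠ 0 := by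
        intro h
        rw [h, zero_mul] at hq
        exact hne hq.symm
      have e1 : (fun m : ℕ => ((w.eval t) ^ (m + 1))⁻¹ *
          ((w.eval (s:ℂ)) ^ m * (qp w t).eval (s:ℂ))) =
          fun i : ℕ => (qp w t).eval (s:ℂ) / w.eval t * (w.eval (s:ℂ) / w.eval t) ^ i := by
        funext m
        rw [div_pow, pow_succ]
        field_simp
      have e2 : (t - (s:ℂ))⁻¹ =
          (qp w t).eval (s:ℂ) / w.eval t * (1 - w.eval (s:ℂ) / w.eval t)⁻¹ := by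
        have h1 : 1 - w.eval (s:ℂ) / w.eval t = ((t - s) * (qp w t).eval (s:ℂ)) / w.eval t := by
          rw [hq]; field_simp
        rw [h1]
        have h2 : (qp w t).eval (s:ℂ) ≠ 0 := by
          intro h
          rw [h, mul_zero] at hq
          exact hne hq.symm
        field_simp
      rw [e1, e2]
      exact hgeo)
  rw [Th]
  simp only [hterm]
  exact key.tsum_eq

lemma exists_large (h0 : ‖w.eval 0‖ ≤ ρ) {t₀ : ℂ} (ht₀ : ρ < ‖w.eval t₀‖) (W : ℝ) :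
    ∃ R : ℝ, ∀ t : ℂ, R < ‖t‖ → W < ‖w.eval t‖ := by
  have hdeg : 0 < w.degree := by
    by_contra h
    have h1 := Polynomial.eq_C_of_degree_le_zero (not_lt.1 h)
    rw [h1] at h0 ht₀
    simp only [eval_C] at h0 ht₀
    linarith
  have h1 : Tendsto (fun t : ℂ => ‖w.eval t‖) (comap norm atTop) atTop :=
    w.tendsto_norm_atTop hdeg tendsto_comap
  have h2 := h1.eventually_gt_atTop W
  rw [eventually_comap] at h2
  obtain ⟨R, hR⟩ := (eventually_atTop.1 h2)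
  exact ⟨R, fun t ht => hR ‖t‖ ht.le t rfl⟩

lemma exp_Th (hρ : 0 < ρ) (h0 : ‖w.eval 0‖ ≤ ρ)
    (hL : ∀ q : ℂ[X], ∃ C : ℝ, ∀ m : ℕ, ‖Lam (w ^ m * q)‖ ≤ C * ρ ^ m) {t₀ : ℂ}
    (ht₀ : ρ < ‖w.eval t₀‖) : exp (Th w t₀) * (t₀ - 1) = t₀ := by
  by_contra hcon
  set O : Set ℂ := {t : ℂ | ρ < ‖w.eval t‖} with hO
  have hOo : IsOpen O := isOpen_set w ρ
  set G : ℂ → ℂ := fun t => exp (Th w t) * (t - 1) - t with hG
  have hGd : DifferentiableOn ℂ G O := by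
    have h1 := Th_differentiableOn hρ hL
    refine (h1.cexp.mul ?_).sub ?_
    · exact (differentiable_id.sub_const 1).differentiableOn
    · exact differentiable_id.differentiableOn
  have hGa : ∀ t ∈ O, AnalyticAt ℂ G t := fun t ht => (hGd.analyticOnNhd hOo) t ht
  set A : Set ℂ := {t | t ∈ O ∧ ¬ ∀ᶠ z in 𝓝 t, G z = 0} with hA
  have hAo : IsOpen A := by
    rw [isOpen_iff_mem_nhds]
    rintro t ⟨htO, htG⟩
    have h1 := (hGa t htO).eventually_eq_zero_or_eventually_ne_zero.resolve_left htG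
    rw [eventually_nhdsWithin_iff] at h1
    filter_upwards [h1, hOo.mem_nhds htO] with z hz hzO
    refine ⟨hzO, fun hzG => ?_⟩
    by_cases hzt : z = t
    · rw [hzt] at hzG; exact htG hzG
    · exact hz hzt hzG.self_of_nhds
  obtain ⟨W, hW0, hW⟩ := exists_bound_unit w
  obtain ⟨R, hR⟩ := exists_large h0 ht₀ W
  have hbd : ∀ t ∈ A, ‖t‖ ≤ max R 1 := by
    rintro t ⟨htO, htG⟩
    by_contra hlt
    push Not at hlt
    apply htG
    have : {z : ℂ | max R 1 < ‖z‖} ∈ 𝓝 t := (isOpen_lt continuous_const continuous_norm).mem_nhds hlt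
    filter_upwards [this] with z hz
    have hz1 : R < ‖z‖ := (le_max_left _ _).trans_lt hz
    have hz2 : 1 < ‖z‖ := (le_max_right _ _).trans_lt hz
    simp only [hG]
    rw [Th_eq_integral hW0 hW (hR z hz1), integral_one_div hz2, sub_self]
  have hcomp : IsCompact (closure A) := by
    apply Bornology.IsBounded.isCompact_closure
    rw [isBounded_iff_forall_norm_le]
    exact ⟨_, hbd⟩
  have ht₀A : t₀ ∈ A := by
    refine ⟨ht₀, fun h => hcon ?_⟩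
    have := h.self_of_nhds
    simp only [hG] at this
    exact sub_eq_zero.1 this
  obtain ⟨t, htc, htmax⟩ := hcomp.exists_isMaxOn ⟨t₀, subset_closure ht₀A⟩
    (w.continuous.norm.continuousOn)
  have htO : t ∈ O := lt_of_lt_of_le ht₀ (htmax (subset_closure ht₀A))
  have htA : t ∈ A := by
    refine ⟨htO, fun htG => ?_⟩
    have h1 := htG.eventually_nhds
    rw [mem_closure_iff_frequently] at htc
    obtain ⟨z, hz1, hz2⟩ := (htc.and_eventually h1).exists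
    exact hz1.2 hz2
  have hloc : IsLocalMax (norm ∘ fun z => w.eval z) t := by
    filter_upwards [hAo.mem_nhds htA] with z hz
    exact htmax (subset_closure hz)
  have hev := Complex.eventually_eq_of_isLocalMax_norm
    (Filter.Eventually.of_forall fun z => w.differentiable.differentiableAt) hloc
  have heq : w = C (w.eval t) := by
    apply Polynomial.eq_of_infinite_eval_eq
    refine infinite_of_mem_nhds t ?_
    filter_upwards [hev] with z hz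
    simpa using hz
  rw [heq] at h0
  simp only [eval_C] at h0
  exact absurd (show ρ < ‖w.eval t‖ from htO) (not_lt.2 h0)

end One

/-! ## comparison of two indices -/

/-- Partial sums, as polynomials. -/
noncomputable def Fp (w : ℂ[X]) (M : ℕ) (t : ℂ) : ℂ[X] :=
  ∑ m ∈ Finset.range M, ((w.eval t) ^ (m + 1))⁻¹ • (w ^ m * qp w t)

/-- The remainder. -/
noncomputable def ep (w : ℂ[X]) (M : ℕ) (t : ℂ) : ℂ[X] := ((w.eval t) ^ M)⁻¹ • w ^ M

lemma Fp_mul {w : ℂ[X]} {t : ℂ} (hw : w.eval t ≠ 0) (M : ℕ) :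
    Fp w M t * (C t - X) = 1 - ep w M t := by
  have h1 : Fp w M t * (C t - X) = ∑ m ∈ Finset.range M, (ep w m t - ep w (m + 1) t) := by
    rw [Fp, Finset.sum_mul]
    refine Finset.sum_congr rfl fun m _ => ?_
    rw [smul_mul_assoc, mul_assoc, mul_comm (qp w t), qp_mul, ep, ep, mul_sub, smul_sub]
    congr 1
    rw [mul_comm (w ^ m), ← smul_eq_C_mul, smul_smul]
    congr 1
    rw [pow_succ]
    field_simp
  rw [h1, Finset.sum_range_sub']
  simp [ep]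

lemma Lam_Fp (w : ℂ[X]) (M : ℕ) (t : ℂ) : Lam (Fp w M t) = ∑ m ∈ Finset.range M, term w m t := by
  rw [← LamL_apply, Fp, map_sum]
  refine Finset.sum_congr rfl fun m _ => ?_
  rw [map_smul, smul_eq_mul, LamL_apply, term]

lemma Lam_Fp_ep_tendsto {w₁ w₂ : ℂ[X]} {ρ₁ ρ₂ : ℝ} (hρ₁ : 0 < ρ₁) (hρ₂ : 0 < ρ₂)
    (hL : ∀ q : ℂ[X], ∃ C : ℝ, ∀ m k : ℕ, ‖Lam (w₁ ^ m * w₂ ^ k * q)‖ ≤ C * ρ₁ ^ m * ρ₂ ^ k)
    {t : ℂ} (h₁ : ρ₁ < ‖w₁.eval t‖) (h₂ : ρ₂ < ‖w₂.eval t‖) :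
    Tendsto (fun M => Lam (Fp w₁ M t * ep w₂ M t)) atTop (𝓝 0) := by
  obtain ⟨c, hc⟩ := hL (qp w₁ t)
  have hp1 : 0 < ‖w₁.eval t‖ := hρ₁.trans h₁
  have hp2 : 0 < ‖w₂.eval t‖ := hρ₂.trans h₂
  have hr1 : ρ₁ / ‖w₁.eval t‖ < 1 := (div_lt_one hp1).2 h₁
  have hr2 : ρ₂ / ‖w₂.eval t‖ < 1 := (div_lt_one hp2).2 h₂
  have hsum : Summable (fun m : ℕ => (ρ₁ / ‖w₁.eval t‖) ^ m) :=
    summable_geometric_of_lt_one (by positivity) hr1
  set S : ℝ := ∑' m : ℕ, (ρ₁ / ‖w₁.eval t‖) ^ m with hS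
  have hbound : ∀ M, ‖Lam (Fp w₁ M t * ep w₂ M t)‖ ≤
      (|c| / ‖w₁.eval t‖ * S) * (ρ₂ / ‖w₂.eval t‖) ^ M := by
    intro M
    have e1 : Lam (Fp w₁ M t * ep w₂ M t) = ∑ m ∈ Finset.range M,
        ((w₁.eval t) ^ (m + 1))⁻¹ * (((w₂.eval t) ^ M)⁻¹ * Lam (w₁ ^ m * w₂ ^ M * qp w₁ t)) := by
      rw [← LamL_apply, Fp, ep, Finset.sum_mul, map_sum]
      refine Finset.sum_congr rfl fun m _ => ?_
      have e3 : w₁ ^ m * qp w₁ t * w₂ ^ M = w₁ ^ m * w₂ ^ M * qp w₁ t := by ring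
      rw [smul_mul_assoc, mul_smul_comm, e3, map_smul, map_smul, smul_eq_mul, smul_eq_mul,
        LamL_apply]
    rw [e1]
    have e2 : ∀ m ∈ Finset.range M,
        ‖((w₁.eval t) ^ (m + 1))⁻¹ * (((w₂.eval t) ^ M)⁻¹ * Lam (w₁ ^ m * w₂ ^ M * qp w₁ t))‖ ≤
        (|c| / ‖w₁.eval t‖) * (ρ₂ / ‖w₂.eval t‖) ^ M * (ρ₁ / ‖w₁.eval t‖) ^ m := by
      intro m _
      rw [norm_mul, norm_mul, norm_inv, norm_inv, norm_pow, norm_pow]
      have h3 : ‖Lam (w₁ ^ m * w₂ ^ M * qp w₁ t)‖ ≤ |c| * ρ₁ ^ m * ρ₂ ^ M :=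
        (hc m M).trans (by gcongr; exact le_abs_self c)
      calc (‖w₁.eval t‖ ^ (m + 1))⁻¹ * ((‖w₂.eval t‖ ^ M)⁻¹ * ‖Lam (w₁ ^ m * w₂ ^ M * qp w₁ t)‖)
          ≤ (‖w₁.eval t‖ ^ (m + 1))⁻¹ * ((‖w₂.eval t‖ ^ M)⁻¹ * (|c| * ρ₁ ^ m * ρ₂ ^ M)) := by
            gcongr
        _ = _ := by
            rw [div_pow, div_pow, pow_succ]; field_simp
    refine (norm_sum_le_of_le _ e2).trans ?_
    rw [← Finset.mul_sum]
    have h4 : ∑ m ∈ Finset.range M, (ρ₁ / ‖w₁.eval t‖) ^ m ≤ S :=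
      hsum.sum_le_tsum _ (fun _ _ => by positivity)
    calc (|c| / ‖w₁.eval t‖) * (ρ₂ / ‖w₂.eval t‖) ^ M * ∑ m ∈ Finset.range M, (ρ₁ / ‖w₁.eval t‖) ^ m
        ≤ (|c| / ‖w₁.eval t‖) * (ρ₂ / ‖w₂.eval t‖) ^ M * S := by gcongr
      _ = _ := by ring
  have hlim : Tendsto (fun M : ℕ => (|c| / ‖w₁.eval t‖ * S) * (ρ₂ / ‖w₂.eval t‖) ^ M) atTop
      (𝓝 0) := by
    have := (tendsto_pow_atTop_nhds_zero_of_lt_one (by positivity) hr2).const_mul
      (|c| / ‖w₁.eval t‖ * S)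
    simpa using this
  exact squeeze_zero_norm hbound hlim

lemma Th_eq {w₁ w₂ : ℂ[X]} {ρ₁ ρ₂ : ℝ} (hρ₁ : 0 < ρ₁) (hρ₂ : 0 < ρ₂)
    (hL12 : ∀ q : ℂ[X], ∃ C : ℝ, ∀ m k : ℕ, ‖Lam (w₁ ^ m * w₂ ^ k * q)‖ ≤ C * ρ₁ ^ m * ρ₂ ^ k)
    (hL21 : ∀ q : ℂ[X], ∃ C : ℝ, ∀ m k : ℕ, ‖Lam (w₂ ^ m * w₁ ^ k * q)‖ ≤ C * ρ₂ ^ m * ρ₁ ^ k)
    {t : ℂ} (h₁ : ρ₁ < ‖w₁.eval t‖) (h₂ : ρ₂ < ‖w₂.eval t‖) : Th w₁ t = Th w₂ t := by
  have hL1 : ∀ q : ℂ[X], ∃ C : ℝ, ∀ m : ℕ, ‖Lam (w₁ ^ m * q)‖ ≤ C * ρ₁ ^ m := by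
    intro q
    obtain ⟨c, hc⟩ := hL12 q
    exact ⟨c, fun m => by simpa using hc m 0⟩
  have hL2 : ∀ q : ℂ[X], ∃ C : ℝ, ∀ m : ℕ, ‖Lam (w₂ ^ m * q)‖ ≤ C * ρ₂ ^ m := by
    intro q
    obtain ⟨c, hc⟩ := hL21 q
    exact ⟨c, fun m => by simpa using hc m 0⟩
  have t1 : Tendsto (fun M => Lam (Fp w₁ M t)) atTop (𝓝 (Th w₁ t)) := by
    simp only [Lam_Fp]
    exact (summable_term hρ₁ hL1 h₁).hasSum.tendsto_sum_nat
  have t2 : Tendsto (fun M => Lam (Fp w₂ M t)) atTop (𝓝 (Th w₂ t)) := by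
    simp only [Lam_Fp]
    exact (summable_term hρ₂ hL2 h₂).hasSum.tendsto_sum_nat
  have t3 := Lam_Fp_ep_tendsto hρ₁ hρ₂ hL12 h₁ h₂
  have t4 := Lam_Fp_ep_tendsto hρ₂ hρ₁ hL21 h₂ h₁
  have hw1 : w₁.eval t ≠ 0 := norm_pos_iff.1 (hρ₁.trans h₁)
  have hw2 : w₂.eval t ≠ 0 := norm_pos_iff.1 (hρ₂.trans h₂)
  have hid : ∀ M, Lam (Fp w₁ M t) - Lam (Fp w₂ M t) =
      Lam (Fp w₁ M t * ep w₂ M t) - Lam (Fp w₂ M t * ep w₁ M t) := by
    intro M
    simp only [← LamL_apply]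
    rw [← map_sub, ← map_sub]
    congr 1
    have a1 := Fp_mul hw1 M
    have a2 := Fp_mul hw2 M
    have a3 : Fp w₁ M t * (1 - ep w₂ M t) = Fp w₂ M t * (1 - ep w₁ M t) := by
      rw [← a1, ← a2]; ring
    linear_combination a3
  have t5 := (t1.sub t2).congr hid
  have t6 := t3.sub t4
  have := tendsto_nhds_unique t5 t6
  rw [sub_zero] at this
  exact sub_eq_zero.1 this

end CauchyTr

open CauchyTr in
theorem cauchy_transform {ι : Type*} (w : ι → Polynomial ℂ) (ρ : ι → ℝ) (hρ : ∀ i, 0 < ρ i)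
    (h0 : ∀ i, ‖(w i).eval 0‖ ≤ ρ i) (h1 : ∀ i, ‖(w i).eval 1‖ ≤ ρ i)
    (hΛ : ∀ i j, ∀ q : Polynomial ℂ, ∃ C : ℝ, ∀ m k : ℕ,
      ‖Lam (w i ^ m * w j ^ k * q)‖ ≤ C * ρ i ^ m * ρ j ^ k) :
    ∃ Θ : ℂ → ℂ, ContinuousOn Θ {t | ∃ i, ρ i < ‖(w i).eval t‖} ∧
      ∀ t, (∃ i, ρ i < ‖(w i).eval t‖) → exp (Θ t) * (t - 1) = t := by
  classical
  have hL : ∀ i, ∀ q : ℂ[X], ∃ C : ℝ, ∀ m : ℕ, ‖Lam (w i ^ m * q)‖ ≤ C * ρ i ^ m := by
    intro i q
    obtain ⟨c, hc⟩ := hΛ i i q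
    exact ⟨c, fun m => by simpa using hc m 0⟩
  let Θ : ℂ → ℂ := fun t => if h : ∃ i, ρ i < ‖(w i).eval t‖ then Th (w h.choose) t else 0
  have hΘ : ∀ i t, ρ i < ‖(w i).eval t‖ → Θ t = Th (w i) t := by
    intro i t hi
    have h : ∃ i, ρ i < ‖(w i).eval t‖ := ⟨i, hi⟩
    simp only [Θ, dif_pos h]
    exact Th_eq (hρ _) (hρ _) (hΛ _ _) (hΛ _ _) h.choose_spec hi
  refine ⟨Θ, ?_, ?_⟩
  · rintro t ⟨i, hi⟩
    apply ContinuousAt.continuousWithinAt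
    have hO := (isOpen_set (w i) (ρ i)).mem_nhds (show t ∈ {t : ℂ | ρ i < ‖(w i).eval t‖} from hi)
    have hc : ContinuousAt (Th (w i)) t :=
      ((Th_differentiableOn (hρ i) (hL i)).differentiableAt hO).continuousAt
    refine hc.congr ?_
    filter_upwards [hO] with s hs
    exact (hΘ i s hs).symm
  · rintro t ⟨i, hi⟩
    rw [hΘ i t hi]
    exact exp_Th (hρ i) (h0 i) (hL i) hi

end Pool.Agent.MP_86e332_an
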