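import Mathlib

set_option autoImplicit false

/-!
# Exhaustion of bounded `ℂ`-convex domains by `ℂ`-convex compact sets: definitions
-/

open Complex Set

namespace Pool.Agent.MP_86e332_an

/-- The section of `S ⊆ ℂⁿ` by the complex line `{a + t b : t ∈ ℂ}`, read in the coordinate `t`. -/
def sec {n : ℕ} (S : Set (Fin n → ℂ)) (a b : Fin n → ℂ) : Set ℂ := {t : ℂ | a + t • b ∈ S}

/-- `ℂ`-convex domains: open connected sets all of whose sections by complex lines are empty or
(connected and) simply connected. -/
structure IsCConvexDomain {n : ℕ} (D : Set (Fin n → ℂ)) : Prop where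
  isOpen : IsOpen D
  isConnected : IsConnected D
  sec_simplyConnected : ∀ a b : Fin n → ℂ, b ≠ 0 → sec D a b = ∅ ∨ IsSimplyConnected (sec D a b)

/-- `ℂ`-convex compact sets: compact sets all of whose sections by complex lines are empty or
connected with connected complement in the line. -/
structure IsCConvexCompact {n : ℕ} (K : Set (Fin n → ℂ)) : Prop where
  isCompact : IsCompact K
  sec_acyclic : ∀ a b : Fin n → ℂ, b ≠ 0 →
    sec K a b = ∅ ∨ (IsConnected (sec K a b) ∧ IsConnected (sec K a b)ᶜ)

end Pool.Agent.MP_86e332_an
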