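import Pool.Agent.MP_86e332_an.Basic

set_option autoImplicit false

/-!
# M11: the sublevel sets of the extremal function of the polar decrease to the polar

Runge type argument: for `x ∈ D` the function `1 / (1 - ⟨x, ζ⟩)` is a uniform limit on `pol D` of
polynomials in `⟨x, ζ⟩`.
-/

open Complex Set Matrix Metric

namespace Pool.Agent.MP_86e332_an

variable {n : ℕ}

namespace Exhaust

/-- Uniform approximability by polynomials on `F`. -/
def App (F : Set ℂ) (g : ℂ → ℂ) : Prop :=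
  ∀ ε : ℝ, 0 < ε → ∃ Q : Polynomial ℂ, ∀ u ∈ F, ‖g u - Q.eval u‖ ≤ ε

/-- Boundedness on `F`. -/
def Bdd (F : Set ℂ) (g : ℂ → ℂ) : Prop := ∃ A : ℝ, 0 ≤ A ∧ ∀ u ∈ F, ‖g u‖ ≤ A

theorem App.add {F : Set ℂ} {g h : ℂ → ℂ} (hg : App F g) (hh : App F h) :
    App F (fun u => g u + h u) := by
  intro ε hε
  obtain ⟨P, hP⟩ := hg (ε / 2) (by positivity)
  obtain ⟨Q, hQ⟩ := hh (ε / 2) (by positivity)
  refine ⟨P + Q, fun u hu => ?_⟩
  have h1 : g u + h u - (P + Q).eval u = (g u - P.eval u) + (h u - Q.eval u) := by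
    rw [Polynomial.eval_add]; ring
  rw [h1]
  calc ‖(g u - P.eval u) + (h u - Q.eval u)‖ ≤ ‖g u - P.eval u‖ + ‖h u - Q.eval u‖ :=
        norm_add_le _ _
    _ ≤ ε / 2 + ε / 2 := add_le_add (hP u hu) (hQ u hu)
    _ = ε := by ring

theorem App.mul {F : Set ℂ} {g h : ℂ → ℂ} (hg : App F g) (hh : App F h) (bg : Bdd F g)
    (bh : Bdd F h) : App F (fun u => g u * h u) := by
  intro ε hε
  obtain ⟨A, hA0, hA⟩ := bg
  obtain ⟨B, hB0, hB⟩ := bh
  obtain ⟨P, hP⟩ := hg (ε / (2 * (B + 1))) (by positivity)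
  obtain ⟨Q, hQ⟩ := hh (min 1 (ε / (2 * (A + 1)))) (by positivity)
  refine ⟨P * Q, fun u hu => ?_⟩
  have h1 : g u * h u - (P * Q).eval u =
      g u * (h u - Q.eval u) + (g u - P.eval u) * Q.eval u := by
    rw [Polynomial.eval_mul]; ring
  have hQ1 : ‖Q.eval u‖ ≤ B + 1 := by
    have : Q.eval u = h u - (h u - Q.eval u) := by ring
    rw [this]
    calc ‖h u - (h u - Q.eval u)‖ ≤ ‖h u‖ + ‖h u - Q.eval u‖ := norm_sub_le _ _
      _ ≤ B + 1 := add_le_add (hB u hu) ((hQ u hu).trans (min_le_left _ _))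
  rw [h1]
  calc ‖g u * (h u - Q.eval u) + (g u - P.eval u) * Q.eval u‖
      ≤ ‖g u * (h u - Q.eval u)‖ + ‖(g u - P.eval u) * Q.eval u‖ := norm_add_le _ _
    _ = ‖g u‖ * ‖h u - Q.eval u‖ + ‖g u - P.eval u‖ * ‖Q.eval u‖ := by
        rw [norm_mul, norm_mul]
    _ ≤ (A + 1) * (ε / (2 * (A + 1))) + (ε / (2 * (B + 1))) * (B + 1) := by
        apply add_le_add
        · exact mul_le_mul ((hA u hu).trans (by linarith)) ((hQ u hu).trans (min_le_right _ _))
            (norm_nonneg _) (by linarith)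
        · exact mul_le_mul (hP u hu) hQ1 (norm_nonneg _) (by positivity)
    _ = ε := by field_simp; ring

theorem Bdd.mul {F : Set ℂ} {g h : ℂ → ℂ} (bg : Bdd F g) (bh : Bdd F h) :
    Bdd F (fun u => g u * h u) := by
  obtain ⟨A, hA0, hA⟩ := bg
  obtain ⟨B, hB0, hB⟩ := bh
  refine ⟨A * B, by positivity, fun u hu => ?_⟩
  rw [norm_mul]
  exact mul_le_mul (hA u hu) (hB u hu) (norm_nonneg _) hA0

theorem App.polynomial (F : Set ℂ) (Q : Polynomial ℂ) : App F (fun u => Q.eval u) := by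
  intro ε hε
  exact ⟨Q, fun u _ => by simp [hε.le]⟩

theorem App.const (F : Set ℂ) (c : ℂ) : App F (fun _ => c) := by
  have := App.polynomial F (Polynomial.C c)
  simpa using this

theorem App.id (F : Set ℂ) : App F (fun u => u) := by
  have := App.polynomial F Polynomial.X
  simpa using this

theorem Bdd.const (F : Set ℂ) (c : ℂ) : Bdd F (fun _ => c) := ⟨‖c‖, norm_nonneg _, fun _ _ => le_rfl⟩

theorem App.pow {F : Set ℂ} {g : ℂ → ℂ} (hg : App F g) (bg : Bdd F g) (k : ℕ) :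
    App F (fun u => g u ^ k) ∧ Bdd F (fun u => g u ^ k) := by
  induction k with
  | zero => simpa using And.intro (App.const F 1) (Bdd.const F 1)
  | succ k ih =>
    constructor
    · simpa [pow_succ] using App.mul ih.1 hg ih.2 bg
    · simpa [pow_succ] using Bdd.mul ih.2 bg

theorem App.sum {F : Set ℂ} {g : ℕ → ℂ → ℂ} (hg : ∀ k, App F (g k)) (N : ℕ) :
    App F (fun u => ∑ k ∈ Finset.range N, g k u) := by
  induction N with
  | zero => simpa using App.const F 0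
  | succ N ih => simpa [Finset.sum_range_succ] using App.add ih (hg N)

theorem App.limit {F : Set ℂ} {g : ℂ → ℂ}
    (h : ∀ ε : ℝ, 0 < ε → ∃ f, App F f ∧ ∀ u ∈ F, ‖g u - f u‖ ≤ ε) : App F g := by
  intro ε hε
  obtain ⟨f, hf, hgf⟩ := h (ε / 2) (by positivity)
  obtain ⟨Q, hQ⟩ := hf (ε / 2) (by positivity)
  refine ⟨Q, fun u hu => ?_⟩
  have : g u - Q.eval u = (g u - f u) + (f u - Q.eval u) := by ring
  rw [this]
  calc ‖(g u - f u) + (f u - Q.eval u)‖ ≤ ‖g u - f u‖ + ‖f u - Q.eval u‖ := norm_add_le _ _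
    _ ≤ ε / 2 + ε / 2 := add_le_add (hgf u hu) (hQ u hu)
    _ = ε := by ring

/-- One step of the continuation. -/
theorem step {F : Set ℂ} {l : ℂ} {r : ℝ} (hr : 0 < r)
    (hrF : ∀ u ∈ F, r * ‖u‖ ≤ ‖1 - l * u‖) (h0 : ∀ u ∈ F, 1 - l * u ≠ 0)
    (hbu : Bdd F (fun u => u)) (hbG : Bdd F (fun u => (1 - l * u)⁻¹))
    (hA : App F (fun u => (1 - l * u)⁻¹)) {l' : ℂ} (hl' : ‖l' - l‖ < r) :
    App F (fun u => (1 - l' * u)⁻¹) := by
  set δ := l' - l with hδ
  have hl : l' = l + δ := by rw [hδ]; ring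
  have hw : App F (fun u => u * (1 - l * u)⁻¹) := App.mul (App.id F) hA hbu hbG
  have bw : Bdd F (fun u => u * (1 - l * u)⁻¹) := Bdd.mul hbu hbG
  have hwr : ∀ u ∈ F, ‖δ * (u * (1 - l * u)⁻¹)‖ ≤ ‖δ‖ / r := by
    intro u hu
    have hpos : 0 < ‖1 - l * u‖ := norm_pos_iff.2 (h0 u hu)
    rw [norm_mul, norm_mul, norm_inv, div_eq_mul_inv]
    apply mul_le_mul_of_nonneg_left _ (norm_nonneg _)
    rw [← div_eq_mul_inv, div_le_iff₀ hpos, inv_mul_eq_div, le_div_iff₀ hr]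
    have := hrF u hu
    linarith
  set q := ‖δ‖ / r with hq
  have hq0 : 0 ≤ q := by positivity
  have hq1 : q < 1 := (div_lt_one hr).2 hl'
  obtain ⟨B, hB0, hB⟩ := hbG
  apply App.limit
  intro ε hε
  obtain ⟨N, hN⟩ := exists_pow_lt_of_lt_one (show 0 < ε * (1 - q) / (B + 1) by
    have : 0 < 1 - q := by linarith
    positivity) hq1
  refine ⟨fun u => ∑ k ∈ Finset.range N,
    (δ * (u * (1 - l * u)⁻¹)) ^ k * (1 - l * u)⁻¹, ?_, ?_⟩
  · apply App.sum
    intro k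
    have h1 : App F (fun u => δ * (u * (1 - l * u)⁻¹)) :=
      App.mul (App.const F δ) hw (Bdd.const F δ) bw
    have h2 : Bdd F (fun u => δ * (u * (1 - l * u)⁻¹)) := Bdd.mul (Bdd.const F δ) bw
    have h3 := App.pow h1 h2 k
    exact App.mul h3.1 hA h3.2 ⟨B, hB0, hB⟩
  · intro u hu
    have hne := h0 u hu
    set z := δ * (u * (1 - l * u)⁻¹) with hz
    have hz1 : ‖z‖ ≤ q := hwr u hu
    have hz2 : 1 - z ≠ 0 := by
      intro h
      have : z = 1 := by linear_combination -h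
      rw [this, norm_one] at hz1
      linarith
    have hfac : 1 - l' * u = (1 - l * u) * (1 - z) := by
      rw [hz, hl]
      field_simp
      ring
    rw [hfac, mul_inv]
    change ‖(1 - l * u)⁻¹ * (1 - z)⁻¹ - ∑ k ∈ Finset.range N, z ^ k * (1 - l * u)⁻¹‖ ≤ ε
    rw [← Finset.sum_mul]
    have hgeom : (∑ k ∈ Finset.range N, z ^ k) * (1 - z) = 1 - z ^ N := by
      have := geom_sum_mul z N
      linear_combination -this
    have hgeom' : (1 - z)⁻¹ - ∑ k ∈ Finset.range N, z ^ k = z ^ N * (1 - z)⁻¹ := by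
      field_simp
      linear_combination -hgeom
    have h4 : (1 - l * u)⁻¹ * (1 - z)⁻¹ - (∑ k ∈ Finset.range N, z ^ k) * (1 - l * u)⁻¹ =
        (1 - l * u)⁻¹ * (z ^ N * (1 - z)⁻¹) := by
      rw [← hgeom']; ring
    rw [h4, norm_mul, norm_mul, norm_pow, norm_inv (1 - z)]
    have h5 : 1 - q ≤ ‖1 - z‖ := by
      calc 1 - q ≤ ‖(1:ℂ)‖ - ‖z‖ := by rw [norm_one]; linarith
        _ ≤ ‖1 - z‖ := norm_sub_norm_le _ _
    have h6 : 0 < 1 - q := by linarith
    calc ‖(1 - l * u)⁻¹‖ * (‖z‖ ^ N * ‖1 - z‖⁻¹) ≤ (B + 1) * (q ^ N * (1 - q)⁻¹) := by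
          apply mul_le_mul ((hB u hu).trans (by linarith)) _ (by positivity) (by linarith)
          apply mul_le_mul (pow_le_pow_left₀ (norm_nonneg _) hz1 N) _ (by positivity)
            (by positivity)
          exact inv_anti₀ h6 h5
      _ ≤ (B + 1) * (ε * (1 - q) / (B + 1) * (1 - q)⁻¹) := by
          apply mul_le_mul_of_nonneg_left _ (by linarith)
          exact mul_le_mul_of_nonneg_right hN.le (by positivity)
      _ = ε := by field_simp

/-- A polynomial in `x ⬝ᵥ ζ` of degree at most `d` is in `Pol n d`. -/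
theorem eval_mem_Pol (x : Fin n → ℂ) (Q : Polynomial ℂ) {d : ℕ} (hd : Q.natDegree ≤ d) :
    (fun ζ : Fin n → ℂ => Q.eval (x ⬝ᵥ ζ)) ∈ Pol n d := by
  have h1 : (fun ζ : Fin n → ℂ => Q.eval (x ⬝ᵥ ζ)) =
      ∑ k ∈ Finset.range (d + 1), Q.coeff k • (fun ζ : Fin n → ℂ => (x ⬝ᵥ ζ) ^ k) := by
    funext ζ
    rw [Polynomial.eval_eq_sum_range' (Nat.lt_succ_of_le hd), Finset.sum_apply]
    rfl
  rw [h1]
  apply Submodule.sum_mem
  intro k hk
  apply Submodule.smul_mem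
  apply Submodule.subset_span
  have hk' : k ≤ d := Nat.lt_succ_iff.1 (Finset.mem_range.1 hk)
  refine ⟨fun i => if (i : ℕ) < k then 0 else 1, fun i => if (i : ℕ) < k then x else 0, ?_⟩
  funext ζ
  have h2 : ∀ i : Fin d, ((if (i : ℕ) < k then (0:ℂ) else 1) +
      (if (i : ℕ) < k then x else 0) ⬝ᵥ ζ) = if (i : ℕ) < k then x ⬝ᵥ ζ else 1 := by
    intro i
    split_ifs <;> simp
  rw [Finset.prod_congr rfl (fun i _ => h2 i), Finset.prod_ite, Finset.prod_const_one, mul_one,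
    Finset.prod_const]
  congr 1
  have h3 : (Finset.univ.filter fun i : Fin d => (i : ℕ) < k).card = k := by
    rw [Fin.card_filter_val_lt]
    omega
  rw [h3]

end Exhaust

open Exhaust in
theorem exhaustion {D : Set (Fin n → ℂ)} (hD : IsOpen D) (h0 : (0 : Fin n → ℂ) ∈ D)
    (_hb : Bornology.IsBounded D) (hpre : ∀ a b, IsPreconnected (sec D a b))
    {x : Fin n → ℂ} (hx : x ∈ D) : ∃ c : ℝ, 0 < c ∧ ∀ ζ ∈ Kset (pol D) c, x ⬝ᵥ ζ ≠ 1 := by
  set S : Set ℂ := sec D 0 x with hS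
  set F : Set ℂ := {u | ∃ ζ ∈ pol D, u = x ⬝ᵥ ζ} with hF
  have hSo : IsOpen S := hD.preimage (by fun_prop : Continuous fun t : ℂ => (0 : Fin n → ℂ) + t • x)
  have hS0 : (0:ℂ) ∈ S := by simpa [hS, sec] using h0
  have hS1 : (1:ℂ) ∈ S := by simpa [hS, sec] using hx
  have hSF : ∀ l ∈ S, ∀ u ∈ F, 1 - l * u ≠ 0 := by
    rintro l hl u ⟨ζ, hζ, rfl⟩ h
    have hl' : l • x ∈ D := by simpa [hS, sec] using hl
    apply hζ _ hl'
    rw [smul_dotProduct, smul_eq_mul]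
    linear_combination -h
  have hball : ∀ l : ℂ, ∀ r : ℝ, ball l r ⊆ S → ∀ u ∈ F, r * ‖u‖ ≤ ‖1 - l * u‖ := by
    intro l r hlr u hu
    by_contra hcon
    push Not at hcon
    have hu0 : u ≠ 0 := by
      rintro rfl
      simp only [norm_zero, mul_zero, sub_zero, norm_one] at hcon
      linarith
    have hupos : 0 < ‖u‖ := norm_pos_iff.2 hu0
    have hmem : l + (1 - l * u) / u ∈ ball l r := by
      rw [mem_ball, dist_eq_norm, add_sub_cancel_left, norm_div, div_lt_iff₀ hupos]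
      exact hcon
    apply hSF _ (hlr hmem) u hu
    field_simp
    ring
  -- boundedness of `u`
  have hbu : Bdd F (fun u => u) := by
    obtain ⟨r, hr, hr'⟩ := Metric.isOpen_iff.1 hSo 0 hS0
    refine ⟨1 / r, by positivity, fun u hu => ?_⟩
    have := hball 0 r hr' u hu
    rw [zero_mul, sub_zero, norm_one] at this
    rw [le_div_iff₀ hr]
    linarith
  have hbG : ∀ l ∈ S, Bdd F (fun u => (1 - l * u)⁻¹) := by
    intro l hl
    obtain ⟨r, hr, hr'⟩ := Metric.isOpen_iff.1 hSo l hl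
    have hm : 0 < min (r / (2 * (‖l‖ + 1))) (1 / 2) := by positivity
    refine ⟨(min (r / (2 * (‖l‖ + 1))) (1 / 2))⁻¹, by positivity, fun u hu => ?_⟩
    rw [norm_inv]
    apply inv_anti₀ hm
    by_cases hc : 1 / (2 * (‖l‖ + 1)) ≤ ‖u‖
    · calc min (r / (2 * (‖l‖ + 1))) (1 / 2) ≤ r / (2 * (‖l‖ + 1)) := min_le_left _ _
        _ = r * (1 / (2 * (‖l‖ + 1))) := by ring
        _ ≤ r * ‖u‖ := mul_le_mul_of_nonneg_left hc hr.le
        _ ≤ ‖1 - l * u‖ := hball l r hr' u hu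
    · push Not at hc
      have h1 : ‖l * u‖ ≤ 1 / 2 := by
        rw [norm_mul]
        calc ‖l‖ * ‖u‖ ≤ (‖l‖ + 1) * (1 / (2 * (‖l‖ + 1))) := by
              apply mul_le_mul (by linarith) hc.le (norm_nonneg _) (by positivity)
          _ = 1 / 2 := by field_simp
      calc min (r / (2 * (‖l‖ + 1))) (1 / 2) ≤ 1 / 2 := min_le_right _ _
        _ ≤ ‖(1:ℂ)‖ - ‖l * u‖ := by rw [norm_one]; linarith
        _ ≤ ‖1 - l * u‖ := norm_sub_norm_le _ _
  -- the continuation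
  set T : Set ℂ := {l | l ∈ S ∧ App F (fun u => (1 - l * u)⁻¹)} with hT
  have hstep : ∀ l ∈ T, ∀ r : ℝ, 0 < r → ball l r ⊆ S → ball l r ⊆ T := by
    intro l hl r hr hlr l' hl'
    refine ⟨hlr hl', ?_⟩
    apply step hr (hball l r hlr) (hSF l hl.1) hbu (hbG l hl.1) hl.2
    rwa [mem_ball, dist_eq_norm] at hl'
  have hTo : IsOpen T := by
    rw [Metric.isOpen_iff]
    intro l hl
    obtain ⟨r, hr, hr'⟩ := Metric.isOpen_iff.1 hSo l hl.1
    exact ⟨r, hr, hstep l hl r hr hr'⟩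
  have hT0 : (0:ℂ) ∈ T := by
    refine ⟨hS0, ?_⟩
    simpa using App.const F 1
  have hST : S ⊆ T := by
    apply IsPreconnected.subset_of_closure_inter_subset (hpre 0 x) hTo ⟨0, hS0, hT0⟩
    rintro l ⟨hl, hlS⟩
    obtain ⟨r, hr, hr'⟩ := Metric.isOpen_iff.1 hSo l hlS
    obtain ⟨l₁, hl₁, hd⟩ := Metric.mem_closure_iff.1 hl (r / 2) (by positivity)
    have hsub : ball l₁ (r / 2) ⊆ S := by
      intro z hz
      apply hr'
      rw [mem_ball] at hz ⊢
      calc dist z l ≤ dist z l₁ + dist l₁ l := dist_triangle _ _ _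
        _ < r / 2 + r / 2 := by
            rw [dist_comm l₁ l]
            exact add_lt_add hz hd
        _ = r := by ring
    exact hstep l₁ hl₁ (r / 2) (by positivity) hsub (by rwa [mem_ball])
  obtain ⟨-, hA⟩ := hST hS1
  obtain ⟨A, hA0, hAu⟩ := hbu
  obtain ⟨Q, hQ⟩ := hA (1 / (2 * (A + 1))) (by positivity)
  -- the final polynomial
  set q : Polynomial ℂ := 1 - (1 - Polynomial.X) * Q with hq
  have hqF : ∀ ζ ∈ pol D, ‖q.eval (x ⬝ᵥ ζ)‖ ≤ 1 / 2 := by
    intro ζ hζ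
    set u := x ⬝ᵥ ζ with hu
    have huF : u ∈ F := ⟨ζ, hζ, hu⟩
    have hne := hSF 1 hS1 u huF
    rw [one_mul] at hne
    have h1 : q.eval u = (1 - u) * ((1 - 1 * u)⁻¹ - Q.eval u) := by
      rw [hq]
      simp only [Polynomial.eval_sub, Polynomial.eval_one, Polynomial.eval_mul, Polynomial.eval_X,
        one_mul]
      field_simp
    rw [h1, norm_mul]
    have h2 : ‖1 - u‖ ≤ A + 1 := by
      calc ‖1 - u‖ ≤ ‖(1:ℂ)‖ + ‖u‖ := norm_sub_le _ _
        _ ≤ A + 1 := by rw [norm_one]; linarith [hAu u huF]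
    calc ‖1 - u‖ * ‖(1 - 1 * u)⁻¹ - Q.eval u‖ ≤ (A + 1) * (1 / (2 * (A + 1))) :=
          mul_le_mul h2 (hQ u huF) (norm_nonneg _) (by positivity)
      _ = 1 / 2 := by field_simp
  set d := q.natDegree with hd
  refine ⟨Real.log 2 / (2 * (d + 1)), by
    have := Real.log_pos (by norm_num : (1:ℝ) < 2)
    positivity, ?_⟩
  intro ζ hζ h1
  have h2 := hζ d (fun ζ => q.eval (x ⬝ᵥ ζ)) (eval_mem_Pol x q le_rfl) (1 / 2) hqF
  simp only [h1] at h2
  have h3 : q.eval 1 = 1 := by simp [hq]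
  rw [h3, norm_one] at h2
  have hlog := Real.log_pos (by norm_num : (1:ℝ) < 2)
  have h4 : Real.exp (Real.log 2 / (2 * (d + 1)) * d) < 2 := by
    rw [← Real.lt_log_iff_exp_lt (by norm_num)]
    have hd0 : (0:ℝ) ≤ d := Nat.cast_nonneg d
    rw [div_mul_eq_mul_div, div_lt_iff₀ (by positivity)]
    nlinarith
  linarith

end Pool.Agent.MP_86e332_an
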