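import Pool.Agent.MP_86e332_an.Basic

set_option autoImplicit false

/-!
# M8: bound of the integral
-/

open Complex Set Matrix Metric

namespace Pool.Agent.MP_86e332_an

variable {n : ℕ}

theorem exists_primitive_poly (q : Polynomial ℂ) : ∃ Φ : Polynomial ℂ, Polynomial.derivative Φ = q := by
  induction q using Polynomial.induction_on' with
  | add p q hp hq =>
    obtain ⟨P, hP⟩ := hp
    obtain ⟨Q, hQ⟩ := hq
    exact ⟨P + Q, by rw [Polynomial.derivative_add, hP, hQ]⟩
  | monomial k a =>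
    refine ⟨Polynomial.monomial (k + 1) (a / (k + 1)), ?_⟩
    rw [Polynomial.derivative_monomial]
    have : ((k : ℂ) + 1) ≠ 0 := by exact_mod_cast Nat.succ_ne_zero k
    push_cast
    rw [div_mul_cancel₀ _ this]

theorem Lam_eq_sub {q Φ : Polynomial ℂ} (h : Polynomial.derivative Φ = q) :
    Lam q = Φ.eval 1 - Φ.eval 0 := by
  unfold Lam
  have h1 : ∀ x ∈ Set.uIcc (0:ℝ) 1, HasDerivAt (fun s : ℝ => Φ.eval (s : ℂ)) (q.eval (x : ℂ)) x := by
    intro x _
    have := (Φ.hasDerivAt (x : ℂ)).comp_ofReal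
    rw [h] at this
    exact this
  rw [intervalIntegral.integral_eq_sub_of_hasDerivAt h1]
  · simp
  · apply Continuous.intervalIntegrable
    exact q.continuous.comp Complex.continuous_ofReal

theorem integral_bound {E : Set (Fin n → ℂ)} (hE : IsCompact E)
    (hconn : ∀ a b, IsPreconnected (sec E a b)) {δ : ℝ} (hδ : 0 < δ) :
    ∃ C : ℝ, 0 ≤ C ∧ ∀ x ∈ E, ∀ y ∈ E, ∀ q : Polynomial ℂ, ∀ M : ℝ, 0 ≤ M →
      (∀ s : ℂ, (∃ z ∈ E, dist ((1 - s) • x + s • y) z < δ) → ‖q.eval s‖ ≤ M) →
      ‖Lam q‖ ≤ C * M := by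
  obtain ⟨t, htE, htf, htc⟩ := hE.finite_cover_balls (half_pos hδ)
  set N : ℕ := htf.toFinset.card with hN
  refine ⟨N + 1, by positivity, ?_⟩
  intro x hx y hy q M hM hq
  obtain ⟨Φ, hΦ⟩ := exists_primitive_poly q
  -- the mean value inequality on segments
  have key : ∀ s s' : ℂ, (1 - s) • x + s • y ∈ E → ‖s' - s‖ * dist x y < δ → 
      ‖Φ.eval s' - Φ.eval s‖ ≤ M * ‖s' - s‖ := by
    intro s s' hs hss
    have hconv : Convex ℝ (segment ℝ s s') := convex_segment s s'
    refine hconv.norm_image_sub_le_of_norm_hasDerivWithin_le (f := fun z => Φ.eval z)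
      (f' := fun z => q.eval z) ?_ ?_ (left_mem_segment ℝ s s') (right_mem_segment ℝ s s')
    · intro z _
      have := Φ.hasDerivAt z
      rw [hΦ] at this
      exact this.hasDerivWithinAt
    · intro z hz
      apply hq
      refine ⟨_, hs, ?_⟩
      rw [segment_eq_image'] at hz
      obtain ⟨θ, ⟨hθ0, hθ1⟩, rfl⟩ := hz
      have : (1 - (s + θ • (s' - s))) • x + (s + θ • (s' - s)) • y - ((1 - s) • x + s • y) = 
        (θ * (s' - s)) • (y - x) := by
        ext i
        simp
        ring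
      rw [dist_eq_norm, this, norm_smul, norm_mul, Complex.norm_real, Real.norm_eq_abs, abs_of_nonneg hθ0,
        ← dist_eq_norm y x, dist_comm y x]
      calc θ * ‖s' - s‖ * dist x y ≤ 1 * ‖s' - s‖ * dist x y := by gcongr
        _ < δ := by rw [one_mul]; exact hss
  rw [Lam_eq_sub hΦ]
  by_cases hxy : dist x y < δ
  · have := key 0 1 (by simpa using hx) (by simpa using hxy)
    calc ‖Φ.eval 1 - Φ.eval 0‖ ≤ M * ‖(1:ℂ) - 0‖ := this
      _ = 1 * M := by simp
      _ ≤ (N + 1) * M := by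
        have : (0:ℝ) ≤ N := Nat.cast_nonneg N
        nlinarith
  · push Not at hxy
    -- the connected set
    set F : Set ℂ := sec E x (y - x) with hF
    have hFmem : ∀ s : ℂ, s ∈ F ↔ (1 - s) • x + s • y ∈ E := by
      intro s
      have : x + s • (y - x) = (1 - s) • x + s • y := by
        ext i; simp; ring
      rw [hF, sec, Set.mem_ofPred_eq, this]
    have h0F : (0:ℂ) ∈ F := by rw [hFmem]; simpa using hx
    have h1F : (1:ℂ) ∈ F := by rw [hFmem]; simpa using hy
    -- unimodular rotation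
    obtain ⟨u, hu, hux⟩ : ∃ u : ℂ, ‖u‖ = 1 ∧ (u * (Φ.eval 1 - Φ.eval 0)).re = ‖Φ.eval 1 - Φ.eval 0‖ := by
      set w := Φ.eval 1 - Φ.eval 0 with hw
      by_cases h0 : w = 0
      · exact ⟨1, by simp, by rw [h0]; simp⟩
      · refine ⟨(starRingEnd ℂ) w / ‖w‖, ?_, ?_⟩
        · rw [norm_div, RCLike.norm_conj, Complex.norm_real, norm_norm, div_self (norm_ne_zero_iff.2 h0)]
        · have h2 : (starRingEnd ℂ) w / (‖w‖ : ℂ) * w = (‖w‖ : ℂ) := by
            rw [div_mul_eq_mul_div, mul_comm, Complex.mul_conj, Complex.normSq_eq_norm_sq]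
            have : (‖w‖ : ℂ) ≠ 0 := by exact_mod_cast norm_ne_zero_iff.2 h0
            field_simp
            push_cast
            ring
          rw [h2, Complex.ofReal_re]
    set G : ℂ → ℝ := fun s => (u * Φ.eval s).re with hG
    have hGc : Continuous G := by
      have := Φ.continuous
      fun_prop
    have hpre : IsPreconnected (G '' F) := (hconn x (y - x)).image _ hGc.continuousOn
    have hsub : Set.Icc (G 0) (G 1) ⊆ G '' F :=
      hpre.Icc_subset (Set.mem_image_of_mem _ h0F) (Set.mem_image_of_mem _ h1F)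
    have hdiff : G 1 - G 0 = ‖Φ.eval 1 - Φ.eval 0‖ := by
      rw [← hux, mul_sub, Complex.sub_re]
    have hcov : G '' F ⊆ ⋃ c ∈ htf.toFinset, G '' {s ∈ F | (1 - s) • x + s • y ∈ ball c (δ / 2)} := by
      rintro _ ⟨s, hs, rfl⟩
      have h1 := htc ((hFmem s).1 hs)
      simp only [Set.mem_iUnion, exists_prop] at h1 ⊢
      obtain ⟨c, hc, hsc⟩ := h1
      exact ⟨c, by simpa using hc, Set.mem_image_of_mem _ ⟨hs, hsc⟩⟩
    have hdiam : ∀ c, MeasureTheory.volume (G '' {s ∈ F | (1 - s) • x + s • y ∈ ball c (δ / 2)}) ≤ ENNReal.ofReal M := by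
      intro c
      refine (Real.volume_le_diam _).trans ?_
      apply Metric.ediam_le
      rintro _ ⟨s, ⟨hs, hsc⟩, rfl⟩ _ ⟨s', ⟨hs', hsc'⟩, rfl⟩
      rw [edist_dist]
      apply ENNReal.ofReal_le_ofReal
      have hd : dist ((1 - s) • x + s • y) ((1 - s') • x + s' • y) < δ := by
        calc _ ≤ dist ((1 - s) • x + s • y) c + dist c ((1 - s') • x + s' • y) := dist_triangle _ _ _
          _ < δ / 2 + δ / 2 := by
            rw [dist_comm c]
            exact add_lt_add hsc hsc'
          _ = δ := by ring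
      have he : (1 - s) • x + s • y - ((1 - s') • x + s' • y) = (s - s') • (y - x) := by
        ext i; simp; ring
      rw [dist_eq_norm, he, norm_smul, ← dist_eq_norm y x, dist_comm y x] at hd
      have h3 : ‖s - s'‖ ≤ 1 := by
        by_contra hcon
        push Not at hcon
        have : 1 * δ ≤ ‖s - s'‖ * dist x y := by gcongr
        linarith
      have h4 := key s' s ((hFmem s').1 hs') hd
      calc dist (G s) (G s') = |(u * (Φ.eval s - Φ.eval s')).re| := by
            rw [Real.dist_eq, hG, mul_sub, Complex.sub_re]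
        _ ≤ ‖u * (Φ.eval s - Φ.eval s')‖ := Complex.abs_re_le_norm _
        _ = ‖Φ.eval s - Φ.eval s'‖ := by rw [norm_mul, hu, one_mul]
        _ ≤ M * ‖s - s'‖ := h4
        _ ≤ M * 1 := by gcongr
        _ = M := mul_one M
    have hvol : ENNReal.ofReal (G 1 - G 0) ≤ ENNReal.ofReal (N * M) := by
      calc ENNReal.ofReal (G 1 - G 0) = MeasureTheory.volume (Set.Icc (G 0) (G 1)) := by
            rw [Real.volume_Icc]
        _ ≤ MeasureTheory.volume (⋃ c ∈ htf.toFinset, G '' {s ∈ F | (1 - s) • x + s • y ∈ ball c (δ / 2)}) :=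
            MeasureTheory.measure_mono (hsub.trans hcov)
        _ ≤ ∑ c ∈ htf.toFinset, MeasureTheory.volume (G '' {s ∈ F | (1 - s) • x + s • y ∈ ball c (δ / 2)}) :=
            MeasureTheory.measure_biUnion_finset_le _ _
        _ ≤ ∑ c ∈ htf.toFinset, ENNReal.ofReal M := Finset.sum_le_sum fun c _ => hdiam c
        _ = ENNReal.ofReal (N * M) := by
            rw [Finset.sum_const, ← hN, nsmul_eq_mul, ENNReal.ofReal_mul (Nat.cast_nonneg N),
              ENNReal.ofReal_natCast]
    have h5 : G 1 - G 0 ≤ N * M := (ENNReal.ofReal_le_ofReal_iff (by positivity)).1 hvol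
    rw [← hdiff]
    linarith [h5]

end Pool.Agent.MP_86e332_an
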