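import Pool.Agent.MP_86e332_an.Logs

set_option autoImplicit false

/-!
# Continuous logarithms on sets which are starlike with respect to complex lines
-/

open Complex Set Metric Filter Topology

namespace Pool.Agent.MP_86e332_an

theorem log_mem_slit {z : ℂ} (hz : ‖z - 1‖ < 1) : z ∈ Complex.slitPlane := by
  have : z ∈ ball (1:ℂ) 1 := by rwa [mem_ball, dist_eq_norm]
  exact Complex.ball_one_subset_slitPlane this

/-- A continuous nonvanishing function on an open set has a continuous logarithm if it has one on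
the sections by the complex lines through a base point, and these sections are preconnected. -/
theorem exists_log_of_lines {X : Type*} [NormedAddCommGroup X] [NormedSpace ℂ X] {U : Set X}
    (hU : IsOpen U) {b : X} (hb : b ∈ U) {h : X → ℂ} (hh : ContinuousOn h U)
    (h0 : ∀ v ∈ U, h v ≠ 0)
    (hpre : ∀ v ∈ U, IsPreconnected {t : ℂ | b + t • (v - b) ∈ U})
    (hlog : ∀ v ∈ U, ∃ g : ℂ → ℂ, ContinuousOn g {t : ℂ | b + t • (v - b) ∈ U} ∧
      ∀ t : ℂ, b + t • (v - b) ∈ U → exp (g t) = h (b + t • (v - b))) :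
    ∃ L : X → ℂ, ContinuousOn L U ∧ ∀ v ∈ U, exp (L v) = h v := by
  classical
  choose g hgc hge using hlog
  set L : X → ℂ := fun v => if hv : v ∈ U then g v hv 1 - g v hv 0 + log (h b) else 0 with hL
  have hb1 : ∀ v : X, b + (1:ℂ) • (v - b) = v := fun v => by rw [one_smul]; abel
  have hb0 : ∀ v : X, b + (0:ℂ) • (v - b) = b := fun v => by rw [zero_smul]; abel
  have hg1 : ∀ v (hv : v ∈ U), exp (g v hv 1) = h v := fun v hv => by
    rw [hge v hv 1 (by rw [hb1]; exact hv), hb1]
  have hg0 : ∀ v (hv : v ∈ U), exp (g v hv 0) = h b := fun v hv => by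
    rw [hge v hv 0 (by rw [hb0]; exact hb), hb0]
  have hLe : ∀ v ∈ U, exp (L v) = h v := by
    intro v hv
    simp only [hL, dif_pos hv]
    rw [Complex.exp_add, Complex.exp_sub, hg1 v hv, hg0 v hv, Complex.exp_log (h0 b hb)]
    field_simp [h0 b hb]
  refine ⟨L, ?_, hLe⟩
  intro v₀ hv₀
  apply ContinuousAt.continuousWithinAt
  set S₀ : Set ℂ := {t : ℂ | b + t • (v₀ - b) ∈ U} with hS₀
  have hS₀o : IsOpen S₀ := hU.preimage (by fun_prop : Continuous fun t : ℂ => b + t • (v₀ - b))
  have h1S : (1:ℂ) ∈ S₀ := by simp only [hS₀, Set.mem_ofPred_eq, hb1]; exact hv₀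
  have h0S : (0:ℂ) ∈ S₀ := by simp only [hS₀, Set.mem_ofPred_eq, hb0]; exact hb
  have hS₀c : IsConnected S₀ := ⟨⟨0, h0S⟩, hpre v₀ hv₀⟩
  have hpath : IsPathConnected S₀ := (hS₀o.isConnected_iff_isPathConnected).1 hS₀c
  obtain ⟨γ, hγ⟩ := hpath.joinedIn 0 h0S 1 h1S
  set Γ : Set ℂ := Set.range γ with hΓ
  have hΓS : Γ ⊆ S₀ := by
    rintro _ ⟨s, rfl⟩
    exact hγ s
  have hΓc : IsCompact Γ := isCompact_range γ.continuous
  have hΓp : IsPreconnected Γ := isPreconnected_range γ.continuous
  have h0Γ : (0:ℂ) ∈ Γ := ⟨0, γ.source⟩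
  have h1Γ : (1:ℂ) ∈ Γ := ⟨1, γ.target⟩
  have hev : ∀ᶠ v in 𝓝 v₀, ∀ t ∈ Γ, b + t • (v - b) ∈ U ∧
      ‖h (b + t • (v - b)) / h (b + t • (v₀ - b)) - 1‖ < 1 := by
    apply hΓc.eventually_forall_of_forall_eventually
    intro t ht
    have hmem : b + t • (v₀ - b) ∈ U := hΓS ht
    have hc1 : ContinuousAt (fun z : X × ℂ => b + z.2 • (z.1 - b)) (v₀, t) := by fun_prop
    have hc2 : ContinuousAt (fun z : X × ℂ => b + z.2 • (v₀ - b)) (v₀, t) := by fun_prop
    have hha : ContinuousAt h (b + t • (v₀ - b)) := hh.continuousAt (hU.mem_nhds hmem)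
    have hev1 : ∀ᶠ z : X × ℂ in 𝓝 (v₀, t), b + z.2 • (z.1 - b) ∈ U :=
      hc1.eventually (hU.mem_nhds hmem)
    have hc3 : ContinuousAt (fun z : X × ℂ => h (b + z.2 • (z.1 - b))) (v₀, t) :=
      ContinuousAt.comp (g := h) (f := fun z : X × ℂ => b + z.2 • (z.1 - b)) hha hc1
    have hc4 : ContinuousAt (fun z : X × ℂ => h (b + z.2 • (v₀ - b))) (v₀, t) :=
      ContinuousAt.comp (g := h) (f := fun z : X × ℂ => b + z.2 • (v₀ - b)) hha hc2
    have hc5 : ContinuousAt (fun z : X × ℂ =>
        ‖h (b + z.2 • (z.1 - b)) / h (b + z.2 • (v₀ - b)) - 1‖) (v₀, t) :=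
      ((hc3.div hc4 (h0 _ hmem)).sub continuousAt_const).norm
    have hev2 : ∀ᶠ z : X × ℂ in 𝓝 (v₀, t),
        ‖h (b + z.2 • (z.1 - b)) / h (b + z.2 • (v₀ - b)) - 1‖ < 1 := by
      apply hc5.tendsto.eventually_lt_const
      simp only
      rw [div_self (h0 _ hmem)]
      simp
    exact hev1.and hev2
  have hloc : ∀ᶠ v in 𝓝 v₀, L v = L v₀ + log (h v / h v₀) := by
    filter_upwards [hev] with v hv
    have hvU : v ∈ U := by
      have := (hv 1 h1Γ).1
      rwa [hb1] at this
    have key := log_unique hΓp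
      (f := fun t => g v hvU t - g v hvU 0 + log (h b))
      (g := fun t => g v₀ hv₀ t - g v₀ hv₀ 0 + log (h b) +
        log (h (b + t • (v - b)) / h (b + t • (v₀ - b))))
      ?_ ?_ ?_ h0Γ ?_ 1 h1Γ
    · simp only [hL, dif_pos hvU, dif_pos hv₀]
      rw [key]
      simp only [hb1]
    · refine ((ContinuousOn.mono (hgc v hvU) fun t ht => (hv t ht).1).sub
        continuousOn_const).add continuousOn_const
    · refine (((ContinuousOn.mono (hgc v₀ hv₀) hΓS).sub continuousOn_const).add
        continuousOn_const).add ?_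
      apply ContinuousOn.clog
      · apply ContinuousOn.div
        · exact hh.comp (by fun_prop) (fun t ht => (hv t ht).1)
        · exact hh.comp (by fun_prop) (fun t ht => hΓS ht)
        · intro t ht
          exact h0 _ (hΓS ht)
      · intro t ht
        exact log_mem_slit (hv t ht).2
    · intro t ht
      have e1 := hge v hvU t (hv t ht).1
      have e2 := hge v₀ hv₀ t (hΓS ht)
      have n1 := h0 _ (hv t ht).1
      have n2 := h0 _ (hΓS ht)
      have n3 := h0 b hb
      rw [Complex.exp_add, Complex.exp_sub, e1, hg0, Complex.exp_log n3, Complex.exp_add,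
        Complex.exp_add, Complex.exp_sub, e2, hg0, Complex.exp_log n3,
        Complex.exp_log (div_ne_zero n1 n2)]
      have n4 : h (b + t • (v₀ - b)) ≠ 0 := n2
      field_simp
    · simp only [hb0]
      rw [div_self (h0 b hb), Complex.log_one]
      ring
  have hcont : ContinuousAt (fun v => L v₀ + log (h v / h v₀)) v₀ := by
    have hha : ContinuousAt h v₀ := hh.continuousAt (hU.mem_nhds hv₀)
    apply ContinuousAt.add continuousAt_const
    apply ContinuousAt.clog
    · exact hha.div_const _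
    · rw [div_self (h0 v₀ hv₀)]
      exact Complex.one_mem_slitPlane
  exact hcont.congr (hloc.mono fun v hv => hv.symm)

end Pool.Agent.MP_86e332_an
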