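import Pool.Agent.MP_86e332_an.Basic

set_option autoImplicit false

/-!
# Regularity of the extremal function of a compact set with connected line sections

A polynomial of degree at most `d` which is bounded by `M` on a connected subset of the plane
containing `0` and `1` is bounded by `T_d (1 + 2 τ) M` on the disc of radius `τ` around `0`
(Lagrange interpolation at points whose moduli are the Chebyshev nodes). Hence a set `E` with
connected line sections which contains a ball around the origin is regular: all points near `E`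
lie in `Kset E ε`.
-/

open Complex Set Matrix Metric

namespace Pool.Agent.MP_86e332_an

variable {n : ℕ}

/-- The restriction of a polynomial function to a complex line is a polynomial. -/
theorem reg_line {d : ℕ} {p : (Fin n → ℂ) → ℂ} (hp : p ∈ Pol n d) (a b : Fin n → ℂ) :
    ∃ q : Polynomial ℂ, q.natDegree ≤ d ∧ ∀ t : ℂ, p (a + t • b) = q.eval t := by
  unfold Pol at hp
  induction hp using Submodule.span_induction with
  | mem f hf =>
    obtain ⟨β, α, rfl⟩ := hf
    refine ⟨∏ i, (Polynomial.C (β i + α i ⬝ᵥ a) + Polynomial.C (α i ⬝ᵥ b) * Polynomial.X), ?_, ?_⟩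
    · refine (Polynomial.natDegree_prod_le _ _).trans ?_
      calc ∑ i : Fin d, (Polynomial.C (β i + α i ⬝ᵥ a) +
            Polynomial.C (α i ⬝ᵥ b) * Polynomial.X).natDegree ≤ ∑ i : Fin d, 1 := by
            refine Finset.sum_le_sum fun i _ => ?_
            refine (Polynomial.natDegree_add_le _ _).trans ?_
            simp only [Polynomial.natDegree_C, zero_le, sup_of_le_right]
            exact (Polynomial.natDegree_C_mul_le _ _).trans Polynomial.natDegree_X_le
        _ = d := by simp
    · intro t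
      simp only [Polynomial.eval_prod, Polynomial.eval_add, Polynomial.eval_C,
        Polynomial.eval_mul, Polynomial.eval_X, dotProduct_add, dotProduct_smul, smul_eq_mul]
      refine Finset.prod_congr rfl fun i _ => ?_
      ring
  | zero => exact ⟨0, by simp, by simp⟩
  | add f g _ _ hf hg =>
    obtain ⟨q1, h1, h1'⟩ := hf
    obtain ⟨q2, h2, h2'⟩ := hg
    exact ⟨q1 + q2, (Polynomial.natDegree_add_le _ _).trans (max_le h1 h2), fun t => by
      rw [Pi.add_apply, h1', h2', Polynomial.eval_add]⟩
  | smul c f _ hf =>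
    obtain ⟨q1, h1, h1'⟩ := hf
    exact ⟨Polynomial.C c * q1, (Polynomial.natDegree_C_mul_le _ _).trans h1, fun t => by
      rw [Pi.smul_apply, h1', Polynomial.eval_mul, Polynomial.eval_C, smul_eq_mul]⟩

open Polynomial.Chebyshev in
/-- Lagrange interpolation of the Chebyshev polynomial at its extremal nodes. -/
theorem reg_cheb (d : ℕ) (x : ℝ) :
    ∑ j ∈ Finset.range (d + 1), ∏ i ∈ (Finset.range (d + 1)).erase j,
      ((x - node d i) / |node d j - node d i|) = (T ℝ d).eval x := by
  classical
  have hdeg : (T ℝ d).degree < (Finset.range (d + 1)).card := by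
    rw [degree_T, Int.natAbs_natCast, Finset.card_range]
    exact_mod_cast Nat.lt_succ_self d
  have hint := Lagrange.eq_interpolate (s := Finset.range (d + 1)) (v := fun i => node d i)
    (strictAntiOn_node d).injOn hdeg
  have hev : (T ℝ d).eval x = ∑ j ∈ Finset.range (d + 1),
      (T ℝ d).eval (node d j) * ∏ i ∈ (Finset.range (d + 1)).erase j,
        ((node d j - node d i)⁻¹ * (x - node d i)) := by
    conv_lhs => rw [hint]
    rw [Lagrange.interpolate_apply, Polynomial.eval_finsetSum]
    refine Finset.sum_congr rfl fun j _ => ?_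
    rw [Polynomial.eval_mul, Polynomial.eval_C, Lagrange.basis, Polynomial.eval_prod]
    congr 1
    refine Finset.prod_congr rfl fun i _ => ?_
    simp [Lagrange.basisDivisor]
  rw [hev]
  refine Finset.sum_congr rfl fun j hj => ?_
  have hj' : j ≤ d := Nat.lt_succ_iff.1 (Finset.mem_range.1 hj)
  rw [eval_T_real_node (Finset.mem_Iic.2 hj')]
  have h1 : ∏ i ∈ (Finset.range (d + 1)).erase j, |node d j - node d i| =
      (-1) ^ j * ∏ i ∈ (Finset.range (d + 1)).erase j, (node d j - node d i) := by
    rw [← Finset.abs_prod, ← abs_of_pos (zero_lt_prod_node_sub_node hj'), abs_mul]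
    simp
  rw [Finset.prod_div_distrib, h1, Finset.prod_mul_distrib, Finset.prod_inv_distrib]
  have h2 : ((-1 : ℝ) ^ j)⁻¹ = (-1) ^ j := by
    rw [← inv_pow, inv_neg_one]
  rw [div_eq_mul_inv, mul_inv, h2]
  ring

open Polynomial.Chebyshev in
/-- Interpolation in the plane at points with prescribed moduli. -/
theorem reg_interp (d : ℕ) {f : Polynomial ℂ} (hf : f.natDegree ≤ d) {M : ℝ} {z : ℕ → ℂ}
    (hz : ∀ j, ‖z j‖ = (1 - node d j) / 2) (hM : ∀ j, ‖f.eval (z j)‖ ≤ M)
    {τ : ℝ} {w : ℂ} (hw : ‖w‖ ≤ τ) :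
    ‖f.eval w‖ ≤ (T ℝ d).eval (1 + 2 * τ) * M := by
  classical
  have hτ : 0 ≤ τ := (norm_nonneg _).trans hw
  have hM0 : 0 ≤ M := (norm_nonneg _).trans (hM 0)
  have hinj : Set.InjOn z (Finset.range (d + 1) : Finset ℕ) := by
    intro i hi j hj hij
    have : node d i = node d j := by
      have h1 := hz i
      rw [hij, hz j] at h1
      linarith
    exact (strictAntiOn_node d).injOn hi hj this
  have hdeg : f.degree < (Finset.range (d + 1)).card := by
    rw [Finset.card_range]
    refine (Polynomial.degree_le_natDegree).trans_lt ?_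
    exact_mod_cast Nat.lt_succ_of_le hf
  have hint := Lagrange.eq_interpolate (s := Finset.range (d + 1)) (v := z) hinj hdeg
  have hev : f.eval w = ∑ j ∈ Finset.range (d + 1),
      f.eval (z j) * ∏ i ∈ (Finset.range (d + 1)).erase j, ((z j - z i)⁻¹ * (w - z i)) := by
    conv_lhs => rw [hint]
    rw [Lagrange.interpolate_apply, Polynomial.eval_finsetSum]
    refine Finset.sum_congr rfl fun j _ => ?_
    rw [Polynomial.eval_mul, Polynomial.eval_C, Lagrange.basis, Polynomial.eval_prod]
    congr 1
    refine Finset.prod_congr rfl fun i _ => ?_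
    simp [Lagrange.basisDivisor]
  rw [hev, ← reg_cheb d, Finset.sum_mul]
  refine (norm_sum_le _ _).trans (Finset.sum_le_sum fun j hj => ?_)
  rw [norm_mul, mul_comm, norm_prod]
  refine mul_le_mul ?_ (hM j) (norm_nonneg _) ?_
  · refine Finset.prod_le_prod (fun i _ => norm_nonneg _) fun i hi => ?_
    have hij : i ≠ j := (Finset.mem_erase.1 hi).1
    have hi' := (Finset.mem_erase.1 hi).2
    have hne : node d j ≠ node d i := fun h =>
      hij ((strictAntiOn_node d).injOn hj hi' h).symm
    have hpos : 0 < |node d j - node d i| := abs_pos.2 (sub_ne_zero.2 hne)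
    rw [norm_mul, norm_inv, mul_comm, ← div_eq_mul_inv]
    have h1 : ‖w - z i‖ ≤ (1 + 2 * τ - node d i) / 2 := by
      refine (norm_sub_le _ _).trans ?_
      rw [hz i]
      linarith
    have h2 : |node d j - node d i| / 2 ≤ ‖z j - z i‖ := by
      have := abs_norm_sub_norm_le (z j) (z i)
      rw [hz i, hz j] at this
      refine le_trans (le_of_eq ?_) this
      rw [show (1 - node d j) / 2 - (1 - node d i) / 2 = -((node d j - node d i) / 2) by ring,
        abs_neg, abs_div, abs_two]
    have h3 : (0:ℝ) ≤ (1 + 2 * τ - node d i) / 2 := (norm_nonneg _).trans h1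
    calc ‖w - z i‖ / ‖z j - z i‖ ≤ ((1 + 2 * τ - node d i) / 2) / (|node d j - node d i| / 2) :=
          div_le_div₀ h3 h1 (by positivity) h2
      _ = (1 + 2 * τ - node d i) / |node d j - node d i| := by
          field_simp
  · refine Finset.prod_nonneg fun i _ => ?_
    have : node d i ≤ 1 := node_mem_Icc.2
    exact div_nonneg (by linarith) (abs_nonneg _)

/-- A connected set containing `0` and `1` contains points of all moduli in `[0,1]`. -/
theorem reg_moduli {F : Set ℂ} (hF : IsPreconnected F) (h0 : (0 : ℂ) ∈ F) (h1 : (1 : ℂ) ∈ F)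
    {r : ℝ} (hr : r ∈ Icc (0 : ℝ) 1) : ∃ z ∈ F, ‖z‖ = r := by
  have := hF.intermediate_value h0 h1 (f := fun z : ℂ => ‖z‖) continuous_norm.continuousOn
  simp only [norm_zero, norm_one] at this
  exact this hr

/-- The one dimensional estimate. -/
theorem reg_one {F : Set ℂ} (hF : IsPreconnected F) (h0 : (0 : ℂ) ∈ F) (h1 : (1 : ℂ) ∈ F)
    {d : ℕ} {f : Polynomial ℂ} (hf : f.natDegree ≤ d) {M : ℝ} (hM : ∀ s ∈ F, ‖f.eval s‖ ≤ M)
    {ε : ℝ} (hε : 0 < ε) {w : ℂ} (hw : ‖w‖ ≤ (Real.cosh ε - 1) / 2) :
    ‖f.eval w‖ ≤ Real.exp (ε * d) * M := by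
  have hM0 : 0 ≤ M := (norm_nonneg _).trans (hM 0 h0)
  have hnode : ∀ j, (1 - Polynomial.Chebyshev.node d j) / 2 ∈ Icc (0 : ℝ) 1 := by
    intro j
    have := Polynomial.Chebyshev.node_mem_Icc (n := d) (i := j)
    constructor <;> linarith [this.1, this.2]
  choose z hzF hz using fun j => reg_moduli hF h0 h1 (hnode j)
  refine (reg_interp d hf hz (fun j => hM _ (hzF j)) hw).trans ?_
  refine mul_le_mul_of_nonneg_right ?_ hM0
  rw [show 1 + 2 * ((Real.cosh ε - 1) / 2) = Real.cosh ε by ring]
  rw [Polynomial.Chebyshev.T_real_cosh]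
  have h2 := Real.cosh_eq (((d : ℤ) : ℝ) * ε)
  rw [h2]
  have h3 : Real.exp (-(((d : ℤ) : ℝ) * ε)) ≤ Real.exp (((d : ℤ) : ℝ) * ε) := by
    apply Real.exp_le_exp.2
    have : 0 ≤ ((d : ℤ) : ℝ) * ε := by positivity
    linarith
  have h4 : ((d : ℤ) : ℝ) * ε = ε * d := by push_cast; ring
  rw [h4] at h3 ⊢
  linarith

theorem regularity {E : Set (Fin n → ℂ)} (hconn : ∀ a b, IsPreconnected (sec E a b))
    {r : ℝ} (hr : 0 < r) (hball : closedBall (0 : Fin n → ℂ) r ⊆ E) {ε : ℝ} (hε : 0 < ε) :
    ∃ ρ : ℝ, 0 < ρ ∧ ∀ x ∈ E, ∀ z, dist z x < ρ → z ∈ Kset E ε := by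
  set τ : ℝ := (Real.cosh ε - 1) / 2 with hτdef
  have hτ : 0 < τ := by
    have := (Real.one_lt_cosh (x := ε)).2 hε.ne'
    rw [hτdef]
    linarith
  refine ⟨τ * r, by positivity, fun x hx z hz d p hp M hM => ?_⟩
  obtain ⟨g, -, hg⟩ := reg_line hp z (-x)
  have key : ∀ lam : ℂ, ‖lam‖ = τ → ‖g.eval lam‖ ≤ Real.exp (ε * d) * M := by
    intro lam hlam
    have hlam0 : lam ≠ 0 := by
      intro h
      rw [h, norm_zero] at hlam
      exact hτ.ne hlam
    set h' : Fin n → ℂ := lam⁻¹ • (z - x) with hh'
    have hh'n : ‖h'‖ ≤ r := by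
      rw [hh', norm_smul, norm_inv, hlam]
      rw [dist_eq_norm] at hz
      rw [inv_mul_le_iff₀ hτ]
      exact hz.le
    obtain ⟨f, hf, hfe⟩ := reg_line hp x (-x + h')
    have h0F : (0 : ℂ) ∈ sec E x (-x + h') := by
      change x + (0 : ℂ) • (-x + h') ∈ E
      rwa [zero_smul, add_zero]
    have h1F : (1 : ℂ) ∈ sec E x (-x + h') := by
      change x + (1 : ℂ) • (-x + h') ∈ E
      rw [one_smul, add_neg_cancel_left]
      exact hball (mem_closedBall_zero_iff.2 hh'n)
    have h2 := reg_one (hconn x (-x + h')) h0F h1F hf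
      (fun s hs => by rw [← hfe]; exact hM _ hs) hε (w := lam) hlam.le
    rw [← hfe] at h2
    rw [← hg]
    have h3 : x + lam • (-x + h') = z + lam • (-x) := by
      rw [hh', smul_add, smul_smul, mul_inv_cancel₀ hlam0, one_smul]
      abel
    rwa [h3] at h2
  have h4 : ‖g.eval 0‖ ≤ Real.exp (ε * d) * M := by
    have hfr : frontier (ball (0 : ℂ) τ) = sphere (0 : ℂ) τ := frontier_ball _ hτ.ne'
    refine Complex.norm_le_of_forall_mem_frontier_norm_le (U := ball (0 : ℂ) τ)
      (f := fun t => g.eval t) isBounded_ball ?_ ?_ (subset_closure (mem_ball_self hτ))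
    · exact g.differentiable.diffContOnCl
    · intro t ht
      rw [hfr] at ht
      exact key t (mem_sphere_zero_iff_norm.1 ht)
  rw [← hg 0, zero_smul, add_zero] at h4
  exact h4

end Pool.Agent.MP_86e332_an
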