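import Pool.Agent.MP_86e332_an.Sublevel
import Pool.Agent.MP_86e332_an.Regular
import Pool.Agent.MP_86e332_an.LineLogs

set_option autoImplicit false

/-!
# Logarithms on the sections of the sublevel sets of the extremal function
-/

open Complex Set Matrix Metric Filter Topology

namespace Pool.Agent.MP_86e332_an

variable {n : ℕ}

/-- `s - σ` has a continuous logarithm on `S`. -/
def HasLog (S : Set ℂ) (σ : ℂ) : Prop :=
  ∃ g : ℂ → ℂ, ContinuousOn g S ∧ ∀ s ∈ S, exp (g s) = s - σ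

theorem HasLog.move {S : Set ℂ} {σ τ : ℂ} (h : ∀ s ∈ S, ‖σ - τ‖ < ‖s - σ‖) (hσ : HasLog S σ) :
    HasLog S τ := by
  obtain ⟨g, hg, hge⟩ := hσ
  have hne : ∀ s ∈ S, s - σ ≠ 0 := fun s hs => by
    have := (norm_nonneg _).trans_lt (h s hs)
    exact norm_pos_iff.1 this
  have hslit : ∀ s ∈ S, 1 + (σ - τ) / (s - σ) ∈ Complex.slitPlane := fun s hs => by
    apply log_mem_slit
    rw [add_sub_cancel_left, norm_div, div_lt_one ((norm_nonneg _).trans_lt (h s hs))]
    exact h s hs
  refine ⟨fun s => g s + Complex.log (1 + (σ - τ) / (s - σ)), ?_, ?_⟩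
  · refine hg.add (ContinuousOn.clog ?_ hslit)
    refine continuousOn_const.add (continuousOn_const.div (by fun_prop) hne)
  · intro s hs
    have h1 := Complex.slitPlane_ne_zero (hslit s hs)
    rw [Complex.exp_add, hge s hs, Complex.exp_log h1]
    have h2 := hne s hs
    field_simp
    ring

theorem hasLog_of_large {S : Set ℂ} {R : ℝ} (hR : ∀ s ∈ S, ‖s‖ ≤ R) {σ : ℂ} (hσ : R < ‖σ‖)
    (hσ0 : σ ≠ 0) : HasLog S σ := by
  have hpos : 0 < ‖σ‖ := norm_pos_iff.2 hσ0
  have hslit : ∀ s ∈ S, 1 - s / σ ∈ Complex.slitPlane := fun s hs => by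
    apply log_mem_slit
    have : 1 - s / σ - 1 = - (s / σ) := by ring
    rw [this, norm_neg, norm_div, div_lt_one hpos]
    exact (hR s hs).trans_lt hσ
  refine ⟨fun s => Complex.log (-σ) + Complex.log (1 - s / σ), ?_, ?_⟩
  · refine continuousOn_const.add (ContinuousOn.clog ?_ hslit)
    fun_prop
  · intro s hs
    have h1 := Complex.slitPlane_ne_zero (hslit s hs)
    rw [Complex.exp_add, Complex.exp_log (neg_ne_zero.2 hσ0), Complex.exp_log h1]
    field_simp
    ring

/-- Polynomially convex compact subsets of the plane have the logarithm property. -/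
theorem logProp_of_polyConvex {S : Set ℂ} (hS : IsCompact S)
    (hpc : ∀ σ ∉ S, ∃ (q : Polynomial ℂ) (m : ℝ), (∀ s ∈ S, ‖q.eval s‖ ≤ m) ∧ m < ‖q.eval σ‖) :
    LogProp S := by
  intro σ hσ
  by_contra hcon
  change ¬ HasLog S σ at hcon
  set B : Set ℂ := {τ | τ ∉ S ∧ ¬ HasLog S τ} with hB
  obtain ⟨R, hR⟩ := isBounded_iff_forall_norm_le.1 hS.isBounded
  have hBb : Bornology.IsBounded B := by
    rw [isBounded_iff_forall_norm_le]
    refine ⟨max R 0, fun τ hτ => ?_⟩
    by_contra hlt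
    push Not at hlt
    have h1 := (le_max_left R 0).trans_lt hlt
    have h2 := (le_max_right R 0).trans_lt hlt
    exact hτ.2 (hasLog_of_large hR h1 (norm_pos_iff.1 h2))
  have hkey : ∀ τ ∉ S, ∃ δ > 0, (∀ z, dist z τ < δ → z ∉ S) ∧
      ∀ z, dist z τ < δ → (HasLog S z ↔ HasLog S τ) := by
    intro τ hτ
    obtain ⟨ε, hε, hball⟩ := Metric.isOpen_iff.1 hS.isClosed.isOpen_compl τ hτ
    have hfar : ∀ s ∈ S, ε ≤ dist s τ := fun s hs => by
      by_contra hlt
      push Not at hlt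
      exact hball hlt hs
    refine ⟨ε / 3, by positivity, fun z hz hzS => ?_, fun z hz => ⟨?_, ?_⟩⟩
    · have := hfar z hzS
      linarith
    · refine HasLog.move fun s hs => ?_
      have h1 := hfar s hs
      have h2 := dist_triangle s z τ
      rw [← dist_eq_norm, ← dist_eq_norm]
      linarith
    · refine HasLog.move fun s hs => ?_
      have h1 := hfar s hs
      rw [← dist_eq_norm, ← dist_eq_norm, dist_comm τ z]
      linarith
  have hBo : IsOpen B := by
    rw [Metric.isOpen_iff]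
    rintro τ ⟨hτ, hτl⟩
    obtain ⟨δ, hδ, h1, h2⟩ := hkey τ hτ
    exact ⟨δ, hδ, fun z hz => ⟨h1 z hz, fun h => hτl ((h2 z hz).1 h)⟩⟩
  have hfr : frontier B ⊆ S := by
    intro z hz
    rw [hBo.frontier_eq] at hz
    by_contra hzS
    obtain ⟨δ, hδ, h1, h2⟩ := hkey z hzS
    obtain ⟨τ, hτ, hτz⟩ := Metric.mem_closure_iff.1 hz.1 δ hδ
    have h3 : ¬ HasLog S z := fun h => hτ.2 ((h2 τ (by rwa [dist_comm])).2 h)
    exact hz.2 ⟨hzS, h3⟩
  obtain ⟨q, m, hm, hqσ⟩ := hpc σ hσ
  have hle := Complex.norm_le_of_forall_mem_frontier_norm_le hBb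
    (f := fun t => q.eval t) (Differentiable.diffContOnCl q.differentiable)
    (fun z hz => hm z (hfr hz)) (subset_closure (show σ ∈ B from ⟨hσ, hcon⟩))
  exact absurd hqσ (not_lt.2 hle)

theorem Kset_sec_logProp {E : Set (Fin n → ℂ)} (hE : IsCompact E) {c : ℝ} (_hc : 0 ≤ c)
    (a b : Fin n → ℂ) : LogProp (sec (Kset E c) a b) := by
  by_cases hb : b = 0
  · intro σ hσ
    have hempty : ∀ s, s ∉ sec (Kset E c) a b := fun s hs => by
      apply hσ
      simp only [sec, hb, smul_zero, add_zero, Set.mem_setOf_eq] at hs ⊢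
      exact hs
    exact ⟨fun _ => 0, continuousOn_const, fun s hs => absurd hs (hempty s)⟩
  · apply logProp_of_polyConvex (sec_isCompact (isCompact_Kset hE c) a hb)
    intro σ hσ
    simp only [sec, Kset, Set.mem_setOf_eq, not_forall, not_le] at hσ
    obtain ⟨d, p, hp, M, hM, hlt⟩ := hσ
    obtain ⟨q, -, hq⟩ := reg_line hp a b
    refine ⟨q, Real.exp (c * d) * M, fun s hs => ?_, ?_⟩
    · rw [← hq]
      exact hs d p hp M hM
    · rw [← hq]
      exact hlt

end Pool.Agent.MP_86e332_an
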