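import Pool.Agent.MP_86e332_an.Basic

set_option autoImplicit false

/-!
# Continuous logarithms in the plane
-/

open Complex Set Metric Filter Topology

namespace Pool.Agent.MP_86e332_an

/-- Two continuous functions with the same exponential on a preconnected set which agree at one
point agree. -/
theorem log_unique {X : Type*} [TopologicalSpace X] {S : Set X} (hS : IsPreconnected S)
    {f g : X → ℂ} (hf : ContinuousOn f S) (hg : ContinuousOn g S)
    (h : ∀ x ∈ S, exp (f x) = exp (g x)) {a : X} (ha : a ∈ S) (hfg : f a = g a) :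
    ∀ x ∈ S, f x = g x := by
  intro x hx
  set ψ : X → ℝ := fun y => (f y - g y).im / (2 * Real.pi) with hψ
  have hψc : ContinuousOn ψ S := by
    apply ContinuousOn.div_const
    exact Complex.continuous_im.comp_continuousOn (hf.sub hg)
  have hpi : (2 * Real.pi) ≠ 0 := by positivity
  have hint : ∀ y ∈ S, ∃ m : ℤ, ψ y = m ∧ f y = g y + m * (2 * Real.pi * I) := by
    intro y hy
    obtain ⟨m, hm⟩ := Complex.exp_eq_exp_iff_exists_int.1 (h y hy)
    refine ⟨m, ?_, hm⟩
    have : f y - g y = ((m * (2 * Real.pi) : ℝ) : ℂ) * I := by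
      rw [hm]
      push_cast
      ring
    simp only [hψ, this]
    rw [Complex.im_ofReal_mul]
    simp only [Complex.I_im, mul_one]
    field_simp
  have hoc : (ψ '' S).OrdConnected := (hS.image ψ hψc).ordConnected
  have ha0 : ψ a = 0 := by simp [hψ, hfg]
  obtain ⟨m, hm, hfx⟩ := hint x hx
  have hm0 : m = 0 := by
    by_contra hne
    have hcase : (1:ℝ)/2 ∈ Set.uIcc (ψ a) (ψ x) ∨ (-1:ℝ)/2 ∈ Set.uIcc (ψ a) (ψ x) := by
      rw [ha0, hm]
      rcases lt_or_gt_of_ne hne with hlt | hgt
      · right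
        have : (m:ℝ) ≤ -1 := by exact_mod_cast Int.le_sub_one_of_lt hlt
        rw [Set.mem_uIcc]
        right
        constructor <;> linarith
      · left
        have : (1:ℝ) ≤ m := by exact_mod_cast hgt
        rw [Set.mem_uIcc]
        left
        constructor <;> linarith
    have hsub := hoc.uIcc_subset (Set.mem_image_of_mem ψ ha) (Set.mem_image_of_mem ψ hx)
    rcases hcase with hc | hc
    · obtain ⟨y, hy, hyv⟩ := hsub hc
      obtain ⟨k, hk, -⟩ := hint y hy
      rw [hyv] at hk
      have : (2:ℝ) * k = 1 := by linarith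
      have : (2:ℤ) * k = 1 := by exact_mod_cast this
      omega
    · obtain ⟨y, hy, hyv⟩ := hsub hc
      obtain ⟨k, hk, -⟩ := hint y hy
      rw [hyv] at hk
      have : (2:ℝ) * k = -1 := by linarith
      have : (2:ℤ) * k = -1 := by exact_mod_cast this
      omega
  rw [hfx, hm0]
  simp

/-- Continuous nonvanishing functions on the plane have a continuous logarithm. -/
theorem exists_log_plane {H : ℂ → ℂ} (hH : Continuous H) (h0 : ∀ t, H t ≠ 0) :
    ∃ g : ℂ → ℂ, Continuous g ∧ ∀ t, exp (g t) = H t := by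
  have hsc : IsSimplyConnected (Set.univ : Set ℂ) :=
    (Homeomorph.Set.univ ℂ).toHomotopyEquiv.simplyConnectedSpace_iff.2 inferInstance
  obtain ⟨f, hf, hfe⟩ := Complex.exists_continuousOn_eqOn_exp_comp hsc isOpen_univ
    hH.continuousOn (by rintro ⟨t, -, ht⟩; exact h0 t ht)
  exact ⟨f, continuousOn_univ.1 hf, fun t => hfe (Set.mem_univ t)⟩

/-- The identity of a circle has no continuous nonvanishing extension to the plane. -/
theorem no_ext : ¬ ∃ H : ℂ → ℂ, Continuous H ∧ (∀ t, H t ≠ 0) ∧
    ∃ R : ℝ, 0 < R ∧ ∀ t : ℂ, ‖t‖ = R → H t = t := by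
  rintro ⟨H, hH, h0, R, hR, hRt⟩
  obtain ⟨g, hg, hge⟩ := exists_log_plane hH h0
  set c : ℝ → ℂ := fun θ => R * exp (θ * I) with hc
  have hcc : Continuous c := by fun_prop
  have hcn : ∀ θ, ‖c θ‖ = R := by
    intro θ
    simp only [hc, norm_mul, Complex.norm_exp_ofReal_mul_I, mul_one, Complex.norm_real,
      Real.norm_eq_abs, abs_of_pos hR]
  set φ : ℝ → ℂ := fun θ => g (c θ) - θ * I with hφ
  have hφc : Continuous φ := by fun_prop
  have hexp : ∀ θ, exp (φ θ) = R := by
    intro θ
    simp only [hφ]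
    rw [Complex.exp_sub, hge, hRt _ (hcn θ)]
    simp only [hc]
    field_simp
  have key := log_unique (isPreconnected_univ (α := ℝ)) (f := φ) (g := fun _ => φ 0)
    hφc.continuousOn continuousOn_const (fun θ _ => by rw [hexp, hexp]) (Set.mem_univ 0) rfl
    (2 * Real.pi) (Set.mem_univ _)
  have h1 : c (2 * Real.pi) = c 0 := by
    simp only [hc]
    push_cast
    rw [Complex.exp_two_pi_mul_I]
    simp
  simp only [hφ] at key
  rw [h1] at key
  have h2 : (((2 * Real.pi : ℝ) : ℂ) * I) = ((0:ℝ):ℂ) * I := by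
    linear_combination -key
  have h3 := congrArg Complex.im h2
  simp at h3

/-- If `t / (t - 1)` has a continuous logarithm off the compact set `K ∋ 0, 1`, then `0` and `1`
lie in the same component of `K`. -/
theorem same_component {K : Set ℂ} (hK : IsCompact K) (h0 : (0:ℂ) ∈ K) (h1 : (1:ℂ) ∈ K)
    {Θ : ℂ → ℂ} (hΘ : ContinuousOn Θ Kᶜ) (hexp : ∀ t ∉ K, exp (Θ t) * (t - 1) = t) :
    ∃ C ⊆ K, IsPreconnected C ∧ (0:ℂ) ∈ C ∧ (1:ℂ) ∈ C := by
  classical
  have : CompactSpace K := isCompact_iff_compactSpace.1 hK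
  set x0 : K := ⟨0, h0⟩
  set x1 : K := ⟨1, h1⟩
  by_cases hx : x1 ∈ connectedComponent x0
  · refine ⟨Subtype.val '' connectedComponent x0, ?_, ?_, ?_, ?_⟩
    · rintro _ ⟨y, -, rfl⟩
      exact y.2
    · exact isPreconnected_connectedComponent.image _ continuous_subtype_val.continuousOn
    · exact ⟨x0, mem_connectedComponent, rfl⟩
    · exact ⟨x1, hx, rfl⟩
  exfalso
  rw [connectedComponent_eq_iInter_isClopen] at hx
  simp only [Set.mem_iInter, not_forall, Subtype.exists, exists_prop] at hx
  obtain ⟨Z, ⟨hZ, hx0⟩, hx1⟩ := hx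
  set A : Set ℂ := Subtype.val '' Z with hA
  set B : Set ℂ := Subtype.val '' Zᶜ with hB
  have hAc : IsCompact A := hZ.isClosed.isCompact.image continuous_subtype_val
  have hBc : IsCompact B := hZ.compl.isClosed.isCompact.image continuous_subtype_val
  have hAB : Disjoint A B := by
    rw [Set.disjoint_left]
    rintro _ ⟨y, hy, rfl⟩ ⟨y', hy', hyy⟩
    exact hy' (by rw [Subtype.ext hyy]; exact hy)
  have hKAB : ∀ t ∈ K, t ∈ A ∨ t ∈ B := by
    intro t ht
    by_cases hz : (⟨t, ht⟩ : K) ∈ Z
    · exact Or.inl ⟨_, hz, rfl⟩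
    · exact Or.inr ⟨_, hz, rfl⟩
  have h0A : (0:ℂ) ∈ A := ⟨x0, hx0, rfl⟩
  have h1B : (1:ℂ) ∈ B := ⟨x1, hx1, rfl⟩
  obtain ⟨R, hRpos, hR⟩ : ∃ R : ℝ, 0 < R ∧ K ⊆ ball 0 R := by
    obtain ⟨R, hR⟩ := hK.isBounded.subset_ball (0:ℂ)
    refine ⟨max R 1, by positivity, hR.trans (ball_subset_ball (le_max_left _ _))⟩
  -- the cutoff function
  have hclosed : IsClosed (B ∪ (ball (0:ℂ) R)ᶜ) :=
    hBc.isClosed.union isOpen_ball.isClosed_compl
  have hdisj : Disjoint (B ∪ (ball (0:ℂ) R)ᶜ) A := by
    rw [Set.disjoint_union_left]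
    refine ⟨hAB.symm, ?_⟩
    rw [Set.disjoint_left]
    rintro t ht ⟨y, -, rfl⟩
    exact ht (hR y.2)
  obtain ⟨χ, hχ0, hχ1, -⟩ := exists_continuous_zero_one_of_isClosed hclosed hAc.isClosed hdisj
  set χ' : ℂ → ℝ := fun t => max 0 (min 1 (2 * χ t - 1/2)) with hχ'
  have hχ'c : Continuous χ' := by fun_prop
  set H : ℂ → ℂ := fun t => if t ∈ K then (if 1/2 < χ t then t - 1 else t)
    else t * exp (-(χ' t : ℂ) * Θ t) with hH
  have hbig : ∀ t, 3/4 < χ t → H t = t - 1 := by
    intro t ht
    simp only [hH]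
    split_ifs with h1 h2
    · rfl
    · exact absurd (by linarith) h2
    · have hc : χ' t = 1 := by
        simp only [hχ']
        rw [min_eq_left (by linarith), max_eq_right (by norm_num)]
      rw [hc]
      have := hexp t h1
      rw [show (-((1:ℝ):ℂ) * Θ t) = - Θ t by push_cast; ring, Complex.exp_neg]
      have hne := Complex.exp_ne_zero (Θ t)
      field_simp
      linear_combination -this
  have hsmall : ∀ t, χ t < 1/4 → H t = t := by
    intro t ht
    simp only [hH]
    split_ifs with h1 h2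
    · exact absurd h2 (by linarith)
    · rfl
    · have hc : χ' t = 0 := by
        simp only [hχ']
        rw [max_eq_left]
        exact (min_le_right _ _).trans (by linarith)
      rw [hc]
      simp
  have hcompl : ∀ t, t ∉ K → H t = t * exp (-(χ' t : ℂ) * Θ t) := by
    intro t ht
    simp only [hH, if_neg ht]
  apply no_ext
  refine ⟨H, ?_, ?_, R, hRpos, ?_⟩
  · rw [continuous_iff_continuousAt]
    intro t
    by_cases htK : t ∈ K
    · rcases hKAB t htK with htA | htB
      · have hev : ∀ᶠ u in 𝓝 t, 3/4 < χ u := by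
          apply (χ.continuous.tendsto t).eventually_const_lt
          have h3 : χ t = 1 := hχ1 htA
          rw [h3]
          norm_num
        have : H =ᶠ[𝓝 t] fun u => u - 1 := hev.mono fun u hu => hbig u hu
        exact (ContinuousAt.congr (by fun_prop) this.symm)
      · have hev : ∀ᶠ u in 𝓝 t, χ u < 1/4 := by
          apply (χ.continuous.tendsto t).eventually_lt_const
          have h3 : χ t = 0 := hχ0 (Or.inl htB)
          rw [h3]
          norm_num
        have : H =ᶠ[𝓝 t] fun u => u := hev.mono fun u hu => hsmall u hu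
        exact (ContinuousAt.congr continuousAt_id this.symm)
    · have hopen : Kᶜ ∈ 𝓝 t := hK.isClosed.isOpen_compl.mem_nhds htK
      have : H =ᶠ[𝓝 t] fun u => u * exp (-(χ' u : ℂ) * Θ u) := by
        filter_upwards [hopen] with u hu using hcompl u hu
      refine ContinuousAt.congr ?_ this.symm
      have h3 : ContinuousAt Θ t := hΘ.continuousAt hopen
      have h4 : ContinuousAt (fun u => ((χ' u : ℝ) : ℂ)) t :=
        (Complex.continuous_ofReal.comp hχ'c).continuousAt
      exact continuousAt_id.mul ((h4.neg.mul h3).cexp)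
  · intro t
    by_cases htK : t ∈ K
    · rcases hKAB t htK with htA | htB
      · have h3 : χ t = 1 := hχ1 htA
        rw [hbig t (by rw [h3]; norm_num)]
        intro h
        have : t = 1 := by linear_combination h
        rw [this] at htA
        exact (Set.disjoint_left.1 hAB) htA h1B
      · have h3 : χ t = 0 := hχ0 (Or.inl htB)
        rw [hsmall t (by rw [h3]; norm_num)]
        intro h
        rw [h] at htB
        exact (Set.disjoint_left.1 hAB) h0A htB
    · rw [hcompl t htK]
      apply mul_ne_zero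
      · rintro rfl
        exact htK h0
      · exact Complex.exp_ne_zero _
  · intro t ht
    apply hsmall
    have h3 : χ t = 0 := hχ0 (Or.inr (by simp [ht]))
    rw [h3]
    norm_num

end Pool.Agent.MP_86e332_an
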