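import Pool.Agent.MP_86e332_an.Basic
import Pool.Agent.MP_86e332_an.Logs
import Pool.Agent.MP_86e332_an.LineLogs

set_option autoImplicit false

/-!
# Linear convexity
-/

open Complex Set Matrix Metric Topology Filter

namespace Pool.Agent.MP_86e332_an

theorem linConv_univ : IsSimplyConnected (univ : Set ℂ) :=
  (Homeomorph.Set.univ ℂ).toHomotopyEquiv.simplyConnectedSpace

section Family

variable {Y : Type*} [NormedAddCommGroup Y] [NormedSpace ℂ Y]

/-- The difference of two logarithms on a preconnected set is constant. -/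
theorem linConv_log_diff {X : Type*} [TopologicalSpace X] {S : Set X} (hS : IsPreconnected S)
    {f g : X → ℂ} (hf : ContinuousOn f S) (hg : ContinuousOn g S)
    (h : ∀ x ∈ S, exp (f x) = exp (g x)) {a b : X} (ha : a ∈ S) (hb : b ∈ S) :
    f b - f a = g b - g a := by
  have hfa : exp (f a - g a) = 1 := by
    rw [exp_sub, h a ha, div_self (exp_ne_zero _)]
  have := log_unique hS hf (g := fun x => g x + (f a - g a)) (hg.add continuousOn_const)
    (fun x hx => by rw [exp_add, hfa, mul_one, h x hx]) ha (by ring) b hb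
  rw [this]; ring

/-- The local formula for the difference of two values of fibrewise logarithms. -/
theorem linConv_diff_local {F : Set (ℂ × Y)} (hF : IsOpen F) {c : Y → ℂ} (hc : Continuous c)
    (hc0 : ∀ p y, (p, y) ∈ F → c y ≠ 0)
    (hpre : ∀ p, IsPreconnected {y | (p, y) ∈ F})
    {l : ℂ → Y → ℂ} (hl : ∀ p, ContinuousOn (l p) {y | (p, y) ∈ F})
    (hle : ∀ p y, (p, y) ∈ F → exp (l p y) = c y) {p₀ : ℂ} {v w : Y}
    (hv : (p₀, v) ∈ F) (hw : (p₀, w) ∈ F) :
    ∀ᶠ q : ℂ × Y in 𝓝 (p₀, v), l q.1 q.2 - l q.1 w =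
      log (c q.2 / c v) + (l p₀ v - l p₀ w) := by
  have hFo : ∀ p, IsOpen {y | (p, y) ∈ F} := fun p => hF.preimage (by fun_prop)
  -- a path
  have hpath : IsPathConnected {y | (p₀, y) ∈ F} :=
    ((hFo p₀).isConnected_iff_isPathConnected).1 ⟨⟨v, hv⟩, hpre p₀⟩
  obtain ⟨γ, hγ⟩ := hpath.joinedIn w hw v hv
  have hcomp : IsCompact (range γ) := isCompact_range γ.continuous
  have hprod : ∀ᶠ p in 𝓝 p₀, ∀ y ∈ range γ, (p, y) ∈ F := by
    apply hcomp.eventually_forall_of_forall_eventually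
    rintro y ⟨t, rfl⟩
    exact hF.mem_nhds (hγ t)
  -- a ball around `v`
  have hball : ∀ᶠ q : ℂ × Y in 𝓝 (p₀, v), q ∈ F := hF.mem_nhds hv
  have hsl : ∀ᶠ y in 𝓝 v, c y / c v ∈ slitPlane := by
    have hcon : ContinuousAt (fun y => c y / c v) v := (hc.div_const _).continuousAt
    apply hcon.preimage_mem_nhds
    rw [div_self (hc0 _ _ hv)]
    exact isOpen_slitPlane.mem_nhds one_mem_slitPlane
  rw [nhds_prod_eq] at hball
  obtain ⟨P, hP, Q, hQ, hPQ⟩ := Filter.eventually_prod_iff.1 hball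
  obtain ⟨ε, hε, hεQ⟩ := Metric.eventually_nhds_iff_ball.1 (hQ.and hsl)
  rw [nhds_prod_eq]
  apply Filter.eventually_prod_iff.2
  refine ⟨_, hP.and hprod, _, Metric.ball_mem_nhds v hε, ?_⟩
  rintro p ⟨hp, hpγ⟩ y hy
  -- along the path
  have h1 : l p v - l p w = l p₀ v - l p₀ w := by
    have hpr : IsPreconnected (univ : Set unitInterval) := isPreconnected_univ
    have := linConv_log_diff hpr (f := fun t => l p (γ t)) (g := fun t => l p₀ (γ t))
      (by
        rw [continuousOn_univ]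
        exact (hl p).comp_continuous γ.continuous (fun t => hpγ _ ⟨t, rfl⟩))
      (by
        rw [continuousOn_univ]
        exact (hl p₀).comp_continuous γ.continuous (fun t => hγ t))
      (fun t _ => by rw [hle p _ (hpγ _ ⟨t, rfl⟩), hle p₀ _ (hγ t)])
      (mem_univ 0) (mem_univ 1)
    simpa using this
  -- on the ball
  have hcv : c v ≠ 0 := hc0 _ _ hv
  have h2 : l p y - l p v = log (c y / c v) := by
    have hpr : IsPreconnected (ball v ε) := (convex_ball v ε).isPreconnected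
    have := linConv_log_diff hpr (f := l p) (g := fun y => log (c y / c v) + l p v)
      ((hl p).mono fun z hz => hPQ hp (hεQ z hz).1)
      (by
        intro z hz
        exact ((((hc.div_const _).continuousAt).clog (hεQ z hz).2).continuousWithinAt).add
          continuousWithinAt_const)
      (fun z hz => by
        have hz' := hPQ hp (hεQ z hz).1
        have hv' := hPQ hp (hεQ v (mem_ball_self hε)).1
        rw [hle p z hz', exp_add, hle p v hv',
          exp_log (div_ne_zero (hc0 _ _ hz') hcv), div_mul_cancel₀ _ hcv])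
      (mem_ball_self hε) hy
    simpa [div_self hcv] using this
  show l p y - l p w = log (c y / c v) + (l p₀ v - l p₀ w)
  rw [← h1, ← h2]; ring

theorem linConv_family_log {F : Set (ℂ × Y)} (hF : IsOpen F) {c : Y → ℂ} (hc : Continuous c)
    (hc0 : ∀ p y, (p, y) ∈ F → c y ≠ 0) (hne : ∀ p : ℂ, ∃ y, (p, y) ∈ F)
    (hpre : ∀ p, IsPreconnected {y | (p, y) ∈ F})
    (hlog : ∀ p, ∃ l : Y → ℂ, ContinuousOn l {y | (p, y) ∈ F} ∧
      ∀ y, (p, y) ∈ F → exp (l y) = c y) :
    ∃ L : ℂ × Y → ℂ, ContinuousOn L F ∧ ∀ q ∈ F, exp (L q) = c q.2 := by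
  choose l hl hle using hlog
  choose w hw using hne
  have hNo : ∀ i : ℂ, IsOpen {p : ℂ | (p, w i) ∈ F} := fun i => hF.preimage (by fun_prop)
  obtain ⟨χ, hχ⟩ := PartitionOfUnity.exists_isSubordinate (isClosed_univ (X := ℂ))
    (fun i => {p : ℂ | (p, w i) ∈ F}) hNo (fun p _ => mem_iUnion.2 ⟨p, hw p⟩)
  let Γ : ℂ × Y → ℂ := fun q => ∑ᶠ i, (χ i q.1 : ℂ) * (l q.1 q.2 - l q.1 (w i))
  -- continuity
  have hΓ : ∀ q ∈ F, ContinuousAt Γ q := by
    rintro ⟨p₀, v⟩ hq
    obtain ⟨I, hI⟩ := χ.exists_finset_nhds p₀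
    have hev : Γ =ᶠ[𝓝 (p₀, v)] fun q => ∑ i ∈ I, (χ i q.1 : ℂ) * (l q.1 q.2 - l q.1 (w i)) := by
      have : ∀ᶠ q : ℂ × Y in 𝓝 (p₀, v), Function.support (fun i => χ i q.1) ⊆ I :=
        (continuous_fst.tendsto (p₀, v)).eventually (hI.mono fun _ h => h.2)
      filter_upwards [this] with q hq'
      apply finsum_eq_sum_of_support_subset
      intro i hi
      apply hq'
      intro h0
      apply hi
      show (χ i q.1 : ℂ) * _ = 0
      rw [show χ i q.1 = 0 from h0]; simp
    refine ContinuousAt.congr ?_ hev.symm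
    apply tendsto_finsetSum
    intro i _
    by_cases hi : p₀ ∈ tsupport (χ i)
    · have hwi : (p₀, w i) ∈ F := hχ i hi
      have hloc := linConv_diff_local hF hc hc0 hpre hl hle hq hwi
      have hcv : c v ≠ 0 := hc0 _ _ hq
      have h1 : ContinuousAt (fun q : ℂ × Y => l q.1 q.2 - l q.1 (w i)) (p₀, v) := by
        refine ContinuousAt.congr ?_ (hloc.mono fun q h => h.symm)
        refine ContinuousAt.add ?_ continuousAt_const
        refine ContinuousAt.clog ?_ ?_
        · exact ((hc.comp continuous_snd).div_const _).continuousAt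
        · show c v / c v ∈ slitPlane
          rw [div_self hcv]; exact one_mem_slitPlane
      have h2 : ContinuousAt (fun q : ℂ × Y => (χ i q.1 : ℂ)) (p₀, v) :=
        (continuous_ofReal.comp ((χ i).continuous.comp continuous_fst)).continuousAt
      exact h2.mul h1
    · have h0 : ∀ᶠ q : ℂ × Y in 𝓝 (p₀, v), χ i q.1 = 0 := by
        have h1 : ∀ᶠ p in 𝓝 p₀, χ i p = 0 := notMem_tsupport_iff_eventuallyEq.1 hi
        exact (continuous_fst.tendsto (p₀, v)).eventually h1
      have : (fun q : ℂ × Y => (χ i q.1 : ℂ) * (l q.1 q.2 - l q.1 (w i))) =ᶠ[𝓝 (p₀, v)]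
          fun _ => 0 := by
        filter_upwards [h0] with q h
        rw [h]; simp
      exact (continuousAt_const (y := (0 : ℂ))).congr this.symm
  -- differences
  have hdiff : ∀ p v v', Γ (p, v) - Γ (p, v') = l p v - l p v' := by
    intro p v v'
    have hfin : ∀ u : Y, (Function.support fun i => (χ i p : ℂ) * (l p u - l p (w i))).Finite := by
      intro u
      refine (χ.locallyFinite.point_finite p).subset ?_
      intro i hi h0
      apply hi
      show (χ i p : ℂ) * _ = 0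
      rw [show χ i p = 0 from h0]; simp
    show (∑ᶠ i, (χ i p : ℂ) * (l p v - l p (w i))) - (∑ᶠ i, (χ i p : ℂ) * (l p v' - l p (w i))) = _
    rw [← finsum_sub_distrib (hfin v) (hfin v')]
    have h1 : ∀ i, (χ i p : ℂ) * (l p v - l p (w i)) - (χ i p : ℂ) * (l p v' - l p (w i)) =
        (χ i p : ℂ) * (l p v - l p v') := fun i => by ring
    simp_rw [h1]
    have hfin1 : (Function.support fun i => χ i p).Finite := χ.locallyFinite.point_finite p
    rw [← finsum_mul]
    have h4 : ∑ᶠ i, (χ i p : ℂ) = 1 := by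
      have h2 := χ.sum_eq_one (mem_univ p)
      have h3 := AddMonoidHom.map_finsum (ofRealHom : ℝ →+* ℂ).toAddMonoidHom hfin1
      simp only [RingHom.toAddMonoidHom_eq_coe, AddMonoidHom.coe_coe, ofRealHom_eq_coe] at h3
      rw [← h3, h2]; simp
    rw [h4, one_mul]
  -- the section
  let S : ℂ → ℂ := fun p => c (w p) * exp (-Γ (p, w p))
  have hS : ∀ p v, (p, v) ∈ F → S p = c v * exp (-Γ (p, v)) := by
    intro p v hv
    have h1 := hdiff p v (w p)
    have h2 : exp (Γ (p, v)) = exp (Γ (p, w p)) * (c v / c (w p)) := by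
      rw [← hle p v hv, ← hle p (w p) (hw p), ← exp_sub, ← h1, ← exp_add]
      congr 1; ring
    have hcw := hc0 _ _ (hw p)
    have hcv := hc0 _ _ hv
    show c (w p) * exp (-Γ (p, w p)) = c v * exp (-Γ (p, v))
    rw [Complex.exp_neg, Complex.exp_neg, h2]
    have h5 := exp_ne_zero (Γ (p, w p))
    field_simp
  have hSc : Continuous S := by
    rw [continuous_iff_continuousAt]
    intro p₀
    have hev : S =ᶠ[𝓝 p₀] fun p => c (w p₀) * exp (-Γ (p, w p₀)) := by
      filter_upwards [(hNo p₀).mem_nhds (hw p₀)] with p hp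
      exact hS p _ hp
    refine ContinuousAt.congr ?_ hev.symm
    have h1 : ContinuousAt (fun p => Γ (p, w p₀)) p₀ :=
      ContinuousAt.comp (f := fun p : ℂ => (p, w p₀)) (g := Γ) (hΓ _ (hw p₀))
        (by fun_prop)
    exact continuousAt_const.mul (h1.neg.cexp)
  have hS0 : ∀ p, S p ≠ 0 := fun p => mul_ne_zero (hc0 _ _ (hw p)) (exp_ne_zero _)
  obtain ⟨σ, hσ, hσe⟩ := Complex.exists_continuousOn_eqOn_exp_comp (X := ℂ) (U := univ) (g := S)
    linConv_univ isOpen_univ hSc.continuousOn (by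
      rintro ⟨p, _, hp⟩; exact hS0 p hp)
  rw [continuousOn_univ] at hσ
  refine ⟨fun q => σ q.1 + Γ q, ?_, ?_⟩
  · intro q hq
    exact ((hσ.comp continuous_fst).continuousAt.add (hΓ q hq)).continuousWithinAt
  · rintro ⟨p, v⟩ hq
    have h1 : exp (σ p) = S p := hσe (mem_univ p)
    show exp (σ p + Γ (p, v)) = c v
    rw [exp_add, h1, hS p v hq, mul_assoc, ← exp_add]
    simp

end Family

/-- The topological core: the fibres over all the points of the projective line cannot all be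
nonempty. -/
theorem linConv_core {X : Type*} [NormedAddCommGroup X] [NormedSpace ℂ X] {D : Set X} (hD : IsOpen D)
    (hpre : ∀ a b : X, IsPreconnected {t : ℂ | a + t • b ∈ D})
    (hlog : ∀ a b : X, LogProp {t : ℂ | a + t • b ∈ D})
    (W : Submodule ℂ X) (hW : ∀ v ∈ W, v ∉ D) (e₁ e₂ : X)
    (h1 : ∀ p : ℂ, ∃ a ∈ W, ∃ c : ℂ, a + c • (e₁ + p • e₂) ∈ D)
    (h2 : ∃ a ∈ W, ∃ c : ℂ, a + c • e₂ ∈ D) : False := by
  let Φ : ℂ × (W × ℂ) → X := fun q => (q.2.1 : X) + q.2.2 • (e₁ + q.1 • e₂)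
  have hΦ : Continuous Φ := by
    show Continuous fun q : ℂ × (W × ℂ) => (q.2.1 : X) + q.2.2 • (e₁ + q.1 • e₂)
    fun_prop
  have hlin : ∀ (p : ℂ) (b v : W × ℂ) (t : ℂ),
      Φ (p, b + t • (v - b)) = Φ (p, b) + t • (Φ (p, v) - Φ (p, b)) := by
    rintro p ⟨b, d⟩ ⟨v, e⟩ t
    show ((b + t • (v - b) : W) : X) + (d + t * (e - d)) • (e₁ + p • e₂) =
      ((b : X) + d • (e₁ + p • e₂)) + t • (((v : X) + e • (e₁ + p • e₂)) -
        ((b : X) + d • (e₁ + p • e₂)))
    push_cast
    module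
  have hF : IsOpen (Φ ⁻¹' D) := hD.preimage hΦ
  have hc0 : ∀ (p : ℂ) (y : W × ℂ), (p, y) ∈ Φ ⁻¹' D → y.2 ≠ 0 := by
    rintro p ⟨a, c⟩ hy hc
    simp only at hc
    subst hc
    apply hW a a.2
    have : Φ (p, (a, 0)) ∈ D := hy
    simpa [Φ] using this
  have hne : ∀ p : ℂ, ∃ y : W × ℂ, (p, y) ∈ Φ ⁻¹' D := by
    intro p
    obtain ⟨a, ha, c, hac⟩ := h1 p
    exact ⟨(⟨a, ha⟩, c), hac⟩
  have hset : ∀ (p : ℂ) (b v : W × ℂ), {t : ℂ | b + t • (v - b) ∈ {y | (p, y) ∈ Φ ⁻¹' D}} =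
      {t : ℂ | Φ (p, b) + t • (Φ (p, v) - Φ (p, b)) ∈ D} := by
    intro p b v
    ext t
    show Φ (p, b + t • (v - b)) ∈ D ↔ _
    rw [hlin]; rfl
  have hFpre : ∀ p : ℂ, IsPreconnected {y : W × ℂ | (p, y) ∈ Φ ⁻¹' D} := by
    intro p
    obtain ⟨b, hb⟩ := hne p
    apply isPreconnected_of_forall b
    intro v hv
    refine ⟨(fun t : ℂ => b + t • (v - b)) '' {t : ℂ | b + t • (v - b) ∈
      {y : W × ℂ | (p, y) ∈ Φ ⁻¹' D}}, ?_, ⟨0, ?_, by simp⟩, ⟨1, ?_, by simp⟩, ?_⟩
    · rintro _ ⟨t, ht, rfl⟩; exact ht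
    · show b + (0 : ℂ) • (v - b) ∈ {y : W × ℂ | (p, y) ∈ Φ ⁻¹' D}
      simpa using hb
    · show b + (1 : ℂ) • (v - b) ∈ {y : W × ℂ | (p, y) ∈ Φ ⁻¹' D}
      simpa using hv
    · rw [hset]
      exact (hpre _ _).image _ (by fun_prop)
  have hFlog : ∀ p : ℂ, ∃ l : W × ℂ → ℂ, ContinuousOn l {y : W × ℂ | (p, y) ∈ Φ ⁻¹' D} ∧
      ∀ y : W × ℂ, (p, y) ∈ Φ ⁻¹' D → exp (l y) = y.2 := by
    intro p
    obtain ⟨b, hb⟩ := hne p
    apply exists_log_of_lines (U := {y : W × ℂ | (p, y) ∈ Φ ⁻¹' D})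
      (hF.preimage (by fun_prop)) hb (h := fun y => y.2) continuous_snd.continuousOn
      (fun v hv => hc0 p v hv)
    · intro v _
      rw [hset]; exact hpre _ _
    · intro v hv
      have hval : ∀ t : ℂ, (b + t • (v - b)).2 = b.2 + t * (v.2 - b.2) := fun t => rfl
      by_cases hbv : v.2 - b.2 = 0
      · refine ⟨fun _ => log b.2, continuousOn_const, fun t _ => ?_⟩
        show exp (log b.2) = (b + t • (v - b)).2
        rw [hval, hbv, mul_zero, add_zero, exp_log (hc0 p b hb)]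
      · obtain ⟨g, hg, hge⟩ := hlog (Φ (p, b)) (Φ (p, v) - Φ (p, b)) (-b.2 / (v.2 - b.2)) (by
          intro hmem
          have hmem' : -b.2 / (v.2 - b.2) ∈ {t : ℂ | b + t • (v - b) ∈
            {y : W × ℂ | (p, y) ∈ Φ ⁻¹' D}} := by rw [hset]; exact hmem
          apply hc0 p _ hmem'
          rw [hval, div_mul_cancel₀ _ hbv]; ring)
        refine ⟨fun t => g t + log (v.2 - b.2), ?_, ?_⟩
        · rw [hset]
          exact hg.add continuousOn_const
        · intro t ht
          have ht' : t ∈ {t : ℂ | Φ (p, b) + t • (Φ (p, v) - Φ (p, b)) ∈ D} := by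
            rw [← hset]; exact ht
          show exp (g t + log (v.2 - b.2)) = (b + t • (v - b)).2
          rw [exp_add, hge t ht', exp_log hbv, hval]
          field_simp
          ring
  obtain ⟨L, hL, hLe⟩ := linConv_family_log hF (c := fun y : W × ℂ => y.2) continuous_snd hc0 hne
    hFpre hFlog
  -- the loop
  obtain ⟨a, ha, c, hac⟩ := h2
  have hopen : IsOpen {z : ℂ | a + c • e₂ + z • e₁ ∈ D} := hD.preimage (by fun_prop)
  obtain ⟨ε, hε, hball⟩ := Metric.isOpen_iff.1 hopen 0 (by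
    show a + c • e₂ + (0 : ℂ) • e₁ ∈ D
    simpa using hac)
  set R : ℝ := ε / 2 with hR
  have hRpos : 0 < R := by positivity
  let z : ℝ → ℂ := fun θ => R * exp (θ * I)
  have hz0 : ∀ θ, z θ ≠ 0 := fun θ => mul_ne_zero (by exact_mod_cast hRpos.ne') (exp_ne_zero _)
  have hzc : Continuous z := by
    show Continuous fun θ : ℝ => (R : ℂ) * exp (θ * I)
    fun_prop
  let q : ℝ → ℂ × (W × ℂ) := fun θ => (c / z θ, (⟨a, ha⟩, z θ))
  have hqc : Continuous q := by
    show Continuous fun θ : ℝ => ((c / z θ, ((⟨a, ha⟩ : W), z θ)) : ℂ × (W × ℂ))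
    exact (continuous_const.div hzc hz0).prodMk (continuous_const.prodMk hzc)
  have hqF : ∀ θ, q θ ∈ Φ ⁻¹' D := by
    intro θ
    show a + z θ • (e₁ + (c / z θ) • e₂) ∈ D
    have h3 : a + z θ • (e₁ + (c / z θ) • e₂) = a + c • e₂ + z θ • e₁ := by
      rw [smul_add, smul_smul, mul_div_cancel₀ _ (hz0 θ)]
      abel
    rw [h3]
    apply hball
    rw [mem_ball_zero_iff]
    show ‖(R : ℂ) * exp (θ * I)‖ < ε
    rw [norm_mul, norm_exp_ofReal_mul_I, mul_one, norm_real, Real.norm_of_nonneg hRpos.le]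
    linarith
  have hkey := linConv_log_diff (isPreconnected_univ (α := ℝ)) (f := fun θ : ℝ => Real.log R + θ * I)
    (g := fun θ => L (q θ)) (by fun_prop)
    (by rw [continuousOn_univ]; exact hL.comp_continuous hqc hqF)
    (fun θ _ => by
      rw [hLe _ (hqF θ), exp_add, ← ofReal_exp, Real.exp_log hRpos])
    (mem_univ (0 : ℝ)) (mem_univ (2 * Real.pi))
  have hq2 : q (2 * Real.pi) = q 0 := by
    have : z (2 * Real.pi) = z 0 := by
      show (R : ℂ) * exp (((2 * Real.pi : ℝ) : ℂ) * I) = R * exp (((0 : ℝ) : ℂ) * I)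
      push_cast
      rw [exp_two_pi_mul_I]; simp
    show (c / z (2 * Real.pi), ((⟨a, ha⟩ : W), z (2 * Real.pi))) = (c / z 0, ((⟨a, ha⟩ : W), z 0))
    rw [this]
  simp only [hq2, sub_self] at hkey
  have h4 := congrArg Complex.im hkey
  simp at h4

/-- Linear convexity in coordinate-free form. -/
theorem linConv_functional {X : Type*} [NormedAddCommGroup X] [NormedSpace ℂ X]
    [FiniteDimensional ℂ X] {D : Set X} (hD : IsOpen D) (hne : D.Nonempty)
    (hpre : ∀ a b : X, IsPreconnected {t : ℂ | a + t • b ∈ D})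
    (hlog : ∀ a b : X, LogProp {t : ℂ | a + t • b ∈ D}) (h0 : (0 : X) ∉ D) :
    ∃ l : X →ₗ[ℂ] ℂ, ∀ v ∈ D, l v ≠ 0 := by
  obtain ⟨W, hW, hmax⟩ := (wellFounded_gt (α := Submodule ℂ X)).has_min
    {W : Submodule ℂ X | ∀ v ∈ W, v ∉ D} ⟨⊥, by
      intro v hv
      rw [(Submodule.mem_bot ℂ).1 hv]; exact h0⟩
  have hmeet : ∀ e : X, e ∉ W → ∃ a ∈ W, ∃ c : ℂ, a + c • e ∈ D := by
    intro e he
    by_contra hcon
    push Not at hcon
    apply hmax (W ⊔ Submodule.span ℂ {e})
    · intro v hv hvD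
      obtain ⟨a, ha, b, hb, rfl⟩ := Submodule.mem_sup.1 hv
      obtain ⟨c, rfl⟩ := Submodule.mem_span_singleton.1 hb
      exact hcon a ha c hvD
    · refine lt_of_le_of_ne le_sup_left ?_
      intro heq
      apply he
      rw [heq]
      exact Submodule.mem_sup_right (Submodule.mem_span_singleton_self e)
  obtain ⟨v₀, hv₀⟩ := hne
  have hv₀W : v₀ ∉ W := fun h => hW v₀ h hv₀
  by_cases htop : W ⊔ Submodule.span ℂ {v₀} = ⊤
  · obtain ⟨l, hl, hlW⟩ := Submodule.exists_le_ker_of_notMem hv₀W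
    refine ⟨l, ?_⟩
    intro v hv hlv
    have hvt : v ∈ W ⊔ Submodule.span ℂ {v₀} := by rw [htop]; trivial
    obtain ⟨a, ha, b, hb, rfl⟩ := Submodule.mem_sup.1 hvt
    obtain ⟨c, rfl⟩ := Submodule.mem_span_singleton.1 hb
    have hla : l a = 0 := hlW ha
    rw [map_add, hla, zero_add, map_smul, smul_eq_mul, mul_eq_zero] at hlv
    rcases hlv with hc | hc
    · subst hc
      apply hW a ha
      simpa using hv
    · exact hl hc
  · exfalso
    obtain ⟨e₁, he₁⟩ : ∃ e : X, e ∉ W ⊔ Submodule.span ℂ {v₀} := by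
      by_contra hcon
      push Not at hcon
      exact htop (Submodule.eq_top_iff'.2 hcon)
    apply linConv_core hD hpre hlog W hW e₁ v₀
    · intro p
      apply hmeet
      intro hmem
      apply he₁
      have : e₁ = (e₁ + p • v₀) + (-p) • v₀ := by module
      rw [this]
      exact Submodule.add_mem_sup hmem (Submodule.mem_span_singleton.2 ⟨-p, rfl⟩)
    · exact hmeet v₀ hv₀W

variable {n : ℕ}

theorem exists_mem_pol {D : Set (Fin n → ℂ)} (hD : IsOpen D) (h0 : (0 : Fin n → ℂ) ∈ D)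
    (hpre : ∀ a b, IsPreconnected (sec D a b)) (hlog : ∀ a b, LogProp (sec D a b))
    {x : Fin n → ℂ} (hx : x ∉ D) : ∃ ζ ∈ pol D, x ⬝ᵥ ζ = 1 := by
  have hsec : ∀ a b : Fin n → ℂ, {t : ℂ | a + t • b ∈ {v | v + x ∈ D}} = sec D (a + x) b := by
    intro a b
    ext t
    show a + t • b + x ∈ D ↔ a + x + t • b ∈ D
    rw [add_right_comm]
  obtain ⟨l, hl⟩ := linConv_functional (D := {v | v + x ∈ D}) (hD.preimage (by fun_prop))
    ⟨-x, by show -x + x ∈ D; simpa using h0⟩
    (fun a b => by rw [hsec]; exact hpre _ _) (fun a b => by rw [hsec]; exact hlog _ _)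
    (by show 0 + x ∉ D; simpa using hx)
  have hlx : l x ≠ 0 := by
    have := hl (-x) (by show -x + x ∈ D; simpa using h0)
    simpa using this
  have hdot : ∀ y : Fin n → ℂ, (y ⬝ᵥ fun i => l (Pi.single i 1) / l x) = l y / l x := by
    intro y
    have h1 : l y = ∑ i, y i * l (Pi.single i 1) := by
      conv_lhs => rw [pi_eq_sum_univ' y]
      rw [map_sum]
      refine Finset.sum_congr rfl fun i _ => ?_
      rw [map_smul, smul_eq_mul]
    rw [h1, Finset.sum_div]
    refine Finset.sum_congr rfl fun i _ => ?_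
    ring
  refine ⟨fun i => l (Pi.single i 1) / l x, ?_, ?_⟩
  · intro y hy h1
    rw [hdot, div_eq_one_iff_eq hlx] at h1
    apply hl (y - x) (by show y - x + x ∈ D; simpa using hy)
    rw [map_sub, h1, sub_self]
  · rw [hdot, div_self hlx]

end Pool.Agent.MP_86e332_an
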