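import Pool.Agent.MP_86e332_an.Sublevel
import Pool.Agent.MP_86e332_an.LineLogs

set_option autoImplicit false

/-!
# Logarithms of affine functions on the open sublevel sets
-/

open Complex Set Matrix Metric Topology Filter

namespace Pool.Agent.MP_86e332_an

variable {n : ℕ}

/-- The union of the sections: each section of the open sublevel set by a line through the origin
is the increasing union of the sections of the compact sublevel sets. -/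
theorem Uset_sec_preconnected {E : Set (Fin n → ℂ)} (h0E : (0 : Fin n → ℂ) ∈ E)
    (hK : ∀ c' : ℝ, 0 ≤ c' → ∀ a b, IsPreconnected (sec (Kset E c') a b)) (c : ℝ) :
    ∀ a b, IsPreconnected (sec (Uset E c) a b) := by
  intro a b
  have hne : E.Nonempty := ⟨0, h0E⟩
  apply isPreconnected_of_forall_pair
  rintro s ⟨c₁, h0c₁, hc₁, hs⟩ t ⟨c₂, h0c₂, hc₂, ht⟩
  refine ⟨sec (Kset E (max c₁ c₂)) a b, ?_, ?_, ?_, hK _ (le_max_of_le_left h0c₁) a b⟩
  · intro u hu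
    exact ⟨max c₁ c₂, le_max_of_le_left h0c₁, max_lt hc₁ hc₂, hu⟩
  · exact Kset_mono hne (le_max_left _ _) hs
  · exact Kset_mono hne (le_max_right _ _) ht

theorem isOpen_Uset {E : Set (Fin n → ℂ)} (hne : E.Nonempty)
    (hreg : ∀ ε : ℝ, 0 < ε → ∃ ρ : ℝ, 0 < ρ ∧ ∀ x ∈ E, ∀ z, dist z x < ρ → z ∈ Kset E ε)
    (c : ℝ) : IsOpen (Uset E c) := by
  rw [Metric.isOpen_iff]
  rintro z ⟨c', h0c', hc', hz⟩
  obtain ⟨ρ, hρ, hρ'⟩ := Kset_thicken hne hreg (show c' < (c' + c) / 2 by linarith)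
  exact ⟨ρ, hρ, fun w hw => ⟨(c' + c) / 2, by linarith, by linarith, hρ' z hz w hw⟩⟩

/-- Logarithms of `t - σ` on the sections of the open sublevel sets by lines through the origin. -/
theorem Uset_sec_logProp {E : Set (Fin n → ℂ)} (h0E : (0 : Fin n → ℂ) ∈ E)
    (hreg : ∀ ε : ℝ, 0 < ε → ∃ ρ : ℝ, 0 < ρ ∧ ∀ x ∈ E, ∀ z, dist z x < ρ → z ∈ Kset E ε)
    (hK : ∀ c' : ℝ, 0 ≤ c' → ∀ a b, IsPreconnected (sec (Kset E c') a b))
    (hlogK : ∀ c' : ℝ, 0 ≤ c' → ∀ a b, LogProp (sec (Kset E c') a b)) {c : ℝ} (hc : 0 < c)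
    (b : Fin n → ℂ) : LogProp (sec (Uset E c) 0 b) := by
  classical
  intro σ hσ
  have hne : E.Nonempty := ⟨0, h0E⟩
  have hσ' : ∀ c' : ℝ, 0 ≤ c' → c' < c → σ ∉ sec (Kset E c') 0 b :=
    fun c' h0 h1 h => hσ ⟨c', h0, h1, h⟩
  have h0K : ∀ c' : ℝ, 0 ≤ c' → (0 : ℂ) ∈ sec (Kset E c') 0 b := by
    intro c' h0
    show (0 : Fin n → ℂ) + (0 : ℂ) • b ∈ Kset E c'
    rw [zero_smul, add_zero]
    exact subset_Kset hne h0 h0E
  have hex : ∀ c' : ℝ, ∃ g : ℂ → ℂ, 0 ≤ c' → c' < c →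
      (ContinuousOn g (sec (Kset E c') 0 b) ∧ (∀ s ∈ sec (Kset E c') 0 b, exp (g s) = s - σ) ∧
        g 0 = log (-σ)) := by
    intro c'
    by_cases h : 0 ≤ c' ∧ c' < c
    · obtain ⟨g, hg, hge⟩ := hlogK c' h.1 0 b σ (hσ' c' h.1 h.2)
      have hg0 := hge 0 (h0K c' h.1)
      rw [zero_sub] at hg0
      refine ⟨fun s => g s - g 0 + log (-σ), fun _ _ => ⟨?_, ?_, by ring⟩⟩
      · exact (hg.sub continuousOn_const).add continuousOn_const
      · intro s hs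
        have hσ0 : -σ ≠ 0 := by
          rw [← hg0]; exact exp_ne_zero _
        rw [exp_add, exp_sub, hg0, exp_log hσ0, hge s hs, div_mul_cancel₀ _ hσ0]
    · exact ⟨fun _ => 0, fun h1 h2 => absurd ⟨h1, h2⟩ h⟩
  choose g hg using hex
  -- compatibility
  have hcomp : ∀ c₁ c₂ : ℝ, 0 ≤ c₁ → c₁ ≤ c₂ → c₂ < c → ∀ s ∈ sec (Kset E c₁) 0 b,
      g c₁ s = g c₂ s := by
    intro c₁ c₂ h1 h12 h2
    obtain ⟨hc1, he1, hz1⟩ := hg c₁ h1 (h12.trans_lt h2)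
    obtain ⟨hc2, he2, hz2⟩ := hg c₂ (h1.trans h12) h2
    have hsub : sec (Kset E c₁) 0 b ⊆ sec (Kset E c₂) 0 b := fun s hs => Kset_mono hne h12 hs
    exact log_unique (hK c₁ h1 0 b) hc1 (hc2.mono hsub)
      (fun s hs => by rw [he1 s hs, he2 s (hsub hs)]) (h0K c₁ h1) (hz1.trans hz2.symm)
  have hcomp' : ∀ c₁ c₂ : ℝ, 0 ≤ c₁ → c₁ < c → 0 ≤ c₂ → c₂ < c → ∀ s ∈ sec (Kset E c₁) 0 b,
      s ∈ sec (Kset E c₂) 0 b → g c₁ s = g c₂ s := by
    intro c₁ c₂ h1 h1' h2 h2' s hs1 hs2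
    rcases le_total c₁ c₂ with h | h
    · exact hcomp c₁ c₂ h1 h h2' s hs1
    · exact (hcomp c₂ c₁ h2 h h1' s hs2).symm
  have hlev : ∀ s : ℂ, ∃ c' : ℝ, s ∈ sec (Uset E c) 0 b →
      0 ≤ c' ∧ c' < c ∧ s ∈ sec (Kset E c') 0 b := by
    intro s
    by_cases h : s ∈ sec (Uset E c) 0 b
    · obtain ⟨c', h1, h2, h3⟩ := h
      exact ⟨c', fun _ => ⟨h1, h2, h3⟩⟩
    · exact ⟨0, fun h' => absurd h' h⟩
  choose lev hlev using hlev
  refine ⟨fun s => g (lev s) s, ?_, ?_⟩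
  · intro s hs
    obtain ⟨h1, h2, h3⟩ := hlev s hs
    obtain ⟨ρ, hρ, hρ'⟩ := Kset_thicken hne hreg (show lev s < (lev s + c) / 2 by linarith)
    set c'' : ℝ := (lev s + c) / 2 with hc''
    have hc0 : 0 ≤ c'' := by rw [hc'']; linarith
    have hcc : c'' < c := by rw [hc'']; linarith
    have hnhds : ∀ᶠ t in 𝓝 s, t ∈ sec (Kset E c'') 0 b := by
      have hcont : ContinuousAt (fun t : ℂ => (0 : Fin n → ℂ) + t • b) s := by fun_prop
      have := hcont.eventually (Metric.ball_mem_nhds ((0 : Fin n → ℂ) + s • b) hρ)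
      filter_upwards [this] with t ht
      exact hρ' _ h3 _ ht
    apply ContinuousAt.continuousWithinAt
    have hca : ContinuousAt (g c'') s := (hg c'' hc0 hcc).1.continuousAt hnhds
    refine hca.congr ?_
    filter_upwards [hnhds] with t ht
    have htU : t ∈ sec (Uset E c) 0 b := ⟨c'', hc0, hcc, ht⟩
    obtain ⟨k1, k2, k3⟩ := hlev t htU
    exact hcomp' c'' (lev t) hc0 hcc k1 k2 t ht k3
  · intro s hs
    obtain ⟨h1, h2, h3⟩ := hlev s hs
    exact (hg (lev s) h1 h2).2.1 s h3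

/-- Affine functions without zeros on an open sublevel set have continuous logarithms there. -/
theorem Uset_log_of {E : Set (Fin n → ℂ)} (h0E : (0 : Fin n → ℂ) ∈ E)
    (hreg : ∀ ε : ℝ, 0 < ε → ∃ ρ : ℝ, 0 < ρ ∧ ∀ x ∈ E, ∀ z, dist z x < ρ → z ∈ Kset E ε)
    (hK : ∀ c' : ℝ, 0 ≤ c' → ∀ a b, IsPreconnected (sec (Kset E c') a b))
    (hlogK : ∀ c' : ℝ, 0 ≤ c' → ∀ a b, LogProp (sec (Kset E c') a b)) {c : ℝ} (hc : 0 < c)
    {x : Fin n → ℂ} (hx : x ∈ pol (Uset E c)) :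
    ∃ L : (Fin n → ℂ) → ℂ, ContinuousOn L (Uset E c) ∧
      ∀ ζ ∈ Uset E c, exp (L ζ) = 1 - ζ ⬝ᵥ x := by
  have hne : E.Nonempty := ⟨0, h0E⟩
  have h0U : (0 : Fin n → ℂ) ∈ Uset E c := ⟨0, le_rfl, hc, subset_Kset hne le_rfl h0E⟩
  have hset : ∀ v : Fin n → ℂ, {t : ℂ | (0 : Fin n → ℂ) + t • (v - 0) ∈ Uset E c} =
      sec (Uset E c) 0 v := by
    intro v
    rw [sub_zero]; rfl
  apply exists_log_of_lines (isOpen_Uset hne hreg c) h0U
  · exact (continuous_const.sub (continuous_dot' x)).continuousOn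
  · intro v hv h
    exact hx v hv (sub_eq_zero.1 h).symm
  · intro v _
    rw [hset]
    exact Uset_sec_preconnected h0E hK c 0 v
  · intro v hv
    rw [hset]
    have hval : ∀ t : ℂ, 1 - ((0 : Fin n → ℂ) + t • (v - 0)) ⬝ᵥ x = 1 - t * (v ⬝ᵥ x) := by
      intro t
      rw [zero_add, sub_zero, smul_dotProduct, smul_eq_mul]
    by_cases hw : v ⬝ᵥ x = 0
    · refine ⟨fun _ => 0, continuousOn_const, fun t _ => ?_⟩
      rw [hval, hw, mul_zero, sub_zero, exp_zero]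
    · obtain ⟨g, hg, hge⟩ := Uset_sec_logProp h0E hreg hK hlogK hc v (1 / (v ⬝ᵥ x)) (by
        intro hmem
        have hmem' : (0 : Fin n → ℂ) + (1 / (v ⬝ᵥ x)) • v ∈ Uset E c := hmem
        apply hx _ hmem'
        rw [zero_add, smul_dotProduct, smul_eq_mul, one_div_mul_cancel hw])
      refine ⟨fun t => g t + log (-(v ⬝ᵥ x)), hg.add continuousOn_const, ?_⟩
      intro t ht
      have ht' : t ∈ sec (Uset E c) 0 v := by rw [← hset]; exact ht
      rw [hval, exp_add, hge t ht', exp_log (neg_ne_zero.2 hw)]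
      field_simp
      ring

end Pool.Agent.MP_86e332_an
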