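import Pool.Agent.MP_86e332_an.Sections
import Pool.Agent.MP_86e332_an.LinConv
import Pool.Agent.MP_86e332_an.UsetLog
import Pool.Agent.MP_86e332_an.KsetLog

set_option autoImplicit false

/-!
# Exhaustion of bounded `ℂ`-convex domains by `ℂ`-convex compact sets
-/

open Complex Set Metric Filter Topology Matrix

namespace Pool.Agent.MP_86e332_an

variable {n : ℕ}

theorem simplyConnected_logProp {S : Set ℂ} (hS : IsOpen S) (h : S = ∅ ∨ IsSimplyConnected S) :
    LogProp S := by
  intro σ hσ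
  rcases h with h | h
  · exact ⟨fun _ => 0, by rw [h]; exact continuousOn_empty _, by simp [h]⟩
  · obtain ⟨f, hf, hfe⟩ := Complex.exists_continuousOn_eqOn_exp_comp h hS
      (g := fun s => s - σ) (by fun_prop) (by
        rintro ⟨s, hs, hs0⟩
        exact hσ (by rw [← sub_eq_zero.1 hs0]; exact hs))
    exact ⟨f, hf, fun s hs => hfe hs⟩

/-- Affine functions without zeros on the domain have continuous logarithms. -/
theorem domain_log {D : Set (Fin n → ℂ)} (hD : IsOpen D) (h0 : (0 : Fin n → ℂ) ∈ D)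
    (hpre : ∀ a b, IsPreconnected (sec D a b)) (hlog : ∀ a b, LogProp (sec D a b))
    {x : Fin n → ℂ} (hx : x ∈ pol D) :
    ∃ L : (Fin n → ℂ) → ℂ, ContinuousOn L D ∧ ∀ ζ ∈ D, exp (L ζ) = 1 - ζ ⬝ᵥ x := by
  have hset : ∀ v : Fin n → ℂ, {t : ℂ | (0 : Fin n → ℂ) + t • (v - 0) ∈ D} = sec D 0 v := by
    intro v
    rw [sub_zero]; rfl
  apply exists_log_of_lines hD h0
  · exact (continuous_const.sub (continuous_dot' x)).continuousOn
  · intro v hv h
    exact hx v hv (sub_eq_zero.1 h).symm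
  · intro v _
    rw [hset]
    exact hpre 0 v
  · intro v hv
    rw [hset]
    have hval : ∀ t : ℂ, 1 - ((0 : Fin n → ℂ) + t • (v - 0)) ⬝ᵥ x = 1 - t * (v ⬝ᵥ x) := by
      intro t
      rw [zero_add, sub_zero, smul_dotProduct, smul_eq_mul]
    by_cases hw : v ⬝ᵥ x = 0
    · refine ⟨fun _ => 0, continuousOn_const, fun t _ => ?_⟩
      rw [hval, hw, mul_zero, sub_zero, exp_zero]
    · obtain ⟨g, hg, hge⟩ := hlog 0 v (1 / (v ⬝ᵥ x)) (by
        intro hmem
        have hmem' : (0 : Fin n → ℂ) + (1 / (v ⬝ᵥ x)) • v ∈ D := hmem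
        apply hx _ hmem'
        rw [zero_add, smul_dotProduct, smul_eq_mul, one_div_mul_cancel hw])
      refine ⟨fun t => g t + log (-(v ⬝ᵥ x)), hg.add continuousOn_const, ?_⟩
      intro t ht
      have ht' : t ∈ sec D 0 v := by rw [← hset]; exact ht
      rw [hval, exp_add, hge t ht', exp_log (neg_ne_zero.2 hw)]
      field_simp
      ring

/-- Polars and interiors. -/
theorem pol_subset_interior {U V F : Set (Fin n → ℂ)} (hF : IsCompact F) (hVF : V ⊆ F)
    (hFU : F ⊆ U) : pol U ⊆ interior (pol V) := by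
  intro x hx
  rw [mem_interior_iff_mem_nhds]
  have h1 : ∀ᶠ x' in 𝓝 x, ∀ ζ ∈ F, ζ ⬝ᵥ x' ≠ 1 := by
    apply hF.eventually_forall_of_forall_eventually
    intro ζ hζ
    have hcont : Continuous fun z : (Fin n → ℂ) × (Fin n → ℂ) => z.2 ⬝ᵥ z.1 := by
      unfold dotProduct
      fun_prop
    exact hcont.continuousAt.eventually_ne (hx ζ (hFU hζ))
  filter_upwards [h1] with x' hx' ζ hζ
  exact hx' ζ (hVF hζ)

/-- The main theorem for domains containing the origin. -/
theorem main_zero {D : Set (Fin n → ℂ)} (hD : IsOpen D) (h0 : (0 : Fin n → ℂ) ∈ D)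
    (hb : Bornology.IsBounded D) (hpre : ∀ a b, IsPreconnected (sec D a b))
    (hlog : ∀ a b, LogProp (sec D a b)) :
    ∃ K : ℕ → Set (Fin n → ℂ), (∀ j, IsCConvexCompact (K j)) ∧ Monotone K ∧
      (∀ j, K j ⊆ interior (K (j + 1))) ∧ ⋃ j, K j = D := by
  set E := pol D with hE
  have hEc : IsCompact E := isCompact_pol hD h0
  obtain ⟨r, hr, hball⟩ := ball_subset_pol hb
  have h0E : (0 : Fin n → ℂ) ∈ E := hball (by simp [hr.le])
  have hEne : E.Nonempty := ⟨0, h0E⟩
  have hEconn : ∀ a b, IsPreconnected (sec E a b) :=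
    pol_sec_preconnected hD h0 hpre (fun ζ hζ => domain_log hD h0 hpre hlog hζ)
  have hreg : ∀ ε : ℝ, 0 < ε → ∃ ρ : ℝ, 0 < ρ ∧ ∀ x ∈ E, ∀ z, dist z x < ρ → z ∈ Kset E ε :=
    fun ε hε => regularity hEconn hr hball hε
  have hKconn : ∀ c' : ℝ, 0 ≤ c' → ∀ a b, IsPreconnected (sec (Kset E c') a b) :=
    fun c' hc' => Kset_sec_preconnected hEc hEconn hr hball hc'
  have hKlog : ∀ c' : ℝ, 0 ≤ c' → ∀ a b, LogProp (sec (Kset E c') a b) :=
    fun c' hc' a b => Kset_sec_logProp hEc hc' a b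
  -- the open sets
  have hUopen : ∀ c : ℝ, IsOpen (Uset E c) := fun c => isOpen_Uset hEne hreg c
  have hU0 : ∀ c : ℝ, 0 < c → (0 : Fin n → ℂ) ∈ Uset E c := fun c hc =>
    ⟨0, le_rfl, hc, subset_Kset hEne le_rfl h0E⟩
  have hUpre : ∀ c : ℝ, ∀ a b, IsPreconnected (sec (Uset E c) a b) :=
    fun c => Uset_sec_preconnected h0E hKconn c
  -- the compact sets
  refine ⟨fun j => pol (Uset E (1 / (j + 1))), ?_, ?_, ?_, ?_⟩
  · intro j
    have hj : (0:ℝ) < 1 / (j + 1) := by positivity
    refine ⟨isCompact_pol (hUopen _) (hU0 _ hj), ?_⟩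
    intro a b hb'
    by_cases hne : (sec (pol (Uset E (1 / (j + 1)))) a b).Nonempty
    · right
      refine ⟨⟨hne, ?_⟩, pol_sec_compl_connected (hUopen _) (hU0 _ hj) (hUpre _) hb' hne⟩
      exact pol_sec_preconnected (hUopen _) (hU0 _ hj) (hUpre _)
        (fun x hx => Uset_log_of h0E hreg hKconn hKlog hj hx) a b
    · left
      exact Set.not_nonempty_iff_eq_empty.1 hne
  · intro i j hij x hx ζ hζ
    obtain ⟨c', h0c', hc', hz⟩ := hζ
    exact hx ζ ⟨c', h0c', hc'.trans_le (by
      apply one_div_le_one_div_of_le (by positivity)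
      have : (i:ℝ) ≤ j := by exact_mod_cast hij
      linarith), hz⟩
  · intro j
    have hj : (0:ℝ) < 1 / (((j + 1 : ℕ) : ℝ) + 1) := by positivity
    have hlt : (1:ℝ) / (((j + 1 : ℕ) : ℝ) + 1) < 1 / (j + 1) := by
      apply one_div_lt_one_div_of_lt (by positivity)
      push_cast
      linarith
    refine pol_subset_interior (isCompact_Kset hEc (1 / (((j + 1 : ℕ) : ℝ) + 1))) ?_ ?_
    · rintro ζ ⟨c', h0c', hc', hz⟩
      exact Kset_mono hEne hc'.le hz
    · intro ζ hζ
      exact ⟨_, hj.le, hlt, hζ⟩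
  · apply Set.Subset.antisymm
    · apply Set.iUnion_subset
      intro j x hx
      by_contra hxD
      obtain ⟨ζ, hζ, hζ1⟩ := exists_mem_pol hD h0 hpre hlog hxD
      have hj : (0:ℝ) < 1 / (j + 1) := by positivity
      exact hx ζ ⟨0, le_rfl, hj, subset_Kset hEne le_rfl hζ⟩ (by rw [dotProduct_comm]; exact hζ1)
    · intro x hx
      obtain ⟨c, hc, hcx⟩ := exhaustion hD h0 hb hpre hx
      obtain ⟨j, hj⟩ := exists_nat_one_div_lt hc
      refine Set.mem_iUnion.2 ⟨j, ?_⟩
      rintro ζ ⟨c', h0c', hc', hz⟩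
      rw [dotProduct_comm]
      exact hcx ζ (Kset_mono hEne (by linarith) hz)

/-- Every bounded `ℂ`-convex domain is the union of an increasing sequence of `ℂ`-convex compact
sets. -/
theorem main (D : Set (Fin n → ℂ)) (hD : IsCConvexDomain D)
    (hb : Bornology.IsBounded D) :
    ∃ K : ℕ → Set (Fin n → ℂ), (∀ j, IsCConvexCompact (K j)) ∧ Monotone K ∧
      (∀ j, K j ⊆ interior (K (j + 1))) ∧ ⋃ j, K j = D := by
  obtain ⟨x₀, hx₀⟩ := hD.isConnected.nonempty
  have hsec : ∀ a b, IsPreconnected (sec D a b) ∧ LogProp (sec D a b) := by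
    intro a b
    have hopen : IsOpen (sec D a b) := by
      have : Continuous fun t : ℂ => a + t • b := by fun_prop
      exact hD.isOpen.preimage this
    by_cases hb0 : b = 0
    · by_cases ha : a ∈ D
      · have huniv : sec D a b = Set.univ := by
          rw [Set.eq_univ_iff_forall]
          intro t
          change a + t • b ∈ D
          rw [hb0]
          simpa using ha
        rw [huniv]
        exact ⟨isPreconnected_univ, fun σ hσ => absurd (Set.mem_univ σ) hσ⟩
      · have hempty : sec D a b = ∅ := by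
          rw [Set.eq_empty_iff_forall_notMem]
          intro t ht
          apply ha
          have : a + t • b ∈ D := ht
          rw [hb0] at this
          simpa using this
        rw [hempty]
        exact ⟨isPreconnected_empty, fun σ _ => ⟨fun _ => 0, continuousOn_empty _,
          fun s hs => absurd hs (Set.notMem_empty s)⟩⟩
    · refine ⟨?_, simplyConnected_logProp hopen (hD.sec_simplyConnected a b hb0)⟩
      rcases hD.sec_simplyConnected a b hb0 with h | h
      · rw [h]
        exact isPreconnected_empty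
      · exact h.isPathConnected.isConnected.isPreconnected
  set D₀ : Set (Fin n → ℂ) := {x | x + x₀ ∈ D} with hD₀
  have hsec₀ : ∀ a b, sec D₀ a b = sec D (a + x₀) b := by
    intro a b
    ext t
    change a + t • b + x₀ ∈ D ↔ a + x₀ + t • b ∈ D
    rw [add_right_comm]
  obtain ⟨K, hK, hmono, hint, hunion⟩ := main_zero (D := D₀)
    (hD.isOpen.preimage (by fun_prop : Continuous fun x : Fin n → ℂ => x + x₀))
    (by change (0 : Fin n → ℂ) + x₀ ∈ D; rwa [zero_add])
    (by
      rw [isBounded_iff_forall_norm_le] at hb ⊢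
      obtain ⟨R, hR⟩ := hb
      refine ⟨R + ‖x₀‖, fun x hx => ?_⟩
      calc ‖x‖ = ‖(x + x₀) - x₀‖ := by rw [add_sub_cancel_right]
        _ ≤ ‖x + x₀‖ + ‖x₀‖ := norm_sub_le _ _
        _ ≤ R + ‖x₀‖ := add_le_add (hR _ hx) le_rfl)
    (fun a b => by rw [hsec₀]; exact (hsec _ _).1)
    (fun a b => by rw [hsec₀]; exact (hsec _ _).2)
  refine ⟨fun j => {x | x - x₀ ∈ K j}, ?_, ?_, ?_, ?_⟩
  · intro j
    constructor
    · have h1 := (hK j).isCompact.image (by fun_prop : Continuous fun x : Fin n → ℂ => x + x₀)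
      convert h1 using 1
      ext x
      constructor
      · intro hx
        exact ⟨x - x₀, hx, by simp⟩
      · rintro ⟨y, hy, rfl⟩
        change y + x₀ - x₀ ∈ K j
        rwa [add_sub_cancel_right]
    · intro a b hb0
      have : sec {x | x - x₀ ∈ K j} a b = sec (K j) (a - x₀) b := by
        ext t
        change a + t • b - x₀ ∈ K j ↔ a - x₀ + t • b ∈ K j
        rw [add_sub_right_comm]
      rw [this]
      exact (hK j).sec_acyclic _ _ hb0
  · intro i j hij x hx
    exact hmono hij hx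
  · intro j x hx
    have h1 : x - x₀ ∈ interior (K (j + 1)) := hint j hx
    rw [mem_interior] at h1 ⊢
    obtain ⟨V, hVK, hV, hxV⟩ := h1
    exact ⟨{y | y - x₀ ∈ V}, fun y hy => hVK hy,
      hV.preimage (by fun_prop : Continuous fun y : Fin n → ℂ => y - x₀), hxV⟩
  · ext x
    rw [Set.mem_iUnion]
    have h1 : x - x₀ ∈ ⋃ j, K j ↔ x ∈ D := by
      rw [hunion]
      change x - x₀ + x₀ ∈ D ↔ x ∈ D
      rw [sub_add_cancel]
    rw [← h1, Set.mem_iUnion]
    rfl

end Pool.Agent.MP_86e332_an
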