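import Pool.Agent.MP_86e332_an.LineLogs

set_option autoImplicit false

/-!
# Polars of open sets
-/

open Complex Set Metric Filter Topology Matrix

namespace Pool.Agent.MP_86e332_an

variable {n : ℕ}

/-- An open preconnected subset of the plane remains preconnected when a point is removed. -/
theorem isPreconnected_diff_singleton {S : Set ℂ} (hS : IsPreconnected S) (hSo : IsOpen S)
    (p : ℂ) : IsPreconnected (S \ {p}) := by
  by_cases hp : p ∈ S
  swap
  · rwa [Set.sdiff_singleton_eq_self hp]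
  obtain ⟨ε, hε, hball⟩ := Metric.isOpen_iff.1 hSo p hp
  -- the punctured disc
  have hpunct : IsPreconnected (ball p ε \ {p}) := by
    have himg : (fun z : ℝ × ℝ => p + z.1 * exp (z.2 * I)) '' (Set.Ioo 0 ε ×ˢ Set.univ)
        = ball p ε \ {p} := by
      apply Set.Subset.antisymm
      · rintro _ ⟨⟨r, θ⟩, ⟨hr, -⟩, rfl⟩
        simp only at hr ⊢
        refine ⟨?_, ?_⟩
        · rw [mem_ball, dist_eq_norm]
          rw [add_sub_cancel_left, norm_mul, Complex.norm_exp_ofReal_mul_I, mul_one,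
            Complex.norm_real, Real.norm_eq_abs, abs_of_pos hr.1]
          exact hr.2
        · intro h
          have h1 : (r:ℂ) * exp (θ * I) = 0 := by
            have : p + (r:ℂ) * exp (θ * I) = p := h
            linear_combination this
          rcases mul_eq_zero.1 h1 with h2 | h2
          · exact hr.1.ne' (by exact_mod_cast h2)
          · exact Complex.exp_ne_zero _ h2
      · rintro z ⟨hz, hzp⟩
        have hz0 : z - p ≠ 0 := sub_ne_zero.2 hzp
        refine ⟨(‖z - p‖, (z - p).arg), ⟨⟨norm_pos_iff.2 hz0, ?_⟩, Set.mem_univ _⟩, ?_⟩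
        · rwa [mem_ball, dist_eq_norm] at hz
        · simp only
          rw [Complex.norm_mul_exp_arg_mul_I]
          ring
    rw [← himg]
    exact (isPreconnected_Ioo.prod isPreconnected_univ).image _ (by fun_prop)
  rw [isPreconnected_iff_subset_of_disjoint]
  intro u v hu hv huv hdisj
  -- symmetric statement
  have key : ∀ u v : Set ℂ, IsOpen u → IsOpen v → S \ {p} ⊆ u ∪ v → (S \ {p}) ∩ (u ∩ v) = ∅ →
      ball p ε \ {p} ⊆ u → S \ {p} ⊆ u := by
    intro u v hu hv huv hdisj hsub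
    have hcov : S ⊆ (u ∪ ball p ε) ∪ (v \ {p}) := by
      intro z hz
      by_cases hzp : z = p
      · left; right
        rw [hzp]
        exact mem_ball_self hε
      · rcases huv ⟨hz, hzp⟩ with h | h
        · left; left; exact h
        · right; exact ⟨h, hzp⟩
    have hd : S ∩ ((u ∪ ball p ε) ∩ (v \ {p})) = ∅ := by
      rw [Set.eq_empty_iff_forall_notMem]
      rintro z ⟨hz, hz1, hz2, hz3⟩
      have hzu : z ∈ u := by
        rcases hz1 with h | h
        · exact h
        · exact hsub ⟨h, hz3⟩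
      have : z ∈ (S \ {p}) ∩ (u ∩ v) := ⟨⟨hz, hz3⟩, hzu, hz2⟩
      rw [hdisj] at this
      exact this
    rcases (isPreconnected_iff_subset_of_disjoint.1 hS) _ _ (hu.union isOpen_ball)
      (hv.sdiff isClosed_singleton) hcov hd with h | h
    · rintro z ⟨hz, hzp⟩
      rcases h hz with h1 | h1
      · exact h1
      · exact hsub ⟨h1, hzp⟩
    · exact absurd rfl (h hp).2
  have hsubS : ball p ε \ {p} ⊆ S \ {p} := Set.sdiff_subset_sdiff_left hball
  rcases (isPreconnected_iff_subset_of_disjoint.1 hpunct) u v hu hv (hsubS.trans huv) (by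
    rw [← Set.subset_empty_iff, ← hdisj]
    exact Set.inter_subset_inter_left _ hsubS) with h | h
  · exact Or.inl (key u v hu hv huv hdisj h)
  · exact Or.inr (key v u hv hu (by rwa [Set.union_comm]) (by rwa [Set.inter_comm v u]) h)

theorem continuous_dot (a : Fin n → ℂ) : Continuous fun z : Fin n → ℂ => a ⬝ᵥ z := by
  unfold dotProduct
  fun_prop

theorem continuous_dot' (a : Fin n → ℂ) : Continuous fun z : Fin n → ℂ => z ⬝ᵥ a := by
  unfold dotProduct
  fun_prop

theorem isClosed_pol {U : Set (Fin n → ℂ)} (hU : IsOpen U) : IsClosed (pol U) := by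
  rw [← isOpen_compl_iff, isOpen_iff_mem_nhds]
  intro ζ hζ
  have : ∃ x ∈ U, x ⬝ᵥ ζ = 1 := by
    by_contra h
    push Not at h
    exact hζ h
  obtain ⟨x, hx, hx1⟩ := this
  have hne : ∀ᶠ ζ' in 𝓝 ζ, x ⬝ᵥ ζ' ≠ 0 := by
    apply (continuous_dot x).continuousAt.eventually_ne
    rw [hx1]
    exact one_ne_zero
  have hmem : ∀ᶠ ζ' in 𝓝 ζ, (x ⬝ᵥ ζ')⁻¹ • x ∈ U := by
    have hc : ContinuousAt (fun ζ' : Fin n → ℂ => (x ⬝ᵥ ζ')⁻¹ • x) ζ := by
      have hinv : ContinuousAt (fun ζ' : Fin n → ℂ => (x ⬝ᵥ ζ')⁻¹) ζ :=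
        (continuous_dot x).continuousAt.inv₀ (by rw [hx1]; exact one_ne_zero)
      exact hinv.smul continuousAt_const
    apply hc.eventually
    apply hU.mem_nhds
    simp only [hx1, inv_one, one_smul]
    exact hx
  filter_upwards [hne, hmem] with ζ' h1 h2
  intro h3
  apply h3 _ h2
  rw [smul_dotProduct, smul_eq_mul, inv_mul_cancel₀ h1]

theorem pol_norm_le {U : Set (Fin n → ℂ)} {r : ℝ} (hr : 0 < r) (hball : ball 0 r ⊆ U)
    {ζ : Fin n → ℂ} (hζ : ζ ∈ pol U) : ‖ζ‖ ≤ 1 / r := by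
  rw [pi_norm_le_iff_of_nonneg (by positivity)]
  intro i
  by_contra hlt
  push Not at hlt
  have hpos : 0 < ‖ζ i‖ := lt_trans (by positivity) hlt
  have hne : ζ i ≠ 0 := norm_pos_iff.1 hpos
  apply hζ (Pi.single i (ζ i)⁻¹)
  · apply hball
    rw [mem_ball_zero_iff]
    refine lt_of_le_of_lt (b := ‖(ζ i)⁻¹‖) ?_ ?_
    · rw [pi_norm_le_iff_of_nonneg (norm_nonneg _)]
      intro j
      by_cases hj : j = i
      · subst hj
        simp
      · simp [Pi.single_eq_of_ne hj]
    · rw [norm_inv]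
      rw [inv_lt_comm₀ hpos hr]
      rwa [one_div] at hlt
  · rw [single_dotProduct, inv_mul_cancel₀ hne]

theorem isCompact_pol {U : Set (Fin n → ℂ)} (hU : IsOpen U) (h0 : (0 : Fin n → ℂ) ∈ U) :
    IsCompact (pol U) := by
  obtain ⟨r, hr, hball⟩ := Metric.isOpen_iff.1 hU 0 h0
  apply Metric.isCompact_of_isClosed_isBounded (isClosed_pol hU)
  rw [isBounded_iff_forall_norm_le]
  exact ⟨1 / r, fun ζ hζ => pol_norm_le hr hball hζ⟩

theorem norm_dot_le (x ζ : Fin n → ℂ) : ‖x ⬝ᵥ ζ‖ ≤ n * (‖x‖ * ‖ζ‖) := by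
  unfold dotProduct
  refine (norm_sum_le _ _).trans ?_
  refine (Finset.sum_le_card_nsmul _ _ (‖x‖ * ‖ζ‖) ?_).trans ?_
  · intro i _
    rw [norm_mul]
    exact mul_le_mul (norm_le_pi_norm x i) (norm_le_pi_norm ζ i) (norm_nonneg _) (norm_nonneg _)
  · simp

theorem ball_subset_pol {U : Set (Fin n → ℂ)} (hU : Bornology.IsBounded U) :
    ∃ r : ℝ, 0 < r ∧ closedBall (0 : Fin n → ℂ) r ⊆ pol U := by
  obtain ⟨R, hR⟩ := isBounded_iff_forall_norm_le.1 hU
  set R' : ℝ := max R 1 with hR'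
  have hR'pos : 0 < R' := by positivity
  refine ⟨1 / ((n + 1) * R'), by positivity, ?_⟩
  intro ζ hζ x hx h
  rw [mem_closedBall_zero_iff] at hζ
  have h1 := norm_dot_le x ζ
  rw [h, norm_one] at h1
  have h2 : ‖x‖ ≤ R' := (hR x hx).trans (le_max_left _ _)
  have h3 : ‖x‖ * ‖ζ‖ ≤ R' * (1 / ((n + 1) * R')) :=
    mul_le_mul h2 hζ (norm_nonneg _) hR'pos.le
  have h4 : R' * (1 / ((n + 1) * R')) = 1 / (n + 1) := by
    field_simp
  rw [h4] at h3
  have h5 : (n:ℝ) * (‖x‖ * ‖ζ‖) ≤ n * (1 / (n + 1)) :=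
    mul_le_mul_of_nonneg_left h3 (by positivity)
  have h6 : (n:ℝ) * (1 / (n + 1)) < 1 := by
    rw [mul_one_div, div_lt_one (by positivity)]
    linarith
  linarith

theorem sec_isClosed {S : Set (Fin n → ℂ)} (hS : IsClosed S) (a b : Fin n → ℂ) :
    IsClosed (sec S a b) :=
  hS.preimage (by fun_prop : Continuous fun t : ℂ => a + t • b)

theorem sec_isOpen {S : Set (Fin n → ℂ)} (hS : IsOpen S) (a b : Fin n → ℂ) :
    IsOpen (sec S a b) :=
  hS.preimage (by fun_prop : Continuous fun t : ℂ => a + t • b)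

theorem sec_isCompact {S : Set (Fin n → ℂ)} (hS : IsCompact S) (a : Fin n → ℂ)
    {b : Fin n → ℂ} (hb : b ≠ 0) : IsCompact (sec S a b) := by
  apply Metric.isCompact_of_isClosed_isBounded (sec_isClosed hS.isClosed a b)
  obtain ⟨R, hR⟩ := isBounded_iff_forall_norm_le.1 hS.isBounded
  rw [isBounded_iff_forall_norm_le]
  have hbpos : 0 < ‖b‖ := norm_pos_iff.2 hb
  refine ⟨(R + ‖a‖) / ‖b‖, fun t ht => ?_⟩
  rw [le_div_iff₀ hbpos, ← norm_smul]
  have h1 : ‖a + t • b‖ ≤ R := hR _ ht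
  have h2 : t • b = (a + t • b) - a := by abel
  rw [h2]
  exact (norm_sub_le _ _).trans (by linarith)

/-- Sections of polars of open sets `U ∋ 0` are preconnected if the sections of `U` are
preconnected and the affine functions without zeros on `U` have continuous logarithms on `U`. -/
theorem pol_sec_preconnected {U : Set (Fin n → ℂ)} (hU : IsOpen U) (h0 : (0 : Fin n → ℂ) ∈ U)
    (hpre : ∀ a b, IsPreconnected (sec U a b))
    (hlog : ∀ ζ ∈ pol U, ∃ L : (Fin n → ℂ) → ℂ, ContinuousOn L U ∧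
      ∀ x ∈ U, exp (L x) = 1 - x ⬝ᵥ ζ) :
    ∀ a b, IsPreconnected (sec (pol U) a b) := by
  classical
  intro a b
  apply isPreconnected_of_forall_pair
  intro t₀ ht₀ t₁ ht₁
  by_cases htt : (t₁ - t₀) • b = 0
  · rcases smul_eq_zero.1 htt with h | h
    · have : t₁ = t₀ := sub_eq_zero.1 h
      subst this
      exact ⟨{t₁}, by simpa using ht₀, rfl, rfl, isPreconnected_singleton⟩
    · have huniv : sec (pol U) a b = Set.univ := by
        rw [Set.eq_univ_iff_forall]
        intro t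
        have : a + t₀ • b ∈ pol U := ht₀
        change a + t • b ∈ pol U
        rw [h] at this ⊢
        simpa using this
      rw [huniv]
      exact ⟨Set.univ, subset_rfl, Set.mem_univ _, Set.mem_univ _, isPreconnected_univ⟩
  -- the two endpoints
  set ζ₀ : Fin n → ℂ := a + t₀ • b with hζ₀
  set v : Fin n → ℂ := (t₁ - t₀) • b with hv
  have hζ₀m : ζ₀ ∈ pol U := ht₀
  have hζ₁m : ζ₀ + v ∈ pol U := by
    have : ζ₀ + v = a + t₁ • b := by
      rw [hζ₀, hv, sub_smul]
      abel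
    rw [this]
    exact ht₁
  set K : Set ℂ := sec (pol U) ζ₀ v with hK
  have hKc : IsCompact K := sec_isCompact (isCompact_pol hU h0) ζ₀ htt
  have h0K : (0:ℂ) ∈ K := by
    change ζ₀ + (0:ℂ) • v ∈ pol U
    simpa using hζ₀m
  have h1K : (1:ℂ) ∈ K := by
    change ζ₀ + (1:ℂ) • v ∈ pol U
    simpa using hζ₁m
  clear_value ζ₀ v
  obtain ⟨L₀, hL₀c, hL₀⟩ := hlog ζ₀ hζ₀m
  obtain ⟨L₁, hL₁c, hL₁⟩ := hlog (ζ₀ + v) hζ₁m
  set lam : (Fin n → ℂ) → ℂ := fun x => L₀ x - L₁ x with hlam
  have hlamc : ContinuousOn lam U := hL₀c.sub hL₁c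
  -- points of the complement
  have hex : ∀ t, t ∉ K → ∃ x ∈ U, x ⬝ᵥ (ζ₀ + t • v) = 1 := by
    intro t ht
    by_contra h
    push Not at h
    exact ht h
  have hexp : ∀ t, ∀ x ∈ U, x ⬝ᵥ (ζ₀ + t • v) = 1 → exp (lam x) * (t - 1) = t := by
    intro t x hx h
    have h1 := hL₁ x hx
    have h2 : (1 - x ⬝ᵥ (ζ₀ + v)) ≠ 0 := by
      rw [← h1]
      exact Complex.exp_ne_zero _
    simp only [hlam]
    rw [Complex.exp_sub, hL₀ x hx, h1]
    rw [div_mul_eq_mul_div, div_eq_iff h2]
    rw [dotProduct_add, dotProduct_smul, smul_eq_mul] at h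
    rw [dotProduct_add]
    linear_combination h
  have hconst : ∀ t, t ∉ K → ∀ x ∈ U, ∀ y ∈ U, x ⬝ᵥ (ζ₀ + t • v) = 1 →
      y ⬝ᵥ (ζ₀ + t • v) = 1 → lam x = lam y := by
    intro t ht x hx y hy hx1 hy1
    have hline : ∀ s : ℂ, (x + s • (y - x)) ⬝ᵥ (ζ₀ + t • v) = 1 := by
      intro s
      rw [add_dotProduct, smul_dotProduct, sub_dotProduct, hx1, hy1]
      simp
    have ht1 : t - 1 ≠ 0 := by
      intro h
      have : t = 1 := by linear_combination h
      rw [this] at ht
      exact ht h1K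
    have hcont : ContinuousOn (fun s : ℂ => lam (x + s • (y - x))) (sec U x (y - x)) :=
      hlamc.comp (by fun_prop) (fun s hs => hs)
    have key := log_unique (hpre x (y - x)) (f := fun s => lam (x + s • (y - x)))
      (g := fun _ => lam x) hcont continuousOn_const ?_ (a := 0) ?_ ?_ 1 ?_
    · have key' : lam (x + (1:ℂ) • (y - x)) = lam x := key
      rw [← key']
      congr 1
      simp
    · intro s hs
      have e1 := hexp t _ hs (hline s)
      have e2 := hexp t x hx hx1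
      exact mul_right_cancel₀ ht1 (e1.trans e2.symm)
    · change x + (0:ℂ) • (y - x) ∈ U
      simpa using hx
    · simp
    · change x + (1:ℂ) • (y - x) ∈ U
      simpa using hy
  choose! X hXU hX1 using hex
  set Θ : ℂ → ℂ := fun t => lam (X t) with hΘ
  have hΘc : ContinuousOn Θ Kᶜ := by
    intro t₂ ht₂
    apply ContinuousAt.continuousWithinAt
    have hx₂ := hXU t₂ ht₂
    have hx₂1 := hX1 t₂ ht₂
    set x₂ := X t₂ with hx₂def
    have hcd : Continuous fun t : ℂ => x₂ ⬝ᵥ (ζ₀ + t • v) :=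
      (continuous_dot x₂).comp (by fun_prop)
    have hca : ContinuousAt (fun t : ℂ => (x₂ ⬝ᵥ (ζ₀ + t • v))⁻¹ • x₂) t₂ := by
      have hinv : ContinuousAt (fun t : ℂ => (x₂ ⬝ᵥ (ζ₀ + t • v))⁻¹) t₂ :=
        hcd.continuousAt.inv₀ (by rw [hx₂1]; exact one_ne_zero)
      exact hinv.smul continuousAt_const
    have hval : (x₂ ⬝ᵥ (ζ₀ + t₂ • v))⁻¹ • x₂ = x₂ := by rw [hx₂1, inv_one, one_smul]
    have hmem : ∀ᶠ t in 𝓝 t₂, (x₂ ⬝ᵥ (ζ₀ + t • v))⁻¹ • x₂ ∈ U := by
      apply hca.eventually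
      apply hU.mem_nhds
      simp only [hval]
      exact hx₂
    have hne : ∀ᶠ t in 𝓝 t₂, x₂ ⬝ᵥ (ζ₀ + t • v) ≠ 0 := by
      apply hcd.continuousAt.eventually_ne
      rw [hx₂1]
      exact one_ne_zero
    have hKo : ∀ᶠ t in 𝓝 t₂, t ∈ Kᶜ := hKc.isClosed.isOpen_compl.mem_nhds ht₂
    have heq : Θ =ᶠ[𝓝 t₂] fun t => lam ((x₂ ⬝ᵥ (ζ₀ + t • v))⁻¹ • x₂) := by
      filter_upwards [hmem, hne, hKo] with t h1 h2 h3
      refine hconst t h3 _ (hXU t h3) _ h1 (hX1 t h3) ?_
      rw [smul_dotProduct, smul_eq_mul, inv_mul_cancel₀ h2]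
    refine ContinuousAt.congr ?_ heq.symm
    refine ContinuousAt.comp (g := lam) (f := fun t : ℂ => (x₂ ⬝ᵥ (ζ₀ + t • v))⁻¹ • x₂) ?_ hca
    simp only [hval]
    exact hlamc.continuousAt (hU.mem_nhds hx₂)
  obtain ⟨C, hCK, hCp, hC0, hC1⟩ := same_component hKc h0K h1K hΘc
    (fun t ht => hexp t _ (hXU t ht) (hX1 t ht))
  refine ⟨(fun s : ℂ => t₀ + s * (t₁ - t₀)) '' C, ?_, ⟨0, hC0, by ring⟩, ⟨1, hC1, by ring⟩,
    hCp.image _ (by fun_prop)⟩
  rintro _ ⟨s, hs, rfl⟩
  have hsK : ζ₀ + s • v ∈ pol U := hCK hs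
  change a + (t₀ + s * (t₁ - t₀)) • b ∈ pol U
  have : a + (t₀ + s * (t₁ - t₀)) • b = ζ₀ + s • v := by
    rw [hζ₀, hv, add_smul, mul_smul]
    abel
  rw [this]
  exact hsK

/-- Complements of nonempty sections of polars are connected. -/
theorem pol_sec_compl_connected {U : Set (Fin n → ℂ)} (hU : IsOpen U)
    (h0 : (0 : Fin n → ℂ) ∈ U) (hpre : ∀ a b, IsPreconnected (sec U a b)) {a b : Fin n → ℂ}
    (hb : b ≠ 0) (hne : (sec (pol U) a b).Nonempty) : IsConnected (sec (pol U) a b)ᶜ := by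
  obtain ⟨t', ht'⟩ := hne
  have ht'm : a + t' • b ∈ pol U := ht'
  set U' : Set (Fin n → ℂ) := {x | x ∈ U ∧ x ⬝ᵥ b ≠ 0} with hU'
  -- `U'` is connected
  have hU'p : IsPreconnected U' := by
    apply isPreconnected_of_forall_pair
    intro x hx y hy
    set T : Set ℂ := {s | x + s • (y - x) ∈ U'} with hT
    have hTp : IsPreconnected T := by
      by_cases hyx : (y - x) ⬝ᵥ b = 0
      · have : T = sec U x (y - x) := by
          ext s
          constructor
          · intro hs
            exact hs.1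
          · intro hs
            refine ⟨hs, ?_⟩
            rw [add_dotProduct, smul_dotProduct, hyx]
            simpa using hx.2
        rw [this]
        exact hpre _ _
      · have : T = sec U x (y - x) \ {-(x ⬝ᵥ b) / ((y - x) ⬝ᵥ b)} := by
          ext s
          constructor
          · intro hs
            refine ⟨hs.1, ?_⟩
            intro hs'
            apply hs.2
            rw [Set.mem_singleton_iff] at hs'
            rw [add_dotProduct, smul_dotProduct, hs', smul_eq_mul]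
            field_simp
            ring
          · intro hs
            refine ⟨hs.1, ?_⟩
            intro hs'
            apply hs.2
            rw [Set.mem_singleton_iff]
            rw [add_dotProduct, smul_dotProduct, smul_eq_mul] at hs'
            rw [eq_div_iff hyx]
            linear_combination hs'
        rw [this]
        exact isPreconnected_diff_singleton (hpre _ _) (sec_isOpen hU _ _) _
    refine ⟨(fun s : ℂ => x + s • (y - x)) '' T, ?_, ⟨0, ?_, by simp⟩, ⟨1, ?_, by simp⟩,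
      hTp.image _ (by fun_prop)⟩
    · rintro _ ⟨s, hs, rfl⟩
      exact hs
    · change x + (0:ℂ) • (y - x) ∈ U'
      simpa using hx
    · change x + (1:ℂ) • (y - x) ∈ U'
      simpa using hy
  have himg : (fun x : Fin n → ℂ => (1 - x ⬝ᵥ a) / (x ⬝ᵥ b)) '' U' = (sec (pol U) a b)ᶜ := by
    ext t
    constructor
    · rintro ⟨x, hx, rfl⟩
      intro h
      apply h x hx.1
      rw [dotProduct_add, dotProduct_smul, smul_eq_mul, div_mul_cancel₀ _ hx.2]
      ring
    · intro ht
      have : ∃ x ∈ U, x ⬝ᵥ (a + t • b) = 1 := by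
        by_contra h
        push Not at h
        exact ht h
      obtain ⟨x, hx, hx1⟩ := this
      rw [dotProduct_add, dotProduct_smul, smul_eq_mul] at hx1
      have hxb : x ⬝ᵥ b ≠ 0 := by
        intro hxb
        apply ht'm x hx
        rw [dotProduct_add, dotProduct_smul, smul_eq_mul, hxb]
        rw [hxb] at hx1
        linear_combination hx1
      refine ⟨x, ⟨hx, hxb⟩, ?_⟩
      simp only
      rw [div_eq_iff hxb]
      linear_combination -hx1
  have hcont : ContinuousOn (fun x : Fin n → ℂ => (1 - x ⬝ᵥ a) / (x ⬝ᵥ b)) U' := by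
    apply ContinuousOn.div
    · exact (continuous_const.sub (continuous_dot' a)).continuousOn
    · exact (continuous_dot' b).continuousOn
    · intro x hx
      exact hx.2
  rw [← himg]
  refine ⟨?_, hU'p.image _ hcont⟩
  rw [Set.image_nonempty]
  obtain ⟨i, hi⟩ : ∃ i, b i ≠ 0 := by
    by_contra h
    push Not at h
    exact hb (funext h)
  obtain ⟨r, hr, hball⟩ := Metric.isOpen_iff.1 hU 0 h0
  refine ⟨Pi.single i ((r / 2 : ℝ) : ℂ), hball ?_, ?_⟩
  · rw [mem_ball_zero_iff]
    refine lt_of_le_of_lt (b := r / 2) ?_ (by linarith)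
    rw [pi_norm_le_iff_of_nonneg (by positivity)]
    intro j
    by_cases hj : j = i
    · subst hj
      rw [Pi.single_eq_same, Complex.norm_real, Real.norm_eq_abs, abs_of_pos (by positivity)]
    · rw [Pi.single_eq_of_ne hj, norm_zero]
      positivity
  · rw [single_dotProduct]
    apply mul_ne_zero _ hi
    have : (r / 2 : ℝ) ≠ 0 := by positivity
    exact_mod_cast this

end Pool.Agent.MP_86e332_an
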