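import Pool.Agent.MP_86e332_an.Basic

set_option autoImplicit false

/-!
# The product property of the sublevel sets (module M7)

The proof uses Hahn-Banach extensions of the evaluations at `x₀` and `y₀`, one for each degree.
-/

open Complex Set Matrix Metric

namespace Pool.Agent.MP_86e332_an

variable {n : ℕ}

theorem Pol_le_succ (n d : ℕ) : Pol n d ≤ Pol n (d + 1) := by
  unfold Pol
  rw [Submodule.span_le]
  rintro f ⟨β, α, rfl⟩
  apply Submodule.subset_span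
  refine ⟨Fin.cons 1 β, Fin.cons 0 α, ?_⟩
  funext z
  rw [Fin.prod_univ_succ]
  simp

theorem Pol_mono {n d d' : ℕ} (h : d ≤ d') : Pol n d ≤ Pol n d' := by
  induction h with
  | refl => exact le_rfl
  | step _ ih => exact ih.trans (Pol_le_succ _ _)

theorem Pol_continuous {n d : ℕ} {f : (Fin n → ℂ) → ℂ} (hf : f ∈ Pol n d) : Continuous f := by
  unfold Pol at hf
  induction hf using Submodule.span_induction with
  | mem f hf =>
    obtain ⟨β, α, rfl⟩ := hf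
    refine continuous_finsetProd _ fun i _ => ?_
    refine continuous_const.add ?_
    unfold dotProduct
    fun_prop
  | zero => exact continuous_const
  | add f g _ _ hf hg => exact hf.add hg
  | smul c f _ hf => exact continuous_const.mul hf

theorem Pol_mul {n a b : ℕ} {f g : (Fin n → ℂ) → ℂ} (hf : f ∈ Pol n a) (hg : g ∈ Pol n b) :
    f * g ∈ Pol n (a + b) := by
  unfold Pol at hf
  induction hf using Submodule.span_induction with
  | mem f hf =>
    obtain ⟨β, α, rfl⟩ := hf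
    unfold Pol at hg
    induction hg using Submodule.span_induction with
    | mem g hg =>
      obtain ⟨β', α', rfl⟩ := hg
      apply Submodule.subset_span
      refine ⟨Fin.append β β', Fin.append α α', ?_⟩
      funext z
      rw [Fin.prod_univ_add]
      simp [Fin.append_left, Fin.append_right]
    | zero => rw [mul_zero]; exact Submodule.zero_mem _
    | add f g _ _ hf hg => rw [mul_add]; exact Submodule.add_mem _ hf hg
    | smul c f _ hf => rw [mul_smul_comm]; exact Submodule.smul_mem _ _ hf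
  | zero => rw [zero_mul]; exact Submodule.zero_mem _
  | add f g _ _ hf hg => rw [add_mul]; exact Submodule.add_mem _ hf hg
  | smul c f _ hf => rw [smul_mul_assoc]; exact Submodule.smul_mem _ _ hf

theorem Pol2_mul {n N N' : ℕ} {P Q : (Fin n → ℂ) → (Fin n → ℂ) → ℂ} (hP : P ∈ Pol2 n N)
    (hQ : Q ∈ Pol2 n N') : P * Q ∈ Pol2 n (N + N') := by
  unfold Pol2 at hP
  induction hP using Submodule.span_induction with
  | mem P hP =>
    obtain ⟨a, b, f, g, hab, hf, hg, rfl⟩ := hP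
    unfold Pol2 at hQ
    induction hQ using Submodule.span_induction with
    | mem Q hQ =>
      obtain ⟨a', b', f', g', hab', hf', hg', rfl⟩ := hQ
      apply Submodule.subset_span
      refine ⟨a + a', b + b', f * f', g * g', by omega, Pol_mul hf hf', Pol_mul hg hg', ?_⟩
      funext x y
      simp only [Pi.mul_apply]
      ring
    | zero => rw [mul_zero]; exact Submodule.zero_mem _
    | add f g _ _ hf hg => rw [mul_add]; exact Submodule.add_mem _ hf hg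
    | smul c f _ hf => rw [mul_smul_comm]; exact Submodule.smul_mem _ _ hf
  | zero => rw [zero_mul]; exact Submodule.zero_mem _
  | add f g _ _ hf hg => rw [add_mul]; exact Submodule.add_mem _ hf hg
  | smul c f _ hf => rw [smul_mul_assoc]; exact Submodule.smul_mem _ _ hf

theorem one_mem_Pol2 (n : ℕ) : (1 : (Fin n → ℂ) → (Fin n → ℂ) → ℂ) ∈ Pol2 n 0 := by
  apply Submodule.subset_span
  refine ⟨0, 0, 1, 1, le_rfl, ?_, ?_, ?_⟩
  · apply Submodule.subset_span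
    exact ⟨Fin.elim0, Fin.elim0, by funext z; simp⟩
  · apply Submodule.subset_span
    exact ⟨Fin.elim0, Fin.elim0, by funext z; simp⟩
  · funext x y; simp

theorem Pol2_pow {n N : ℕ} {P : (Fin n → ℂ) → (Fin n → ℂ) → ℂ} (hP : P ∈ Pol2 n N) (k : ℕ) :
    P ^ k ∈ Pol2 n (k * N) := by
  induction k with
  | zero => rw [pow_zero, zero_mul]; exact one_mem_Pol2 n
  | succ k ih =>
    rw [pow_succ, Nat.succ_mul]
    exact Pol2_mul ih hP


/-- two polynomials equal on `E` are equal at the points of the sublevel sets -/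
theorem eq_of_eqOn {E : Set (Fin n → ℂ)} {c : ℝ} {x₀ : Fin n → ℂ} (hx : x₀ ∈ Kset E c) {a : ℕ}
    {f g : (Fin n → ℂ) → ℂ} (hf : f ∈ Pol n a) (hg : g ∈ Pol n a) (h : ∀ x ∈ E, f x = g x) :
    f x₀ = g x₀ := by
  have h1 := hx a (f - g) (Submodule.sub_mem _ hf hg) 0 (by
    intro w hw
    rw [Pi.sub_apply, h w hw, sub_self, norm_zero])
  rw [mul_zero, Pi.sub_apply] at h1
  exact sub_eq_zero.1 (norm_le_zero_iff.1 h1)

theorem exists_functional {E : Set (Fin n → ℂ)} [CompactSpace E] {c : ℝ}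
    {x₀ : Fin n → ℂ} (hx : x₀ ∈ Kset E c) (a : ℕ) :
    ∃ U : C(E, ℂ) →L[ℂ] ℂ, ‖U‖ ≤ Real.exp (c * a) ∧
      ∀ f ∈ Pol n a, ∀ φ : C(E, ℂ), (∀ x : E, φ x = f x) → U φ = f x₀ := by
  let V : Submodule ℂ C(E, ℂ) :=
    { carrier := {φ | ∃ f ∈ Pol n a, ∀ x : E, φ x = f x}
      add_mem' := by
        rintro φ ψ ⟨f, hf, hf'⟩ ⟨g, hg, hg'⟩
        exact ⟨f + g, Submodule.add_mem _ hf hg, fun x => by simp [hf' x, hg' x]⟩
      zero_mem' := ⟨0, Submodule.zero_mem _, fun x => by simp⟩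
      smul_mem' := by
        rintro k φ ⟨f, hf, hf'⟩
        exact ⟨k • f, Submodule.smul_mem _ _ hf, fun x => by simp [hf' x]⟩ }
  have hex : ∀ φ : V, ∃ f ∈ Pol n a, ∀ x : E, (φ : C(E, ℂ)) x = f x := fun φ => φ.2
  choose F hF1 hF2 using hex
  have hV : ∀ φ : V, ∀ f ∈ Pol n a, (∀ x : E, (φ : C(E, ℂ)) x = f x) → F φ x₀ = f x₀ := by
    intro φ f hf h
    exact eq_of_eqOn hx (hF1 φ) hf fun x hxE => by rw [← hF2 φ ⟨x, hxE⟩, h ⟨x, hxE⟩]
  let ψ : V →ₗ[ℂ] ℂ :=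
    { toFun := fun φ => F φ x₀
      map_add' := by
        intro φ φ'
        rw [hV (φ + φ') (F φ + F φ') (Submodule.add_mem _ (hF1 φ) (hF1 φ'))
          (fun x => by
            rw [Pi.add_apply, ← hF2 φ x, ← hF2 φ' x]
            rfl)]
        rfl
      map_smul' := by
        intro k φ
        rw [hV (k • φ) (k • F φ) (Submodule.smul_mem _ _ (hF1 φ))
          (fun x => by
            rw [Pi.smul_apply, ← hF2 φ x]
            rfl)]
        rfl }
  have hbound : ∀ φ : V, ‖ψ φ‖ ≤ Real.exp (c * a) * ‖φ‖ := by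
    intro φ
    refine hx a _ (hF1 φ) _ ?_
    intro w hw
    rw [← hF2 φ ⟨w, hw⟩]
    exact ContinuousMap.norm_coe_le_norm (φ : C(E, ℂ)) ⟨w, hw⟩
  obtain ⟨U, hU1, hU2⟩ := exists_extension_norm_eq V (ψ.mkContinuous _ hbound)
  refine ⟨U, ?_, ?_⟩
  · rw [hU2]
    exact LinearMap.mkContinuous_norm_le _ (Real.exp_pos _).le _
  · intro f hf φ hφ
    have h := hU1 ⟨φ, f, hf, hφ⟩
    rw [h, LinearMap.mkContinuous_apply]
    exact hV ⟨φ, f, hf, hφ⟩ f hf hφ


/-- functionals which see exactly the part of degree `a` -/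
theorem exists_graded {E : Set (Fin n → ℂ)} [CompactSpace E] {c : ℝ} (hc : 0 ≤ c)
    {x₀ : Fin n → ℂ} (hx : x₀ ∈ Kset E c) :
    ∃ u : ℕ → (C(E, ℂ) →L[ℂ] ℂ), (∀ a, ‖u a‖ ≤ 2 * Real.exp (c * a)) ∧
      ∀ α, ∀ f ∈ Pol n α, ∀ φ : C(E, ℂ), (∀ x : E, φ x = f x) →
        (∑ a ∈ Finset.range (α + 1), u a φ = f x₀) ∧ ∀ a, α < a → u a φ = 0 := by
  choose U hU1 hU2 using fun a => exists_functional hx a
  let u : ℕ → (C(E, ℂ) →L[ℂ] ℂ) := fun a => Nat.rec (U 0) (fun a _ => U (a + 1) - U a) a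
  have hu0 : u 0 = U 0 := rfl
  have hus : ∀ a, u (a + 1) = U (a + 1) - U a := fun a => rfl
  refine ⟨u, ?_, ?_⟩
  · intro a
    rcases a with _ | a
    · rw [hu0]
      have := hU1 0
      have h2 := Real.exp_pos (c * (0 : ℕ))
      linarith
    · rw [hus]
      have h1 := hU1 (a + 1)
      have h2 := hU1 a
      have h3 : Real.exp (c * a) ≤ Real.exp (c * (a + 1 : ℕ)) := by
        apply Real.exp_le_exp.2
        apply mul_le_mul_of_nonneg_left _ hc
        push_cast; linarith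
      have h4 := norm_sub_le (U (a + 1)) (U a)
      linarith
  · intro α f hf φ hφ
    have hsum : ∀ m, ∑ a ∈ Finset.range (m + 1), u a φ = U m φ := by
      intro m
      induction m with
      | zero => simp [hu0]
      | succ m ih =>
        rw [Finset.sum_range_succ, ih, hus, _root_.sub_apply]
        ring
    refine ⟨?_, ?_⟩
    · rw [hsum]
      exact hU2 α f hf φ hφ
    · intro a ha
      obtain ⟨b, rfl⟩ : ∃ b, a = b + 1 := ⟨a - 1, by omega⟩
      rw [hus, _root_.sub_apply, hU2 (b + 1) f (Pol_mono (by omega) hf) φ hφ,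
        hU2 b f (Pol_mono (by omega) hf) φ hφ, sub_self]

/-- apply `w` in the second variable -/
noncomputable def TT {E : Set (Fin n → ℂ)} [CompactSpace E] (w : C(E, ℂ) →L[ℂ] ℂ)
    (Q : C(E × E, ℂ)) : C(E, ℂ) := (⟨w, w.continuous⟩ : C(C(E, ℂ), ℂ)).comp Q.curry

theorem TT_apply {E : Set (Fin n → ℂ)} [CompactSpace E] (w : C(E, ℂ) →L[ℂ] ℂ)
    (Q : C(E × E, ℂ)) (x : E) : TT w Q x = w (Q.curry x) := rfl

theorem TT_add {E : Set (Fin n → ℂ)} [CompactSpace E] (w : C(E, ℂ) →L[ℂ] ℂ)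
    (Q Q' : C(E × E, ℂ)) : TT w (Q + Q') = TT w Q + TT w Q' := by
  ext x
  rw [ContinuousMap.add_apply, TT_apply, TT_apply, TT_apply, ← map_add]
  rfl

theorem TT_smul {E : Set (Fin n → ℂ)} [CompactSpace E] (w : C(E, ℂ) →L[ℂ] ℂ)
    (k : ℂ) (Q : C(E × E, ℂ)) : TT w (k • Q) = k • TT w Q := by
  ext x
  rw [ContinuousMap.smul_apply, TT_apply, TT_apply, ← map_smul]
  rfl

theorem TT_norm_le {E : Set (Fin n → ℂ)} [CompactSpace E] (w : C(E, ℂ) →L[ℂ] ℂ)
    (Q : C(E × E, ℂ)) {M : ℝ} (hM0 : 0 ≤ M) (hM : ∀ x y, ‖Q (x, y)‖ ≤ M) :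
    ‖TT w Q‖ ≤ ‖w‖ * M := by
  rw [ContinuousMap.norm_le _ (by positivity)]
  intro x
  rw [TT_apply]
  refine (w.le_opNorm _).trans ?_
  refine mul_le_mul_of_nonneg_left ?_ (norm_nonneg _)
  rw [ContinuousMap.norm_le _ hM0]
  intro y
  exact hM x y

/-- the index set -/
def IN (N : ℕ) : Finset (ℕ × ℕ) :=
  (Finset.range (N + 1) ×ˢ Finset.range (N + 1)).filter fun p => p.1 + p.2 ≤ N

theorem IN_card (N : ℕ) : (IN N).card ≤ (N + 1) ^ 2 := by
  refine (Finset.card_filter_le _ _).trans ?_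
  rw [Finset.card_product, Finset.card_range, sq]

theorem representation {E : Set (Fin n → ℂ)} [CompactSpace E] {x₀ y₀ : Fin n → ℂ}
    {u w : ℕ → (C(E, ℂ) →L[ℂ] ℂ)}
    (hu : ∀ α, ∀ f ∈ Pol n α, ∀ φ : C(E, ℂ), (∀ x : E, φ x = f x) →
        (∑ a ∈ Finset.range (α + 1), u a φ = f x₀) ∧ ∀ a, α < a → u a φ = 0)
    (hw : ∀ α, ∀ f ∈ Pol n α, ∀ φ : C(E, ℂ), (∀ x : E, φ x = f x) →
        (∑ a ∈ Finset.range (α + 1), w a φ = f y₀) ∧ ∀ a, α < a → w a φ = 0)
    {N : ℕ} {P : (Fin n → ℂ) → (Fin n → ℂ) → ℂ} (hP : P ∈ Pol2 n N) :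
    ∃ Q : C(E × E, ℂ), (∀ x y, Q (x, y) = P x y) ∧
      ∑ p ∈ IN N, u p.1 (TT (w p.2) Q) = P x₀ y₀ := by
  unfold Pol2 at hP
  induction hP using Submodule.span_induction with
  | mem P hP =>
    obtain ⟨α, β, f, g, hab, hf, hg, rfl⟩ := hP
    let φ : C(E, ℂ) := ⟨fun x => f x, (Pol_continuous hf).comp continuous_subtype_val⟩
    let ψ : C(E, ℂ) := ⟨fun x => g x, (Pol_continuous hg).comp continuous_subtype_val⟩
    let Q : C(E × E, ℂ) := ⟨fun p => φ p.1 * ψ p.2, by fun_prop⟩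
    obtain ⟨hu1, hu2⟩ := hu α f hf φ (fun x => rfl)
    obtain ⟨hw1, hw2⟩ := hw β g hg ψ (fun x => rfl)
    refine ⟨Q, fun x y => rfl, ?_⟩
    have hT : ∀ b, TT (w b) Q = (w b ψ) • φ := by
      intro b
      ext x
      rw [TT_apply, ContinuousMap.smul_apply, smul_eq_mul, mul_comm, ← smul_eq_mul, ← map_smul]
      rfl
    have hterm : ∀ p : ℕ × ℕ, u p.1 (TT (w p.2) Q) = u p.1 φ * w p.2 ψ := by
      intro p
      rw [hT, map_smul, smul_eq_mul, mul_comm]
    simp_rw [hterm]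
    have hsub : Finset.range (α + 1) ×ˢ Finset.range (β + 1) ⊆ IN N := by
      intro p hp
      rw [Finset.mem_product, Finset.mem_range, Finset.mem_range] at hp
      rw [IN, Finset.mem_filter, Finset.mem_product, Finset.mem_range, Finset.mem_range]
      omega
    rw [← Finset.sum_subset hsub, Finset.sum_product, ← hu1, ← hw1, Finset.sum_mul_sum]
    intro p _ hp
    rw [Finset.mem_product, Finset.mem_range, Finset.mem_range, not_and_or] at hp
    rcases hp with hp | hp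
    · rw [hu2 p.1 (by omega), zero_mul]
    · rw [hw2 p.2 (by omega), mul_zero]
  | zero =>
    refine ⟨0, fun x y => rfl, ?_⟩
    have hT : ∀ b, TT (w b) (0 : C(E × E, ℂ)) = 0 := by
      intro b
      have := TT_smul (w b) (0 : ℂ) (0 : C(E × E, ℂ))
      simpa using this
    simp [hT]
  | add P P' _ _ h h' =>
    obtain ⟨Q, hQ, hQs⟩ := h
    obtain ⟨Q', hQ', hQs'⟩ := h'
    refine ⟨Q + Q', fun x y => by simp [hQ x y, hQ' x y], ?_⟩
    simp only [TT_add, map_add, Finset.sum_add_distrib, hQs, hQs', Pi.add_apply]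
  | smul k P _ h =>
    obtain ⟨Q, hQ, hQs⟩ := h
    refine ⟨k • Q, fun x y => by simp [hQ x y], ?_⟩
    simp only [TT_smul, map_smul, ← Finset.smul_sum, hQs, Pi.smul_apply]

theorem product_bound {E : Set (Fin n → ℂ)} [CompactSpace E]
    {c : ℝ} (hc : 0 ≤ c) {x₀ y₀ : Fin n → ℂ} (hx : x₀ ∈ Kset E c) (hy : y₀ ∈ Kset E c)
    {N : ℕ} {P : (Fin n → ℂ) → (Fin n → ℂ) → ℂ} (hP : P ∈ Pol2 n N) {M : ℝ} (hM0 : 0 ≤ M)
    (hM : ∀ x ∈ E, ∀ y ∈ E, ‖P x y‖ ≤ M) :
    ‖P x₀ y₀‖ ≤ 4 * (N + 1) ^ 2 * (Real.exp (c * N) * M) := by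
  obtain ⟨u, hu1, hu2⟩ := exists_graded hc hx
  obtain ⟨w, hw1, hw2⟩ := exists_graded hc hy
  obtain ⟨Q, hQ, hsum⟩ := representation hu2 hw2 hP
  rw [← hsum]
  have hQM : ∀ x y, ‖Q (x, y)‖ ≤ M := fun x y => by rw [hQ]; exact hM x x.2 y y.2
  have hterm : ∀ p ∈ IN N, ‖u p.1 (TT (w p.2) Q)‖ ≤ 4 * (Real.exp (c * N) * M) := by
    intro p hp
    rw [IN, Finset.mem_filter] at hp
    have h1 := (u p.1).le_opNorm (TT (w p.2) Q)
    have h2 := TT_norm_le (w p.2) Q hM0 hQM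
    have h3 : ‖TT (w p.2) Q‖ ≤ 2 * Real.exp (c * p.2) * M :=
      h2.trans (mul_le_mul_of_nonneg_right (hw1 p.2) hM0)
    have h4 : ‖u p.1‖ * ‖TT (w p.2) Q‖ ≤ 2 * Real.exp (c * p.1) * (2 * Real.exp (c * p.2) * M) :=
      mul_le_mul (hu1 p.1) h3 (norm_nonneg _) (by positivity)
    have h5 : Real.exp (c * p.1) * Real.exp (c * p.2) ≤ Real.exp (c * N) := by
      rw [← Real.exp_add]
      apply Real.exp_le_exp.2
      rw [← mul_add]
      apply mul_le_mul_of_nonneg_left _ hc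
      exact_mod_cast hp.2
    calc ‖u p.1 (TT (w p.2) Q)‖ ≤ 2 * Real.exp (c * p.1) * (2 * Real.exp (c * p.2) * M) :=
          h1.trans h4
      _ = 4 * (Real.exp (c * p.1) * Real.exp (c * p.2) * M) := by ring
      _ ≤ 4 * (Real.exp (c * N) * M) := by
          apply mul_le_mul_of_nonneg_left _ (by norm_num)
          exact mul_le_mul_of_nonneg_right h5 hM0
  have hcard : ((IN N).card : ℝ) ≤ (N + 1) ^ 2 := by exact_mod_cast IN_card N
  calc ‖∑ p ∈ IN N, u p.1 (TT (w p.2) Q)‖ ≤ ∑ p ∈ IN N, 4 * (Real.exp (c * N) * M) :=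
        norm_sum_le_of_le _ hterm
    _ = (IN N).card * (4 * (Real.exp (c * N) * M)) := by rw [Finset.sum_const, nsmul_eq_mul]
    _ ≤ (N + 1) ^ 2 * (4 * (Real.exp (c * N) * M)) :=
        mul_le_mul_of_nonneg_right hcard (by positivity)
    _ = 4 * (N + 1) ^ 2 * (Real.exp (c * N) * M) := by ring

/-- removing a polynomial factor with powers -/
theorem le_of_pow_le {A B : ℝ} {N : ℕ} (hB : 0 ≤ B)
    (h : ∀ k : ℕ, A ^ k ≤ 4 * ((k * N : ℕ) + 1) ^ 2 * B ^ k) : A ≤ B := by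
  by_contra hlt
  rw [not_le] at hlt
  rcases hB.eq_or_lt with h0 | hpos
  · have h1 := h 1
    rw [← h0] at h1 hlt
    simp at h1
    linarith
  · have hr : 1 < A / B := (one_lt_div hpos).2 hlt
    have hk : ∀ k : ℕ, 1 ≤ k → (A / B) ^ k ≤ 4 * (N + 1) ^ 2 * (k : ℝ) ^ 2 := by
      intro k hk1
      rw [div_pow, div_le_iff₀ (by positivity)]
      refine (h k).trans ?_
      apply mul_le_mul_of_nonneg_right _ (by positivity)
      have hk1' : (1 : ℝ) ≤ k := by exact_mod_cast hk1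
      have h2 : (((k * N : ℕ) : ℝ) + 1) ≤ (N + 1) * k := by
        push_cast
        nlinarith
      have h3 : (((k * N : ℕ) : ℝ) + 1) ^ 2 ≤ ((N + 1) * k) ^ 2 :=
        pow_le_pow_left₀ (by positivity) h2 2
      calc 4 * (((k * N : ℕ) : ℝ) + 1) ^ 2 ≤ 4 * ((N + 1) * k) ^ 2 := by linarith
        _ = 4 * (N + 1) ^ 2 * (k : ℝ) ^ 2 := by ring
    have ht := tendsto_pow_const_div_const_pow_of_one_lt 2 hr
    have hC : (0 : ℝ) < 4 * (N + 1) ^ 2 := by positivity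
    have hev := (ht.eventually (gt_mem_nhds (inv_pos.2 hC)))
    obtain ⟨k, hk2, hk1⟩ := (hev.and (Filter.eventually_ge_atTop 1)).exists
    have h3 := hk k hk1
    have hpk : 0 < (A / B) ^ k := by positivity
    rw [div_lt_iff₀ hpk, inv_mul_eq_div, lt_div_iff₀ hC] at hk2
    linarith

/-- the product property; no regularity of `E` is needed -/
theorem product_property' {E : Set (Fin n → ℂ)} (hE : IsCompact E) (hne : E.Nonempty)
    {c : ℝ} (hc : 0 ≤ c) {x₀ y₀ : Fin n → ℂ} (hx : x₀ ∈ Kset E c) (hy : y₀ ∈ Kset E c)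
    {N : ℕ} {P : (Fin n → ℂ) → (Fin n → ℂ) → ℂ} (hP : P ∈ Pol2 n N) {M : ℝ}
    (hM : ∀ x ∈ E, ∀ y ∈ E, ‖P x y‖ ≤ M) : ‖P x₀ y₀‖ ≤ Real.exp (c * N) * M := by
  have : CompactSpace E := isCompact_iff_compactSpace.1 hE
  obtain ⟨z, hz⟩ := hne
  have hM0 : 0 ≤ M := (norm_nonneg _).trans (hM z hz z hz)
  refine le_of_pow_le (N := N) (by positivity) ?_
  intro k
  have h1 := product_bound hc hx hy (Pol2_pow hP k) (M := M ^ k) (by positivity) (by
    intro x hx y hy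
    rw [Pi.pow_apply, Pi.pow_apply, norm_pow]
    exact pow_le_pow_left₀ (norm_nonneg _) (hM x hx y hy) k)
  rw [Pi.pow_apply, Pi.pow_apply, norm_pow] at h1
  refine h1.trans (le_of_eq ?_)
  rw [mul_pow, ← Real.exp_nat_mul]
  congr 3
  push_cast
  ring

theorem product_property {E : Set (Fin n → ℂ)} (hE : IsCompact E) (hne : E.Nonempty)
    (_hreg : ∀ ε : ℝ, 0 < ε → ∃ ρ : ℝ, 0 < ρ ∧ ∀ x ∈ E, ∀ z, dist z x < ρ → z ∈ Kset E ε)
    {c : ℝ} (hc : 0 ≤ c) {x₀ y₀ : Fin n → ℂ} (hx : x₀ ∈ Kset E c) (hy : y₀ ∈ Kset E c)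
    {N : ℕ} {P : (Fin n → ℂ) → (Fin n → ℂ) → ℂ} (hP : P ∈ Pol2 n N) {M : ℝ}
    (hM : ∀ x ∈ E, ∀ y ∈ E, ‖P x y‖ ≤ M) : ‖P x₀ y₀‖ ≤ Real.exp (c * N) * M :=
  product_property' hE hne hc hx hy hP hM

end Pool.Agent.MP_86e332_an
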