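import Pool.Agent.MP_86e332_an.Sublevel
import Pool.Agent.MP_86e332_an.Regular
import Pool.Agent.MP_86e332_an.Integral
import Pool.Agent.MP_86e332_an.Cauchy
import Pool.Agent.MP_86e332_an.Logs
import Pool.Agent.MP_86e332_an.Exhaust

set_option autoImplicit false

/-!
# Sections of the sublevel sets of the extremal function are connected
-/

open Complex Set Metric Filter Topology Matrix

namespace Pool.Agent.MP_86e332_an

variable {n : ℕ}

/-- Products of affine functions over a finite set. -/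
theorem prod_mem_Pol {ι : Type*} (β : ι → ℂ) (α : ι → Fin n → ℂ) (T : Finset ι) :
    (fun z : Fin n → ℂ => ∏ i ∈ T, (β i + α i ⬝ᵥ z)) ∈ Pol n T.card := by
  classical
  induction T using Finset.induction_on with
  | empty => simpa using const_mem_Pol n 0 (1:ℂ)
  | insert i T hi ih =>
    rw [Finset.card_insert_of_notMem hi, add_comm]
    have := Pol_mul (affine_mem_Pol (β i) (α i)) ih
    convert this using 1
    funext z
    rw [Finset.prod_insert hi]
    rfl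

theorem line_mem_Pol2_aux {N : ℕ} (β : Fin N → ℂ) (α : Fin N → Fin n → ℂ) (T : Finset (Fin N)) :
    (fun x y : Fin n → ℂ => (∏ i ∈ T, (β i + α i ⬝ᵥ x)) *
      ∏ i ∈ Tᶜ, (β i + α i ⬝ᵥ y)) ∈ Pol2 n N := by
  refine Submodule.subset_span ⟨T.card, Tᶜ.card, _, _, ?_, prod_mem_Pol β α T,
    prod_mem_Pol β α Tᶜ, rfl⟩
  rw [Finset.card_add_card_compl, Fintype.card_fin]

theorem continuous_line {F : (Fin n → ℂ) → ℂ} (hF : Continuous F) (x y : Fin n → ℂ) :
    Continuous fun s : ℝ => F ((1 - (s:ℂ)) • x + (s:ℂ) • y) := by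
  apply hF.comp
  have h1 : Continuous fun s : ℝ => (s:ℂ) := Complex.continuous_ofReal
  exact ((continuous_const.sub h1).smul continuous_const).add (h1.smul continuous_const)

/-- The mean of a polynomial over a segment is a polynomial in the two end points. -/
theorem mean_mem_Pol2 {N : ℕ} {F : (Fin n → ℂ) → ℂ} (hF : F ∈ Pol n N) :
    (fun x y : Fin n → ℂ => ∫ s in (0:ℝ)..1, F ((1 - (s:ℂ)) • x + (s:ℂ) • y)) ∈ Pol2 n N := by
  unfold Pol at hF
  induction hF using Submodule.span_induction with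
  | mem f hf =>
    obtain ⟨β, α, rfl⟩ := hf
    have key : (fun x y : Fin n → ℂ => ∫ s in (0:ℝ)..1,
        ∏ i, (β i + α i ⬝ᵥ ((1 - (s:ℂ)) • x + (s:ℂ) • y))) =
        ∑ T ∈ (Finset.univ : Finset (Fin N)).powerset,
          (∫ s in (0:ℝ)..1, (1 - (s:ℂ)) ^ T.card * (s:ℂ) ^ Tᶜ.card) •
          (fun x y : Fin n → ℂ => (∏ i ∈ T, (β i + α i ⬝ᵥ x)) *
            ∏ i ∈ Tᶜ, (β i + α i ⬝ᵥ y)) := by
      funext x y
      have h1 : ∀ s : ℝ, ∏ i, (β i + α i ⬝ᵥ ((1 - (s:ℂ)) • x + (s:ℂ) • y)) =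
          ∑ T ∈ (Finset.univ : Finset (Fin N)).powerset,
            ((1 - (s:ℂ)) ^ T.card * (s:ℂ) ^ Tᶜ.card) *
            ((∏ i ∈ T, (β i + α i ⬝ᵥ x)) * ∏ i ∈ Tᶜ, (β i + α i ⬝ᵥ y)) := by
        intro s
        have h2 : ∀ i, β i + α i ⬝ᵥ ((1 - (s:ℂ)) • x + (s:ℂ) • y) =
            (1 - (s:ℂ)) * (β i + α i ⬝ᵥ x) + (s:ℂ) * (β i + α i ⬝ᵥ y) := by
          intro i
          rw [dotProduct_add, dotProduct_smul, dotProduct_smul]
          simp only [smul_eq_mul]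
          ring
        simp_rw [h2]
        rw [Finset.prod_add]
        refine Finset.sum_congr rfl fun T _ => ?_
        rw [Finset.prod_mul_distrib, Finset.prod_mul_distrib, Finset.prod_const,
          Finset.prod_const, ← Finset.compl_eq_univ_sdiff]
        ring
      simp_rw [h1]
      rw [intervalIntegral.integral_finsetSum]
      · rw [Finset.sum_apply, Finset.sum_apply]
        refine Finset.sum_congr rfl fun T _ => ?_
        rw [intervalIntegral.integral_mul_const]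
        rfl
      · intro T _
        apply Continuous.intervalIntegrable
        fun_prop
    rw [key]
    refine Submodule.sum_mem _ fun T _ => Submodule.smul_mem _ _ (line_mem_Pol2_aux β α T)
  | zero =>
    convert (Pol2 n N).zero_mem using 1
    funext x y
    simp
  | add f g hf hg ihf ihg =>
    convert (Pol2 n N).add_mem ihf ihg using 1
    funext x y
    simp only [Pi.add_apply]
    rw [intervalIntegral.integral_add]
    · exact (continuous_line (Pol_continuous (n := n) (d := N) hf) x y).intervalIntegrable _ _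
    · exact (continuous_line (Pol_continuous (n := n) (d := N) hg) x y).intervalIntegrable _ _
  | smul c f _ ih =>
    convert (Pol2 n N).smul_mem c ih using 1
    funext x y
    simp only [Pi.smul_apply, smul_eq_mul]
    rw [intervalIntegral.integral_const_mul]

/-- Evaluation of `Lam` along a segment. -/
theorem Lam_eq_mean {F : (Fin n → ℂ) → ℂ} {x y : Fin n → ℂ} {q : Polynomial ℂ}
    (hq : ∀ s : ℂ, q.eval s = F ((1 - s) • x + s • y)) :
    Lam q = ∫ s in (0:ℝ)..1, F ((1 - (s:ℂ)) • x + (s:ℂ) • y) := by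
  unfold Lam
  refine intervalIntegral.integral_congr fun s _ => ?_
  exact hq s

theorem reg_line' {d : ℕ} {p : (Fin n → ℂ) → ℂ} (hp : p ∈ Pol n d) (x y : Fin n → ℂ) :
    ∃ q : Polynomial ℂ, ∀ t : ℂ, q.eval t = p ((1 - t) • x + t • y) := by
  obtain ⟨q, _, hq⟩ := reg_line hp x (y - x)
  refine ⟨q, fun t => ?_⟩
  rw [← hq t]
  congr 1
  rw [smul_sub, sub_smul, one_smul]
  abel

theorem Pol_one_mem (n : ℕ) : (1 : (Fin n → ℂ) → ℂ) ∈ Pol n 0 := const_mem_Pol n 0 1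

theorem Pol_pow {d : ℕ} {p : (Fin n → ℂ) → ℂ} (hp : p ∈ Pol n d) (k : ℕ) :
    p ^ k ∈ Pol n (k * d) := by
  induction k with
  | zero => rw [pow_zero, zero_mul]; exact Pol_one_mem n
  | succ k ih =>
    rw [pow_succ, Nat.succ_mul]
    exact Pol_mul ih hp

/-- The estimate behind the connectedness of the sections. -/
theorem moment_bound {E : Set (Fin n → ℂ)} (hE : IsCompact E) (hne : E.Nonempty)
    (hconn : ∀ a b, IsPreconnected (sec E a b)) {c : ℝ} (hc : 0 ≤ c) {x₀ y₀ : Fin n → ℂ}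
    (hx : x₀ ∈ Kset E c) (hy : y₀ ∈ Kset E c) (hxy : x₀ ≠ y₀)
    {d₁ d₂ : ℕ} {p₁ p₂ : (Fin n → ℂ) → ℂ} (hp₁ : p₁ ∈ Pol n d₁) (hp₂ : p₂ ∈ Pol n d₂)
    (hb₁ : ∀ w ∈ E, ‖p₁ w‖ < 1) (hb₂ : ∀ w ∈ E, ‖p₂ w‖ < 1)
    {w₁ w₂ : Polynomial ℂ} (hw₁ : ∀ t : ℂ, w₁.eval t = p₁ ((1 - t) • x₀ + t • y₀))
    (hw₂ : ∀ t : ℂ, w₂.eval t = p₂ ((1 - t) • x₀ + t • y₀)) (q : Polynomial ℂ) :
    ∃ C : ℝ, ∀ m k : ℕ, ‖Lam (w₁ ^ m * w₂ ^ k * q)‖ ≤
      C * Real.exp (c * d₁) ^ m * Real.exp (c * d₂) ^ k := by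
  -- a neighbourhood of `E` where both polynomials are at most one
  have hopen : IsOpen {z : Fin n → ℂ | ‖p₁ z‖ < 1 ∧ ‖p₂ z‖ < 1} :=
    (isOpen_lt (Pol_continuous hp₁).norm continuous_const).inter
      (isOpen_lt (Pol_continuous hp₂).norm continuous_const)
  obtain ⟨δ, hδ, hδE⟩ := hE.exists_thickening_subset_open hopen
    (fun w hw => ⟨hb₁ w hw, hb₂ w hw⟩)
  have hnear : ∀ z : Fin n → ℂ, (∃ w ∈ E, dist z w < δ) → ‖p₁ z‖ ≤ 1 ∧ ‖p₂ z‖ ≤ 1 := by
    rintro z ⟨w, hw, hzw⟩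
    have := hδE (mem_thickening_iff.2 ⟨w, hw, hzw⟩)
    exact ⟨this.1.le, this.2.le⟩
  -- extension of `q`
  obtain ⟨l, hl⟩ : ∃ l, (y₀ - x₀) l ≠ 0 := by
    by_contra hcon
    push Not at hcon
    apply hxy
    have : y₀ - x₀ = 0 := funext hcon
    exact (sub_eq_zero.1 this).symm
  set ζ : Fin n → ℂ := Pi.single l ((y₀ - x₀) l)⁻¹ with hζ
  have hζ1 : ζ ⬝ᵥ (y₀ - x₀) = 1 := by
    rw [hζ, single_dotProduct, inv_mul_cancel₀ hl]
  set q' : Polynomial ℂ := q.comp (Polynomial.X - Polynomial.C (ζ ⬝ᵥ x₀)) with hq'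
  set Q : (Fin n → ℂ) → ℂ := fun z => q'.eval (ζ ⬝ᵥ z) with hQ
  have hQmem : Q ∈ Pol n q'.natDegree := Exhaust.eval_mem_Pol ζ q' le_rfl
  have hQline : ∀ s : ℂ, Q ((1 - s) • x₀ + s • y₀) = q.eval s := by
    intro s
    rw [hQ, hq']
    simp only [Polynomial.eval_comp, Polynomial.eval_sub, Polynomial.eval_X, Polynomial.eval_C]
    congr 1
    have : (1 - s) • x₀ + s • y₀ = x₀ + s • (y₀ - x₀) := by
      rw [smul_sub, sub_smul, one_smul]
      abel
    rw [this, dotProduct_add, dotProduct_smul, hζ1]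
    simp
  -- bound of the extension near `E`
  obtain ⟨R, hR⟩ := isBounded_iff_forall_norm_le.1 hE.isBounded
  obtain ⟨Cq, hCq⟩ := ((isCompact_closedBall (0 : Fin n → ℂ) (R + δ)).image
    (Pol_continuous hQmem)).isBounded.exists_norm_le
  have hQb : ∀ z : Fin n → ℂ, (∃ w ∈ E, dist z w < δ) → ‖Q z‖ ≤ max Cq 0 := by
    rintro z ⟨w, hw, hzw⟩
    refine (hCq _ (Set.mem_image_of_mem _ ?_)).trans (le_max_left _ _)
    rw [mem_closedBall, dist_zero_right]
    calc ‖z‖ = ‖w + (z - w)‖ := by rw [add_sub_cancel]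
      _ ≤ ‖w‖ + ‖z - w‖ := norm_add_le _ _
      _ ≤ R + δ := add_le_add (hR w hw) (by rw [← dist_eq_norm]; exact hzw.le)
  obtain ⟨C, hC0, hC⟩ := integral_bound hE hconn hδ
  refine ⟨Real.exp (c * q'.natDegree) * (C * max Cq 0), fun m k => ?_⟩
  set F : (Fin n → ℂ) → ℂ := p₁ ^ m * p₂ ^ k * Q with hF
  have hFmem : F ∈ Pol n (m * d₁ + k * d₂ + q'.natDegree) :=
    Pol_mul (Pol_mul (Pol_pow hp₁ m) (Pol_pow hp₂ k)) hQmem
  have hFb : ∀ z : Fin n → ℂ, (∃ w ∈ E, dist z w < δ) → ‖F z‖ ≤ max Cq 0 := by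
    intro z hz
    rw [hF]
    simp only [Pi.mul_apply, Pi.pow_apply, norm_mul, norm_pow]
    obtain ⟨h1, h2⟩ := hnear z hz
    calc ‖p₁ z‖ ^ m * ‖p₂ z‖ ^ k * ‖Q z‖ ≤ 1 * 1 * max Cq 0 := by
          gcongr
          · exact pow_le_one₀ (norm_nonneg _) h1
          · exact pow_le_one₀ (norm_nonneg _) h2
          · exact hQb z hz
      _ = max Cq 0 := by ring
  have hmean := mean_mem_Pol2 hFmem
  have hPb : ∀ x ∈ E, ∀ y ∈ E,
      ‖(fun x y : Fin n → ℂ => ∫ s in (0:ℝ)..1, F ((1 - (s:ℂ)) • x + (s:ℂ) • y)) x y‖ ≤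
        C * max Cq 0 := by
    intro x hx y hy
    obtain ⟨q₁, hq₁⟩ := reg_line' hFmem x y
    have h1 := Lam_eq_mean hq₁
    simp only
    rw [← h1]
    refine hC x hx y hy q₁ (max Cq 0) (le_max_right _ _) ?_
    intro s hs
    rw [hq₁ s]
    exact hFb _ hs
  have h2 := product_property' hE hne hc hx hy hmean hPb
  have h3 : Lam (w₁ ^ m * w₂ ^ k * q) =
      ∫ s in (0:ℝ)..1, F ((1 - (s:ℂ)) • x₀ + (s:ℂ) • y₀) := by
    apply Lam_eq_mean
    intro s
    rw [hF]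
    simp only [Polynomial.eval_mul, Polynomial.eval_pow, Pi.mul_apply, Pi.pow_apply]
    rw [hw₁, hw₂, hQline]
  rw [h3]
  refine h2.trans (le_of_eq ?_)
  have h4 : Real.exp (c * ((m * d₁ + k * d₂ + q'.natDegree : ℕ) : ℝ)) =
      Real.exp (c * q'.natDegree) * Real.exp (c * d₁) ^ m * Real.exp (c * d₂) ^ k := by
    rw [← Real.exp_nat_mul, ← Real.exp_nat_mul, ← Real.exp_add, ← Real.exp_add]
    congr 1
    push_cast
    ring
  rw [h4]
  ring

/-- Any two points of a sublevel set of the extremal function can be joined inside the section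
of the set by the complex line through them. -/
theorem Kset_join {E : Set (Fin n → ℂ)} (hE : IsCompact E) (hne : E.Nonempty)
    (hconn : ∀ a b, IsPreconnected (sec E a b)) {c : ℝ} (hc : 0 ≤ c) {x₀ y₀ : Fin n → ℂ}
    (hx : x₀ ∈ Kset E c) (hy : y₀ ∈ Kset E c) (hxy : x₀ ≠ y₀) :
    ∃ C ⊆ {s : ℂ | (1 - s) • x₀ + s • y₀ ∈ Kset E c}, IsPreconnected C ∧
      (0:ℂ) ∈ C ∧ (1:ℂ) ∈ C := by
  let ι : Type := {dp : ℕ × ((Fin n → ℂ) → ℂ) // dp.2 ∈ Pol n dp.1 ∧
    ∃ M : ℝ, M < 1 ∧ ∀ w ∈ E, ‖dp.2 w‖ ≤ M}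
  have hline : ∀ i : ι, ∃ q : Polynomial ℂ, ∀ t : ℂ,
      q.eval t = i.1.2 ((1 - t) • x₀ + t • y₀) := fun i => reg_line' i.2.1 x₀ y₀
  choose w hw using hline
  have hlt : ∀ i : ι, ∀ v ∈ E, ‖i.1.2 v‖ < 1 := by
    intro i v hv
    obtain ⟨M, hM1, hM⟩ := i.2.2
    exact (hM v hv).trans_lt hM1
  have hle : ∀ i : ι, ∀ z ∈ Kset E c, ‖i.1.2 z‖ ≤ Real.exp (c * i.1.1) := by
    intro i z hz
    refine (hz i.1.1 i.1.2 i.2.1 1 (fun v hv => (hlt i v hv).le)).trans (le_of_eq (mul_one _))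
  obtain ⟨Θ, hΘ, hexp⟩ := cauchy_transform w (fun i => Real.exp (c * i.1.1))
    (fun i => Real.exp_pos _)
    (fun i => by
      rw [hw i]
      simpa using hle i x₀ hx)
    (fun i => by
      rw [hw i]
      simpa using hle i y₀ hy)
    (fun i j q => moment_bound hE hne hconn hc hx hy hxy i.2.1 j.2.1 (hlt i) (hlt j)
      (hw i) (hw j) q)
  -- the section and its complement
  set K : Set ℂ := {s : ℂ | (1 - s) • x₀ + s • y₀ ∈ Kset E c} with hK
  have hcont : Continuous fun s : ℂ => (1 - s) • x₀ + s • y₀ := by fun_prop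
  have hKc : ∀ t ∉ K, ∃ i, Real.exp (c * i.1.1) < ‖(w i).eval t‖ := by
    intro t ht
    have ht' : ¬ ((1 - t) • x₀ + t • y₀ ∈ Kset E c) := ht
    rw [Kset] at ht'
    simp only [Set.mem_ofPred_eq, not_forall, not_le] at ht'
    obtain ⟨d, p, hp, M, hM, hlt'⟩ := ht'
    obtain ⟨v, hv⟩ := hne
    have hM0 : 0 ≤ M := (norm_nonneg _).trans (hM v hv)
    set z : Fin n → ℂ := (1 - t) • x₀ + t • y₀ with hz
    have h1 : M < ‖p z‖ / Real.exp (c * d) := by
      rw [lt_div_iff₀ (Real.exp_pos _), mul_comm]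
      exact hlt'
    obtain ⟨M', hM'1, hM'2⟩ := exists_between h1
    have hM'0 : 0 < M' := hM0.trans_lt hM'1
    have hnorm : ∀ u : Fin n → ℂ, ‖(((M' : ℂ)⁻¹) • p) u‖ = ‖p u‖ / M' := by
      intro u
      rw [Pi.smul_apply, smul_eq_mul, norm_mul, norm_inv, Complex.norm_real,
        Real.norm_of_nonneg hM'0.le, inv_mul_eq_div]
    refine ⟨⟨(d, ((M' : ℂ)⁻¹) • p), (Pol n d).smul_mem _ hp, M / M', ?_, ?_⟩, ?_⟩
    · rw [div_lt_one hM'0]
      exact hM'1
    · intro u hu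
      simp only
      rw [hnorm]
      exact div_le_div_of_nonneg_right (hM u hu) hM'0.le
    · rw [hw]
      simp only
      rw [hnorm, lt_div_iff₀ hM'0, mul_comm]
      rwa [lt_div_iff₀ (Real.exp_pos _)] at hM'2
  have hKcompact : IsCompact K := by
    apply Metric.isCompact_of_isClosed_isBounded ((isClosed_Kset E c).preimage hcont)
    obtain ⟨R, hR⟩ := isBounded_iff_forall_norm_le.1 (isCompact_Kset hE c).isBounded
    have hpos : 0 < ‖y₀ - x₀‖ := norm_pos_iff.2 (sub_ne_zero.2 hxy.symm)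
    rw [isBounded_iff_forall_norm_le]
    refine ⟨(R + ‖x₀‖) / ‖y₀ - x₀‖, fun s hs => ?_⟩
    rw [le_div_iff₀ hpos, ← norm_smul]
    have h1 : s • (y₀ - x₀) = ((1 - s) • x₀ + s • y₀) - x₀ := by
      rw [smul_sub, sub_smul, one_smul]
      abel
    rw [h1]
    exact (norm_sub_le _ _).trans (add_le_add (hR _ hs) le_rfl)
  refine same_component hKcompact ?_ ?_ (Θ := Θ) (hΘ.mono hKc) (fun t ht => hexp t (hKc t ht))
  · change (1 - (0:ℂ)) • x₀ + (0:ℂ) • y₀ ∈ Kset E c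
    simpa using hx
  · change (1 - (1:ℂ)) • x₀ + (1:ℂ) • y₀ ∈ Kset E c
    simpa using hy

theorem Kset_sec_preconnected {E : Set (Fin n → ℂ)} (hE : IsCompact E)
    (hconn : ∀ a b, IsPreconnected (sec E a b))
    {r : ℝ} (hr : 0 < r) (hball : closedBall (0 : Fin n → ℂ) r ⊆ E) {c : ℝ} (hc : 0 ≤ c) :
    ∀ a b, IsPreconnected (sec (Kset E c) a b) := by
  intro a b
  have hne : E.Nonempty := ⟨0, hball (by simp [hr.le])⟩
  apply isPreconnected_of_forall_pair
  intro t₀ ht₀ t₁ ht₁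
  by_cases hxy : a + t₀ • b = a + t₁ • b
  · by_cases htt : t₀ = t₁
    · subst htt
      exact ⟨{t₀}, by simpa using ht₀, rfl, rfl, isPreconnected_singleton⟩
    · have h : b = 0 := by
        have h1 : (t₀ - t₁) • b = 0 := by
          rw [sub_smul, sub_eq_zero]
          exact add_left_cancel hxy
        rcases smul_eq_zero.1 h1 with h | h
        · exact absurd (sub_eq_zero.1 h) htt
        · exact h
      have huniv : sec (Kset E c) a b = Set.univ := by
        rw [Set.eq_univ_iff_forall]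
        intro t
        have : a + t₀ • b ∈ Kset E c := ht₀
        change a + t • b ∈ Kset E c
        rw [h] at this ⊢
        simpa using this
      rw [huniv]
      exact ⟨Set.univ, subset_rfl, Set.mem_univ _, Set.mem_univ _, isPreconnected_univ⟩
  · obtain ⟨C, hCK, hCp, hC0, hC1⟩ := Kset_join hE hne hconn hc ht₀ ht₁ hxy
    refine ⟨(fun s : ℂ => t₀ + s * (t₁ - t₀)) '' C, ?_, ⟨0, hC0, by ring⟩, ⟨1, hC1, by ring⟩,
      hCp.image _ (by fun_prop)⟩
    rintro _ ⟨s, hs, rfl⟩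
    have h1 : (1 - s) • (a + t₀ • b) + s • (a + t₁ • b) ∈ Kset E c := hCK hs
    change a + (t₀ + s * (t₁ - t₀)) • b ∈ Kset E c
    convert h1 using 1
    simp only [smul_add, sub_smul, add_smul, one_smul, mul_smul]
    rw [smul_comm s t₁ b, smul_comm s t₀ b]
    module

end Pool.Agent.MP_86e332_an
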