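import Pool.Agent.MP_86e332_an.Product
import Pool.Agent.MP_86e332_an.Polar

set_option autoImplicit false

/-!
# Sublevel sets of the extremal function
-/

open Complex Set Metric Filter Topology Matrix

namespace Pool.Agent.MP_86e332_an

variable {n : ℕ}

theorem const_mem_Pol (n d : ℕ) (c : ℂ) : (fun _ : Fin n → ℂ => c) ∈ Pol n d := by
  have h : (fun _ : Fin n → ℂ => c) ∈ Pol n 0 := by
    have h1 : (fun _ : Fin n → ℂ => (1:ℂ)) ∈ Pol n 0 :=
      Submodule.subset_span ⟨fun _ => 0, fun _ => 0, by funext z; simp⟩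
    have h2 := (Pol n 0).smul_mem c h1
    convert h2 using 1
    funext z
    simp
  exact Pol_mono (Nat.zero_le d) h

theorem affine_mem_Pol (β : ℂ) (α : Fin n → ℂ) : (fun z : Fin n → ℂ => β + α ⬝ᵥ z) ∈ Pol n 1 :=
  Submodule.subset_span ⟨fun _ => β, fun _ => α, by funext z; simp⟩

theorem translate_mem_Pol {d : ℕ} {p : (Fin n → ℂ) → ℂ} (hp : p ∈ Pol n d) (h : Fin n → ℂ) :
    (fun z => p (z + h)) ∈ Pol n d := by
  unfold Pol at hp
  induction hp using Submodule.span_induction with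
  | mem f hf =>
    obtain ⟨β, α, rfl⟩ := hf
    refine Submodule.subset_span ⟨fun i => β i + α i ⬝ᵥ h, α, ?_⟩
    funext z
    refine Finset.prod_congr rfl fun i _ => ?_
    rw [dotProduct_add]
    ring
  | zero => exact (Pol n d).zero_mem
  | add f g _ _ hf hg => exact (Pol n d).add_mem hf hg
  | smul c f _ hf => exact (Pol n d).smul_mem c hf

theorem Kset_mono {E : Set (Fin n → ℂ)} (hne : E.Nonempty) {c c' : ℝ} (h : c ≤ c') :
    Kset E c ⊆ Kset E c' := by
  intro z hz d p hp M hM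
  obtain ⟨w, hw⟩ := hne
  have hM0 : 0 ≤ M := (norm_nonneg _).trans (hM w hw)
  refine (hz d p hp M hM).trans (mul_le_mul_of_nonneg_right ?_ hM0)
  exact Real.exp_le_exp.2 (mul_le_mul_of_nonneg_right h (Nat.cast_nonneg d))

theorem subset_Kset {E : Set (Fin n → ℂ)} {c : ℝ} (hne : E.Nonempty) (hc : 0 ≤ c) :
    E ⊆ Kset E c := by
  intro z hz d p _ M hM
  obtain ⟨w, hw⟩ := hne
  have hM0 : 0 ≤ M := (norm_nonneg _).trans (hM w hw)
  refine (hM z hz).trans (le_mul_of_one_le_left hM0 ?_)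
  exact Real.one_le_exp (mul_nonneg hc (Nat.cast_nonneg d))

theorem Kset_thicken {E : Set (Fin n → ℂ)} (_hne : E.Nonempty)
    (hreg : ∀ ε : ℝ, 0 < ε → ∃ ρ : ℝ, 0 < ρ ∧ ∀ x ∈ E, ∀ z, dist z x < ρ → z ∈ Kset E ε)
    {c c' : ℝ} (h : c < c') :
    ∃ ρ : ℝ, 0 < ρ ∧ ∀ x ∈ Kset E c, ∀ z, dist z x < ρ → z ∈ Kset E c' := by
  obtain ⟨ρ, hρ, hρE⟩ := hreg (c' - c) (by linarith)
  refine ⟨ρ, hρ, ?_⟩
  intro x hx z hz d p hp M hM
  have h1 : ∀ w ∈ E, ‖(fun y => p (y + (z - x))) w‖ ≤ Real.exp ((c' - c) * d) * M := by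
    intro w hw
    refine hρE w hw (w + (z - x)) ?_ d p hp M hM
    rw [dist_eq_norm, add_sub_cancel_left, ← dist_eq_norm]
    exact hz
  have h2 := hx d _ (translate_mem_Pol hp (z - x)) _ h1
  have h3 : x + (z - x) = z := by abel
  simp only [h3] at h2
  refine h2.trans (le_of_eq ?_)
  rw [← mul_assoc, ← Real.exp_add]
  congr 2
  ring

theorem isClosed_Kset (E : Set (Fin n → ℂ)) (c : ℝ) : IsClosed (Kset E c) := by
  have : Kset E c = ⋂ (d : ℕ), ⋂ (p : (Fin n → ℂ) → ℂ), ⋂ (_ : p ∈ Pol n d), ⋂ (M : ℝ),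
      ⋂ (_ : ∀ w ∈ E, ‖p w‖ ≤ M), {z | ‖p z‖ ≤ Real.exp (c * d) * M} := by
    ext z
    simp only [Set.mem_iInter]
    rfl
  rw [this]
  refine isClosed_iInter fun d => isClosed_iInter fun p => isClosed_iInter fun hp =>
    isClosed_iInter fun M => isClosed_iInter fun _ => ?_
  exact isClosed_le (Pol_continuous hp).norm continuous_const

theorem isCompact_Kset {E : Set (Fin n → ℂ)} (hE : IsCompact E) (c : ℝ) :
    IsCompact (Kset E c) := by
  apply Metric.isCompact_of_isClosed_isBounded (isClosed_Kset E c)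
  obtain ⟨R, hR⟩ := isBounded_iff_forall_norm_le.1 hE.isBounded
  rw [isBounded_iff_forall_norm_le]
  refine ⟨Real.exp c * max R 0, fun z hz => ?_⟩
  rw [pi_norm_le_iff_of_nonneg (by positivity)]
  intro i
  have h := hz 1 _ (affine_mem_Pol 0 (Pi.single i 1)) (max R 0) (by
    intro w hw
    simp only [single_dotProduct, one_mul, zero_add]
    exact ((norm_le_pi_norm w i).trans (hR w hw)).trans (le_max_left _ _))
  simpa [single_dotProduct] using h

end Pool.Agent.MP_86e332_an
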